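import Pool.Agent.Ord2.Defs

/-! Module ARITH. `gg n i b = 2^(n+i) θ_b` (for `2 b ≤ n`), characters at multiples, block sums. -/

namespace Pool.Agent.Ord2

theorem al_bounds : 1 < al ∧ al < 2 := by
  have h2 : (0 : ℝ) < Real.log 2 := Real.log_pos (by norm_num)
  unfold al
  constructor
  · rw [lt_div_iff₀ h2, one_mul]
    exact Real.log_lt_log (by norm_num) (by norm_num)
  · rw [div_lt_iff₀ h2]
    have h4 : (2 : ℝ) * Real.log 2 = Real.log 4 := by
      have : (4 : ℝ) = 2 ^ 2 := by norm_num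
      rw [this, Real.log_pow]; norm_num
    rw [h4]
    exact Real.log_lt_log (by norm_num) (by norm_num)

theorem fl_le (b : ℕ) : fl b ≤ 2 * b := by
  unfold fl
  apply Nat.floor_le_of_le
  push_cast
  have := al_bounds.2
  nlinarith [(Nat.cast_nonneg b : (0 : ℝ) ≤ b)]

theorem th_mem (b : ℕ) : 1 ≤ th b ∧ th b < 2 := by
  unfold th
  constructor
  · exact Real.one_le_rpow (by norm_num) (Int.fract_nonneg _)
  · calc (2 : ℝ) ^ (Int.fract ((b : ℝ) * al)) < (2 : ℝ) ^ (1 : ℝ) :=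
        Real.rpow_lt_rpow_of_exponent_lt (by norm_num) (Int.fract_lt_one _)
      _ = 2 := Real.rpow_one 2

/-- `3^b = 2^(floor(b α)) θ_b` -/
theorem three_pow (b : ℕ) : (3 : ℝ) ^ b = 2 ^ fl b * th b := by
  have h2 : (0 : ℝ) < Real.log 2 := Real.log_pos (by norm_num)
  have h0 : 0 ≤ (b : ℝ) * al := mul_nonneg (Nat.cast_nonneg b) (by linarith [al_bounds.1])
  have hfl : ((fl b : ℕ) : ℝ) = (⌊(b : ℝ) * al⌋ : ℝ) := by
    unfold fl
    exact natCast_floor_eq_intCast_floor h0
  unfold th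
  rw [← Real.rpow_natCast 2 (fl b), ← Real.rpow_add (by norm_num), hfl, Int.floor_add_fract]
  have h3 : (3 : ℝ) = 2 ^ al := by
    unfold al
    rw [Real.rpow_def_of_pos (by norm_num), mul_div_cancel₀ _ (ne_of_gt h2),
      Real.exp_log (by norm_num)]
  calc (3 : ℝ) ^ b = ((2 : ℝ) ^ al) ^ b := by rw [← h3]
    _ = (2 : ℝ) ^ (al * (b : ℝ)) := by
        rw [Real.rpow_mul (by norm_num), Real.rpow_natCast]
    _ = (2 : ℝ) ^ ((b : ℝ) * al) := by rw [mul_comm]

theorem gg_eq (n i b : ℕ) (hb : 2 * b ≤ n) : (gg n i b : ℝ) = 2 ^ (n + i) * th b := by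
  have h : fl b ≤ n + i := (fl_le b).trans (by omega)
  unfold gg
  push_cast
  rw [three_pow b, ← mul_assoc, ← pow_add, Nat.sub_add_cancel h]

theorem fourier_nsmul' (m : ℤ) (g : ℕ) (x : AddCircle (1 : ℝ)) :
    fourier m (g • x) = fourier (m * g) x := by
  simp only [fourier_apply]
  congr 2
  rw [mul_smul, natCast_zsmul]

private theorem sum_mul' (K N : ℕ) (f : ℕ → ℂ) :
    ∑ b ∈ Finset.range (K * N), f b =
      ∑ t ∈ Finset.range N, ∑ c ∈ Finset.range K, f (t * K + c) := by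
  induction N with
  | zero => simp
  | succ N ih =>
    rw [Nat.mul_succ, Finset.sum_range_add, Finset.sum_range_succ, ih]
    congr 1
    apply Finset.sum_congr rfl
    intro c _
    rw [mul_comm]

/-- blocks: `b = t q I + i q + b0` -/
theorem sum_blocks (q I N : ℕ) (f : ℕ → ℂ) :
    ∑ b ∈ Finset.range (q * I * N), f b =
      ∑ t ∈ Finset.range N, ∑ b0 ∈ Finset.range q, ∑ i ∈ Finset.range I,
        f (t * (q * I) + b0 + i * q) := by
  rw [sum_mul']
  apply Finset.sum_congr rfl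
  intro t _
  rw [sum_mul', Finset.sum_comm]
  apply Finset.sum_congr rfl
  intro b0 _
  apply Finset.sum_congr rfl
  intro i _
  congr 1
  ring

end Pool.Agent.Ord2
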