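import Pool.Agent.Ord2.Arith

/-! Module COR. Invariance: `cf μ (2 n) = cf μ n = cf μ (3 n)`; correlation of two characters of the window;
the difference vector and its `l`. -/

open MeasureTheory

namespace Pool.Agent.Ord2

/-- exponent vector of `gg n i b` -/
noncomputable def vv (n i b : ℕ) : ℤ × ℤ := (((n + i : ℕ) : ℤ) - (fl b : ℤ), (b : ℤ))

private theorem cf_mul (μ : Measure (AddCircle (1 : ℝ))) (g : ℕ)
    (h : MeasurePreserving (fun x : AddCircle (1 : ℝ) => g • x) μ μ) (n : ℤ) :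
    cf μ (g * n) = cf μ n := by
  unfold cf
  have h1 : ∫ x, fourier n (g • x) ∂μ = ∫ x, fourier n x ∂μ := by
    have hae : AEStronglyMeasurable (fun x : AddCircle (1 : ℝ) => (fourier n x : ℂ))
        (Measure.map (fun x : AddCircle (1 : ℝ) => g • x) μ) :=
      (fourier n).continuous.aestronglyMeasurable
    have := integral_map h.measurable.aemeasurable hae
    rw [h.map_eq] at this
    exact this.symm
  rw [← h1]
  apply integral_congr_ae
  filter_upwards with x
  rw [fourier_nsmul', mul_comm]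

theorem cf_two_three (μ : Measure (AddCircle (1 : ℝ)))
    (h2 : MeasurePreserving (fun x : AddCircle (1 : ℝ) => (2 : ℕ) • x) μ μ)
    (h3 : MeasurePreserving (fun x : AddCircle (1 : ℝ) => (3 : ℕ) • x) μ μ) (n : ℤ) (a b : ℕ) :
    cf μ (2 ^ a * 3 ^ b * n) = cf μ n := by
  induction a with
  | zero =>
    induction b with
    | zero => simp
    | succ b ih =>
      have := cf_mul μ 3 h3 (2 ^ 0 * 3 ^ b * n)
      rw [ih] at this
      rw [← this]
      congr 1
      push_cast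
      ring
  | succ a ih =>
    have := cf_mul μ 2 h2 (2 ^ a * 3 ^ b * n)
    rw [ih] at this
    rw [← this]
    congr 1
    push_cast
    ring

private theorem gg_vv (n i b : ℕ) (hb : 2 * b ≤ n) :
    gg n i b = 2 ^ (vv n i b).1.toNat * 3 ^ (vv n i b).2.toNat := by
  have h := (fl_le b).trans hb
  unfold gg vv
  simp only
  congr 2
  omega

/-- `∫ e(m g x) conj e(m g' x) dμ = c(m D(v - v'))` -/
theorem corr (μ : Measure (AddCircle (1 : ℝ))) [IsProbabilityMeasure μ]
    (h2 : MeasurePreserving (fun x : AddCircle (1 : ℝ) => (2 : ℕ) • x) μ μ)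
    (h3 : MeasurePreserving (fun x : AddCircle (1 : ℝ) => (3 : ℕ) • x) μ μ)
    (m : ℤ) (n i b i' b' : ℕ) (hb : 2 * b ≤ n) (hb' : 2 * b' ≤ n) :
    ∫ x, fourier m (gg n i b • x) * (starRingEnd ℂ) (fourier m (gg n i' b' • x)) ∂μ =
      cf μ (m * Dv (vv n i b - vv n i' b')) := by
  have h1 : ∫ x, fourier m (gg n i b • x) * (starRingEnd ℂ) (fourier m (gg n i' b' • x)) ∂μ =
      cf μ (m * ((gg n i b : ℤ) - (gg n i' b' : ℤ))) := by
    unfold cf
    apply integral_congr_ae
    filter_upwards with x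
    rw [fourier_nsmul', fourier_nsmul', ← fourier_neg, ← fourier_add]
    congr 2
    ring
  rw [h1]
  have hf := (fl_le b).trans hb
  have hf' := (fl_le b').trans hb'
  -- common factor
  have key : ((gg n i b : ℤ) - (gg n i' b' : ℤ)) =
      2 ^ (min (n + i - fl b) (n + i' - fl b')) * 3 ^ (min b b') *
        Dv (vv n i b - vv n i' b') := by
    unfold gg Dv vv
    simp only [Prod.fst_sub, Prod.snd_sub]
    have e1 : n + i - fl b = min (n + i - fl b) (n + i' - fl b') +
        (((n + i : ℕ) : ℤ) - (fl b : ℤ) - (((n + i' : ℕ) : ℤ) - (fl b' : ℤ))).toNat := by omega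
    have e2 : n + i' - fl b' = min (n + i - fl b) (n + i' - fl b') +
        (-(((n + i : ℕ) : ℤ) - (fl b : ℤ) - (((n + i' : ℕ) : ℤ) - (fl b' : ℤ)))).toNat := by omega
    have e3 : b = min b b' + ((b : ℤ) - (b' : ℤ)).toNat := by omega
    have e4 : b' = min b b' + (-((b : ℤ) - (b' : ℤ))).toNat := by omega
    have p1 : (2 : ℤ) ^ (n + i - fl b) = 2 ^ (min (n + i - fl b) (n + i' - fl b')) *
        2 ^ (((n + i : ℕ) : ℤ) - (fl b : ℤ) - (((n + i' : ℕ) : ℤ) - (fl b' : ℤ))).toNat := by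
      rw [← pow_add]; exact congrArg _ e1
    have p2 : (2 : ℤ) ^ (n + i' - fl b') = 2 ^ (min (n + i - fl b) (n + i' - fl b')) *
        2 ^ (-(((n + i : ℕ) : ℤ) - (fl b : ℤ) - (((n + i' : ℕ) : ℤ) - (fl b' : ℤ)))).toNat := by
      rw [← pow_add]; exact congrArg _ e2
    have p3 : (3 : ℤ) ^ b = 3 ^ (min b b') * 3 ^ ((b : ℤ) - (b' : ℤ)).toNat := by
      rw [← pow_add]; exact congrArg _ e3
    have p4 : (3 : ℤ) ^ b' = 3 ^ (min b b') * 3 ^ (-((b : ℤ) - (b' : ℤ))).toNat := by
      rw [← pow_add]; exact congrArg _ e4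
    push_cast at p1 p2 ⊢
    rw [p1, p2, p3, p4]
    ring
  rw [key]
  have := cf_two_three μ h2 h3 (m * Dv (vv n i b - vv n i' b'))
    (min (n + i - fl b) (n + i' - fl b')) (min b b')
  rw [← this]
  congr 1
  ring

theorem integral_char (μ : Measure (AddCircle (1 : ℝ)))
    (h2 : MeasurePreserving (fun x : AddCircle (1 : ℝ) => (2 : ℕ) • x) μ μ)
    (h3 : MeasurePreserving (fun x : AddCircle (1 : ℝ) => (3 : ℕ) • x) μ μ)
    (m : ℤ) (n i b : ℕ) : ∫ x, fourier m (gg n i b • x) ∂μ = cf μ m := by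
  have h1 : ∫ x, fourier m (gg n i b • x) ∂μ = cf μ (m * (gg n i b : ℤ)) := by
    unfold cf
    apply integral_congr_ae
    filter_upwards with x
    rw [fourier_nsmul']
  rw [h1, ← cf_two_three μ h2 h3 m (n + i - fl b) b]
  congr 1
  unfold gg
  push_cast
  ring

theorem lv_diff (n r i b i' b' : ℕ) (hi : i < r) (hi' : i' < r) :
    |lv (vv n i b - vv n i' b')| ≤ r := by
  have hfr : ∀ b : ℕ, ((fl b : ℕ) : ℝ) = (b : ℝ) * al - Int.fract ((b : ℝ) * al) := by
    intro b
    have h0 : 0 ≤ (b : ℝ) * al := mul_nonneg (Nat.cast_nonneg b) (by linarith [al_bounds.1])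
    have hfl : ((fl b : ℕ) : ℝ) = (⌊(b : ℝ) * al⌋ : ℝ) := by
      unfold fl
      exact natCast_floor_eq_intCast_floor h0
    rw [hfl, Int.fract]
    ring
  unfold lv vv
  simp only [Prod.fst_sub, Prod.snd_sub]
  push_cast
  rw [hfr b, hfr b']
  have e : (n : ℝ) + i - (b * al - Int.fract ((b : ℝ) * al)) -
      (n + i' - (b' * al - Int.fract ((b' : ℝ) * al))) + al * (b - b') =
      ((i : ℝ) - i') + (Int.fract ((b : ℝ) * al) - Int.fract ((b' : ℝ) * al)) := by ring
  rw [e]
  have h1 : |(i : ℝ) - i'| ≤ r - 1 := by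
    have hi1 : (i : ℝ) + 1 ≤ r := by exact_mod_cast hi
    have hi2 : (i' : ℝ) + 1 ≤ r := by exact_mod_cast hi'
    have hi3 : (0 : ℝ) ≤ i := Nat.cast_nonneg i
    have hi4 : (0 : ℝ) ≤ i' := Nat.cast_nonneg i'
    rw [abs_le]
    constructor <;> linarith
  have h2 : |Int.fract ((b : ℝ) * al) - Int.fract ((b' : ℝ) * al)| ≤ 1 := by
    have f1 := Int.fract_nonneg ((b : ℝ) * al)
    have f2 := Int.fract_lt_one ((b : ℝ) * al)
    have f3 := Int.fract_nonneg ((b' : ℝ) * al)
    have f4 := Int.fract_lt_one ((b' : ℝ) * al)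
    rw [abs_le]
    constructor <;> linarith
  calc _ ≤ |(i : ℝ) - i'| + |Int.fract ((b : ℝ) * al) - Int.fract ((b' : ℝ) * al)| := abs_add_le _ _
    _ ≤ (r - 1) + 1 := add_le_add h1 h2
    _ = r := by ring

theorem vv_inj (n i b i' b' : ℕ) (h : vv n i b = vv n i' b') : i = i' ∧ b = b' := by
  unfold vv at h
  rw [Prod.mk.injEq] at h
  have hb : b = b' := by exact_mod_cast h.2
  subst hb
  refine ⟨?_, rfl⟩
  have := h.1
  push_cast at this
  omega

end Pool.Agent.Ord2
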