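import Pool.Agent.Ord2.Defs

/-! Module COVER (section 5, end). Induction on `l`: `X` is covered by `N0 K^l` balls of radius
`2^(-n1-1-l(s-1))`, `2^(s-1) ≥ 2 K²`. A maximal separated set is found greedily (at most `K` points). -/

namespace Pool.Agent.Ord2

/-- A maximal separated set in a piece of `X`. -/
private theorem maxsep (Y : Set (AddCircle (1 : ℝ))) (K : ℕ) (d : ℝ)
    (hK : ∀ F : Finset (AddCircle (1 : ℝ)), ↑F ⊆ Y → (∀ x ∈ F, ∀ y ∈ F, x ≠ y → d ≤ ‖x - y‖) →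
      F.card ≤ K) :
    ∃ F : Finset (AddCircle (1 : ℝ)), F.card ≤ K ∧ ∀ x ∈ Y, ∃ c ∈ F, ‖x - c‖ ≤ max d 0 := by
  classical
  set P : ℕ → Prop := fun k => ∃ F : Finset (AddCircle (1 : ℝ)), ↑F ⊆ Y ∧
    (∀ x ∈ F, ∀ y ∈ F, x ≠ y → d ≤ ‖x - y‖) ∧ F.card = k with hP
  have h0 : P 0 := ⟨∅, by simp, by simp, rfl⟩
  obtain ⟨F, hFY, hFd, hFc⟩ := Nat.findGreatest_spec (P := P) (Nat.zero_le K) h0
  refine ⟨F, hK F hFY hFd, fun x hx => ?_⟩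
  by_contra hno
  push Not at hno
  have hxF : x ∉ F := by
    intro h
    have := hno x h
    rw [sub_self, norm_zero] at this
    exact absurd (lt_of_le_of_lt (le_max_right d 0) this) (lt_irrefl _)
  have hv : P (F.card + 1) := by
    refine ⟨insert x F, ?_, ?_, Finset.card_insert_of_notMem hxF⟩
    · intro z hz
      rw [Finset.coe_insert] at hz
      rcases hz with rfl | hz
      · exact hx
      · exact hFY hz
    · intro a ha b hb hab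
      rw [Finset.mem_insert] at ha hb
      rcases ha with rfl | ha
      · rcases hb with rfl | hb
        · exact absurd rfl hab
        · exact (le_max_left d 0).trans (hno b hb).le
      · rcases hb with rfl | hb
        · rw [← norm_neg, neg_sub]
          exact (le_max_left d 0).trans (hno a ha).le
        · exact hFd a ha b hb hab
  obtain ⟨F', hF'Y, hF'd, hF'c⟩ := hv
  have hle : F.card + 1 ≤ K := hF'c ▸ hK F' hF'Y hF'd
  have hgr := Nat.le_findGreatest (P := P) hle ⟨F', hF'Y, hF'd, hF'c⟩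
  rw [← hFc] at hgr
  omega

private theorem cover_step (X : Set (AddCircle (1 : ℝ))) (K s n : ℕ)
    (hK : ∀ F : Finset (AddCircle (1 : ℝ)), ↑F ⊆ X →
      (∀ x ∈ F, ∀ y ∈ F, x ≠ y → (1 / 2 : ℝ) ^ (n + s) ≤ ‖x - y‖ ∧ ‖x - y‖ ≤ (1 / 2 : ℝ) ^ n) →
      F.card ≤ K) (C : Finset (AddCircle (1 : ℝ)))
    (hC : ∀ x ∈ X, ∃ c ∈ C, ‖x - c‖ ≤ (1 / 2 : ℝ) ^ (n + 1)) :
    ∃ C' : Finset (AddCircle (1 : ℝ)), C'.card ≤ C.card * K ∧
      ∀ x ∈ X, ∃ c ∈ C', ‖x - c‖ ≤ (1 / 2 : ℝ) ^ (n + s) := by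
  classical
  have h1 : ∀ c : AddCircle (1 : ℝ), ∃ F : Finset (AddCircle (1 : ℝ)), F.card ≤ K ∧
      ∀ x ∈ X ∩ {x | ‖x - c‖ ≤ (1 / 2 : ℝ) ^ (n + 1)}, ∃ c' ∈ F, ‖x - c'‖ ≤ (1 / 2 : ℝ) ^ (n + s) := by
    intro c
    obtain ⟨F, hF, hF2⟩ := maxsep (X ∩ {x | ‖x - c‖ ≤ (1 / 2 : ℝ) ^ (n + 1)}) K ((1 / 2 : ℝ) ^ (n + s))
      (by
        intro F hFY hFd
        apply hK F (hFY.trans Set.inter_subset_left)
        intro x hx y hy hxy
        refine ⟨hFd x hx y hy hxy, ?_⟩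
        have hx' : ‖x - c‖ ≤ (1 / 2 : ℝ) ^ (n + 1) := (hFY hx).2
        have hy' : ‖y - c‖ ≤ (1 / 2 : ℝ) ^ (n + 1) := (hFY hy).2
        have e : x - y = (x - c) - (y - c) := by abel
        rw [e]
        refine (norm_sub_le _ _).trans ?_
        have : (1 / 2 : ℝ) ^ n = (1 / 2 : ℝ) ^ (n + 1) + (1 / 2 : ℝ) ^ (n + 1) := by
          rw [pow_succ]; ring
        rw [this]
        exact add_le_add hx' hy')
    refine ⟨F, hF, fun x hx => ?_⟩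
    obtain ⟨c', hc', hd⟩ := hF2 x hx
    exact ⟨c', hc', by rwa [max_eq_left (by positivity)] at hd⟩
  choose F hF1 hF2 using h1
  refine ⟨C.biUnion F, ?_, ?_⟩
  · refine Finset.card_biUnion_le.trans ?_
    refine (Finset.sum_le_card_nsmul _ _ K (fun c _ => hF1 c)).trans ?_
    rw [smul_eq_mul]
  · intro x hx
    obtain ⟨c, hc, hxc⟩ := hC x hx
    obtain ⟨c', hc', hd⟩ := hF2 c x ⟨hx, hxc⟩
    exact ⟨c', Finset.mem_biUnion.mpr ⟨c, hc, hc'⟩, hd⟩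

theorem cover (X : Set (AddCircle (1 : ℝ))) (K : ℕ)
    (hK : ∀ s : ℕ, ∃ n1 : ℕ, ∀ n, n1 ≤ n → ∀ F : Finset (AddCircle (1 : ℝ)), ↑F ⊆ X →
      (∀ x ∈ F, ∀ y ∈ F, x ≠ y → (1 / 2 : ℝ) ^ (n + s) ≤ ‖x - y‖ ∧ ‖x - y‖ ≤ (1 / 2 : ℝ) ^ n) →
      F.card ≤ K) (η : ℝ) (hη : 0 < η) :
    ∃ C : Finset (AddCircle (1 : ℝ)), ∃ ρ : ℝ, C.Nonempty ∧ 0 < ρ ∧
      (∀ x ∈ X, ∃ c ∈ C, ‖x - c‖ ≤ ρ) ∧ (C.card : ℝ) ^ 2 * ρ ≤ η := by
  classical
  -- parameters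
  set K1 : ℕ := K + 1 with hK1
  set t : ℕ := 2 * K1 ^ 2 with ht
  have h2t : 2 * K1 ^ 2 ≤ 2 ^ t := ht ▸ (Nat.lt_two_pow_self).le
  obtain ⟨n1, hn1⟩ := hK (t + 1)
  -- base
  obtain ⟨T, _, hTf, hTc⟩ := finite_cover_balls_of_compact
    (isCompact_univ (X := AddCircle (1 : ℝ))) (show (0 : ℝ) < (1 / 2 : ℝ) ^ (n1 + 1) by positivity)
  set N0 : ℕ := hTf.toFinset.card + 1 with hN0
  have hind : ∀ l : ℕ, ∃ C : Finset (AddCircle (1 : ℝ)), C.card ≤ N0 * K1 ^ l ∧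
      ∀ x ∈ X, ∃ c ∈ C, ‖x - c‖ ≤ (1 / 2 : ℝ) ^ (n1 + l * t + 1) := by
    intro l
    induction l with
    | zero =>
      refine ⟨hTf.toFinset, by rw [pow_zero, mul_one]; omega, fun x _ => ?_⟩
      have hx := hTc (Set.mem_univ x)
      rw [Set.mem_iUnion₂] at hx
      obtain ⟨c, hc, hxc⟩ := hx
      refine ⟨c, hTf.mem_toFinset.mpr hc, ?_⟩
      rw [Metric.mem_ball, dist_eq_norm] at hxc
      rw [zero_mul, add_zero]
      exact hxc.le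
    | succ l ih =>
      obtain ⟨C, hC1, hC2⟩ := ih
      obtain ⟨C', hC'1, hC'2⟩ := cover_step X K (t + 1) (n1 + l * t)
        (hn1 (n1 + l * t) (Nat.le_add_right _ _)) C hC2
      refine ⟨C', ?_, ?_⟩
      · calc C'.card ≤ C.card * K := hC'1
          _ ≤ (N0 * K1 ^ l) * K1 := Nat.mul_le_mul hC1 (Nat.le_succ K)
          _ = N0 * K1 ^ (l + 1) := by rw [pow_succ, mul_assoc]
      · intro x hx
        obtain ⟨c, hc, hd⟩ := hC'2 x hx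
        refine ⟨c, hc, hd.trans (le_of_eq ?_)⟩
        congr 1
        ring
  -- choose l
  obtain ⟨l, hl⟩ := exists_pow_lt_of_lt_one (show (0 : ℝ) < η / (4 * (N0 : ℝ) ^ 2) by positivity)
    (show (1 / 2 : ℝ) < 1 by norm_num)
  obtain ⟨C, hC1, hC2⟩ := hind l
  refine ⟨insert 0 C, (1 / 2 : ℝ) ^ (n1 + l * t + 1), ⟨0, Finset.mem_insert_self _ _⟩,
    by positivity, ?_, ?_⟩
  · intro x hx
    obtain ⟨c, hc, hd⟩ := hC2 x hx
    exact ⟨c, Finset.mem_insert_of_mem hc, hd⟩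
  · have hcard : ((insert 0 C).card : ℝ) ≤ 2 * ((N0 : ℝ) * (K1 : ℝ) ^ l) := by
      have h1 : (insert 0 C).card ≤ C.card + 1 := Finset.card_insert_le _ _
      have h2 : 1 ≤ N0 * K1 ^ l := Nat.one_le_iff_ne_zero.mpr (by positivity)
      have h3 : (insert 0 C).card ≤ 2 * (N0 * K1 ^ l) := by omega
      exact_mod_cast h3
    have hcard0 : (0 : ℝ) ≤ ((insert 0 C).card : ℝ) := Nat.cast_nonneg _
    have hK2 : (K1 : ℝ) ^ 2 * (1 / 2 : ℝ) ^ t ≤ 1 / 2 := by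
      have : (2 : ℝ) * (K1 : ℝ) ^ 2 ≤ 2 ^ t := by exact_mod_cast h2t
      rw [one_div, inv_pow, ← div_eq_mul_inv, div_le_iff₀ (by positivity)]
      linarith
    have hpos : (0 : ℝ) ≤ (K1 : ℝ) ^ 2 * (1 / 2 : ℝ) ^ t := by positivity
    calc ((insert 0 C).card : ℝ) ^ 2 * (1 / 2 : ℝ) ^ (n1 + l * t + 1)
        ≤ (2 * ((N0 : ℝ) * (K1 : ℝ) ^ l)) ^ 2 * (1 / 2 : ℝ) ^ (n1 + l * t + 1) := by
          gcongr
      _ = 4 * (N0 : ℝ) ^ 2 * ((K1 : ℝ) ^ 2 * (1 / 2 : ℝ) ^ t) ^ l * (1 / 2 : ℝ) ^ (n1 + 1) := by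
          rw [mul_pow ((K1 : ℝ) ^ 2), ← pow_mul, ← pow_mul, show n1 + l * t + 1 = t * l + (n1 + 1) by ring,
            pow_add (1 / 2 : ℝ) (t * l)]
          ring
      _ ≤ 4 * (N0 : ℝ) ^ 2 * (1 / 2 : ℝ) ^ l * 1 := by
          gcongr
          exact pow_le_one₀ (by norm_num) (by norm_num)
      _ ≤ 4 * (N0 : ℝ) ^ 2 * (η / (4 * (N0 : ℝ) ^ 2)) * 1 := by
          gcongr
      _ = η := by
          have : (4 * (N0 : ℝ) ^ 2) ≠ 0 := by positivity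
          rw [mul_div_cancel₀ _ this, mul_one]

end Pool.Agent.Ord2
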