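import Pool.Agent.Ord2.Eq1

/-! Module EQ2 (section 3). Representative `z` of `δ` with `|z| = ‖δ‖`, `gg n i b • δ ↦ e(m 2^i (2^n z) θ_b)`,
`Y = m 2^i 2^n z`, `|Y| ≥ 2^i / 2^s`, `|Y| ≤ |m| 2^(2r)`; the mean over `i < r` of `2^s / 2^i` is `≤ 2^(s+1)/r`. -/

namespace Pool.Agent.Ord2

private theorem exists_rep (δ : AddCircle (1 : ℝ)) : ∃ z : ℝ, (z : AddCircle (1 : ℝ)) = δ ∧ |z| = ‖δ‖ := by
  obtain ⟨x, rfl⟩ := QuotientAddGroup.mk_surjective δ
  refine ⟨x - round x, ?_, ?_⟩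
  · have : ((x - (round x : ℝ) : ℝ) : AddCircle (1 : ℝ)) = (x : AddCircle (1 : ℝ)) - ((round x : ℝ) : AddCircle (1 : ℝ)) := by
      push_cast
      rfl
    rw [this]
    have h2 : ((round x : ℝ) : AddCircle (1 : ℝ)) = 0 := by
      rw [AddCircle.coe_eq_zero_iff]
      exact ⟨round x, by simp⟩
    rw [h2, sub_zero]
  · have := AddCircle.norm_eq (p := (1 : ℝ)) (x := x)
    rw [inv_one, one_mul, mul_one] at this
    exact this.symm

private theorem char_eq (m : ℤ) (n i b : ℕ) (hb : 2 * b ≤ n) (z : ℝ) :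
    fourier m (gg n i b • (z : AddCircle (1 : ℝ))) =
      Complex.exp (2 * Real.pi * Complex.I * (((m : ℝ) * 2 ^ i * (2 ^ n * z)) * th b : ℝ)) := by
  rw [fourier_nsmul', fourier_coe_apply]
  congr 1
  have hg := gg_eq n i b hb
  have hg' : ((gg n i b : ℕ) : ℂ) = ((2 ^ (n + i) * th b : ℝ) : ℂ) := by
    rw [← hg]; push_cast; rfl
  push_cast at hg' ⊢
  rw [hg', pow_add]
  ring

private theorem geo (r : ℕ) : ∑ i ∈ Finset.range r, (1 : ℝ) / 2 ^ i ≤ 2 := by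
  have h : ∀ r : ℕ, ∑ i ∈ Finset.range r, (1 : ℝ) / 2 ^ i = 2 - 2 / 2 ^ r := by
    intro r
    induction r with
    | zero => norm_num
    | succ r ih =>
      rw [Finset.sum_range_succ, ih, pow_succ]
      field_simp
      ring
  rw [h]
  have : (0 : ℝ) < 2 / 2 ^ r := by positivity
  linarith

theorem equi {M : ℕ} {B : ℕ → ℕ} {r0 : ℕ} (hM : 1 ≤ M) (hr0 : 1 ≤ r0)
    (h : ∀ r, r0 ≤ r → ParP M B r) : EquiP M B := by
  intro m hm s η hη
  set C : ℝ := 2 ^ (s + 1) + 9 * |(m : ℝ)| + 6 with hC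
  refine ⟨max r0 ⌈C / η⌉₊, ?_⟩
  intro r hr n hn δ hδ1 hδ2
  have hr0' : r0 ≤ r := le_trans (le_max_left _ _) hr
  have hr1 : 1 ≤ r := hr0.trans hr0'
  have hrR : (0 : ℝ) < r := by exact_mod_cast hr1
  have hP := h r hr0'
  have hPc := hP
  obtain ⟨q, p, N, _, _, _, _, _, hB1, hB2⟩ := hPc
  have hBpos : 0 < B r := by
    have : 0 < 2 ^ (M * r) := by positivity
    omega
  have hBR : (0 : ℝ) < B r := by exact_mod_cast hBpos
  obtain ⟨z, hz, hzn⟩ := exists_rep δ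
  rw [← hzn] at hδ1 hδ2
  have hbn : ∀ b, b < B r → 2 * b ≤ n := by intro b hb; omega
  have hm1 : (1 : ℝ) ≤ |(m : ℝ)| := by
    have : (1 : ℤ) ≤ |m| := Int.one_le_abs hm
    exact_mod_cast this
  have hA : 0 < (2 : ℝ) ^ n * |z| := lt_of_lt_of_le (by positivity) hδ1
  -- each inner mean
  have inner : ∀ i ∈ Finset.range r,
      ‖(∑ b ∈ Finset.range (B r), fourier m (gg n i b • δ)) / (B r : ℂ)‖
        ≤ 2 ^ s * (1 / 2 ^ i) + (9 * |(m : ℝ)| + 6) / 4 ^ r := by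
    intro i hi
    have hi' : i < r := Finset.mem_range.mp hi
    set Y : ℝ := (m : ℝ) * 2 ^ i * (2 ^ n * z) with hYd
    have hYabs : |Y| = |(m : ℝ)| * 2 ^ i * (2 ^ n * |z|) := by
      rw [hYd, abs_mul, abs_mul, abs_mul, abs_of_pos (by positivity : (0 : ℝ) < 2 ^ i),
        abs_of_pos (by positivity : (0 : ℝ) < 2 ^ n)]
    have hYlow : 2 ^ i * (1 / 2 : ℝ) ^ s ≤ |Y| := by
      rw [hYabs]
      calc (2 : ℝ) ^ i * (1 / 2 : ℝ) ^ s ≤ 2 ^ i * (2 ^ n * |z|) := by gcongr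
        _ = 1 * 2 ^ i * (2 ^ n * |z|) := by ring
        _ ≤ |(m : ℝ)| * 2 ^ i * (2 ^ n * |z|) := by gcongr
    have hYpos : 0 < |Y| := lt_of_lt_of_le (by positivity) hYlow
    have hYup : |Y| ≤ |(m : ℝ)| * 4 ^ r := by
      rw [hYabs]
      calc |(m : ℝ)| * 2 ^ i * (2 ^ n * |z|) ≤ |(m : ℝ)| * 2 ^ r * 2 ^ r := by
            have h2i : (2 : ℝ) ^ i ≤ 2 ^ r := pow_le_pow_right₀ (by norm_num) hi'.le
            gcongr
        _ = |(m : ℝ)| * 4 ^ r := by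
            rw [mul_assoc, ← mul_pow]; norm_num
    have hY0 : Y ≠ 0 := abs_pos.mp hYpos
    have hone := eq_one hP Y hY0
    have hsum : (∑ b ∈ Finset.range (B r), fourier m (gg n i b • δ)) =
        ∑ b ∈ Finset.range (B r), Complex.exp (2 * Real.pi * Complex.I * (Y * th b : ℝ)) := by
      apply Finset.sum_congr rfl
      intro b hb
      rw [← hz, char_eq m n i b (hbn b (Finset.mem_range.mp hb)) z]
    rw [hsum]
    refine hone.trans ?_
    have t1 : 1 / |Y| ≤ 2 ^ s * (1 / 2 ^ i) := by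
      calc 1 / |Y| ≤ 1 / (2 ^ i * (1 / 2 : ℝ) ^ s) := by
            apply one_div_le_one_div_of_le (by positivity) hYlow
        _ = 2 ^ s * (1 / 2 ^ i) := by
            rw [one_div_pow]; field_simp
    have t2 : (9 * |Y| + 6) / 2 ^ (4 * r) ≤ (9 * |(m : ℝ)| + 6) / 4 ^ r := by
      have e16 : (2 : ℝ) ^ (4 * r) = 4 ^ r * 4 ^ r := by
        rw [← mul_pow, pow_mul]; norm_num
      have h4 : (1 : ℝ) ≤ 4 ^ r := one_le_pow₀ (by norm_num)
      rw [e16, div_le_div_iff₀ (by positivity) (by positivity)]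
      have : 9 * |Y| + 6 ≤ (9 * |(m : ℝ)| + 6) * 4 ^ r := by nlinarith
      calc (9 * |Y| + 6) * 4 ^ r ≤ ((9 * |(m : ℝ)| + 6) * 4 ^ r) * 4 ^ r := by gcongr
        _ = (9 * |(m : ℝ)| + 6) * (4 ^ r * 4 ^ r) := by ring
    linarith
  -- the whole mean
  have hav : av n r (B r) (fourier m) δ =
      (∑ i ∈ Finset.range r, (∑ b ∈ Finset.range (B r), fourier m (gg n i b • δ)) / (B r : ℂ)) / (r : ℂ) := by
    unfold av
    rw [← Finset.sum_div, div_div, mul_comm (r : ℂ)]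
  rw [hav, norm_div, Complex.norm_natCast]
  rw [div_le_iff₀ hrR]
  have hsumle : ‖∑ i ∈ Finset.range r, (∑ b ∈ Finset.range (B r), fourier m (gg n i b • δ)) / (B r : ℂ)‖
      ≤ ∑ i ∈ Finset.range r, (2 ^ s * (1 / 2 ^ i) + (9 * |(m : ℝ)| + 6) / 4 ^ r) :=
    (norm_sum_le _ _).trans (Finset.sum_le_sum inner)
  refine hsumle.trans ?_
  rw [Finset.sum_add_distrib, ← Finset.mul_sum, Finset.sum_const, Finset.card_range, nsmul_eq_mul]
  have g1 : (2 : ℝ) ^ s * ∑ i ∈ Finset.range r, (1 : ℝ) / 2 ^ i ≤ 2 ^ (s + 1) := by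
    rw [pow_succ]
    have := geo r
    gcongr
  have g2 : (r : ℝ) * ((9 * |(m : ℝ)| + 6) / 4 ^ r) ≤ 9 * |(m : ℝ)| + 6 := by
    have hr4 : (r : ℝ) ≤ 4 ^ r := by
      have : r < 4 ^ r := Nat.lt_pow_self (by norm_num)
      exact_mod_cast this.le
    have h0 : 0 ≤ 9 * |(m : ℝ)| + 6 := by positivity
    rw [mul_div_assoc', div_le_iff₀ (by positivity)]
    nlinarith
  have g3 : C ≤ η * r := by
    have : C / η ≤ r := (Nat.le_ceil _).trans (by exact_mod_cast (le_trans (le_max_right _ _) hr))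
    rw [div_le_iff₀ hη] at this
    linarith
  linarith

end Pool.Agent.Ord2
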