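import Pool.Agent.Ord2.Defs

/-! Module FUN (section 6). `ψ(u) = clamp(infDist u C / ρ - 1)`, `χ(w) = clamp(5 - infDist w (C - C) / ρ)`. -/

open MeasureTheory

namespace Pool.Agent.Ord2

private noncomputable def diffs (C : Finset (AddCircle (1 : ℝ))) : Set (AddCircle (1 : ℝ)) :=
  {w | ∃ c ∈ C, ∃ c' ∈ C, w = c - c'}

private noncomputable def psiF (C : Finset (AddCircle (1 : ℝ))) (ρ : ℝ) : C(AddCircle (1 : ℝ), ℝ) where
  toFun u := max 0 (min 1 (Metric.infDist u (C : Set (AddCircle (1 : ℝ))) / ρ - 1))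
  continuous_toFun := by
    have := Metric.continuous_infDist_pt (C : Set (AddCircle (1 : ℝ)))
    fun_prop

private noncomputable def chiF (C : Finset (AddCircle (1 : ℝ))) (ρ : ℝ) : C(AddCircle (1 : ℝ), ℝ) where
  toFun u := max 0 (min 1 (5 - Metric.infDist u (diffs C) / ρ))
  continuous_toFun := by
    have := Metric.continuous_infDist_pt (diffs C)
    fun_prop

theorem functions (C : Finset (AddCircle (1 : ℝ))) (hC : C.Nonempty) (ρ : ℝ) (hρ : 0 < ρ) :
    ∃ ψ χ : C(AddCircle (1 : ℝ), ℝ), (∀ u, 0 ≤ ψ u ∧ ψ u ≤ 1) ∧ (∀ u, 0 ≤ χ u ∧ χ u ≤ 1) ∧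
      (∀ u v, 1 - ψ u - ψ v ≤ χ (u - v)) ∧ (∀ x, (∃ c ∈ C, ‖x - c‖ ≤ ρ) → ψ x = 0) ∧
      ∫ x, χ x ∂(volume : Measure (AddCircle (1 : ℝ))) ≤ 10 * ((C.card : ℝ) ^ 2 * ρ) := by
  have hpe : ∀ u, psiF C ρ u = max 0 (min 1 (Metric.infDist u (C : Set (AddCircle (1 : ℝ))) / ρ - 1)) :=
    fun u => rfl
  have hce : ∀ u, chiF C ρ u = max 0 (min 1 (5 - Metric.infDist u (diffs C) / ρ)) := fun u => rfl
  have hCne : (C : Set (AddCircle (1 : ℝ))).Nonempty := hC
  have hDne : (diffs C).Nonempty := by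
    obtain ⟨c, hc⟩ := hC
    exact ⟨c - c, c, hc, c, hc, rfl⟩
  have hψ : ∀ u, 0 ≤ psiF C ρ u ∧ psiF C ρ u ≤ 1 := fun u => by
    rw [hpe]; exact ⟨le_max_left _ _, max_le zero_le_one (min_le_left _ _)⟩
  have hχ : ∀ u, 0 ≤ chiF C ρ u ∧ chiF C ρ u ≤ 1 := fun u => by
    rw [hce]; exact ⟨le_max_left _ _, max_le zero_le_one (min_le_left _ _)⟩
  refine ⟨psiF C ρ, chiF C ρ, hψ, hχ, ?_, ?_, ?_⟩
  · intro u v
    have hone : ∀ w, 2 * ρ ≤ Metric.infDist w (C : Set (AddCircle (1 : ℝ))) → psiF C ρ w = 1 := by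
      intro w hw
      rw [hpe]
      have : (1 : ℝ) ≤ Metric.infDist w (C : Set (AddCircle (1 : ℝ))) / ρ - 1 := by
        rw [le_sub_iff_add_le, le_div_iff₀ hρ]; linarith
      rw [min_eq_left this]; norm_num
    by_cases hu : 2 * ρ ≤ Metric.infDist u (C : Set (AddCircle (1 : ℝ)))
    · have := hone u hu
      have h1 := (hψ v).1
      have h2 := (hχ (u - v)).1
      linarith
    by_cases hv : 2 * ρ ≤ Metric.infDist v (C : Set (AddCircle (1 : ℝ)))
    · have := hone v hv
      have h1 := (hψ u).1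
      have h2 := (hχ (u - v)).1
      linarith
    push Not at hu hv
    obtain ⟨c, hc, hcu⟩ := (Metric.infDist_lt_iff hCne).mp hu
    obtain ⟨c', hc', hcv⟩ := (Metric.infDist_lt_iff hCne).mp hv
    have h4 : Metric.infDist (u - v) (diffs C) < 4 * ρ := by
      refine lt_of_le_of_lt (Metric.infDist_le_dist_of_mem (y := c - c') ⟨c, hc, c', hc', rfl⟩) ?_
      rw [dist_eq_norm] at hcu hcv ⊢
      have : u - v - (c - c') = (u - c) - (v - c') := by abel
      rw [this]
      have := norm_sub_le (u - c) (v - c')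
      linarith
    have h5 : (1 : ℝ) ≤ 5 - Metric.infDist (u - v) (diffs C) / ρ := by
      have : Metric.infDist (u - v) (diffs C) / ρ ≤ 4 := by
        rw [div_le_iff₀ hρ]; linarith
      linarith
    have h6 : chiF C ρ (u - v) = 1 := by
      rw [hce, min_eq_left h5]; norm_num
    have h1 := (hψ u).1
    have h2 := (hψ v).1
    linarith
  · rintro x ⟨c, hc, hcx⟩
    rw [hpe]
    have h1 : Metric.infDist x (C : Set (AddCircle (1 : ℝ))) ≤ ρ :=
      (Metric.infDist_le_dist_of_mem hc).trans (by rw [dist_eq_norm]; exact hcx)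
    have h2 : Metric.infDist x (C : Set (AddCircle (1 : ℝ))) / ρ - 1 ≤ 0 := by
      rw [sub_nonpos, div_le_one hρ]; exact h1
    rw [max_eq_left]
    exact (min_le_right _ _).trans h2
  · have hle : ∀ x, chiF C ρ x ≤ ∑ p ∈ C ×ˢ C,
        Set.indicator (Metric.closedBall (p.1 - p.2) (5 * ρ)) (fun _ => (1 : ℝ)) x := by
      intro x
      have hnn : ∀ p ∈ C ×ˢ C,
          0 ≤ Set.indicator (Metric.closedBall (p.1 - p.2) (5 * ρ)) (fun _ => (1 : ℝ)) x :=
        fun p _ => Set.indicator_nonneg (fun _ _ => zero_le_one) _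
      by_cases hx : Metric.infDist x (diffs C) < 5 * ρ
      · obtain ⟨w, ⟨c, hc, c', hc', rfl⟩, hw⟩ := (Metric.infDist_lt_iff hDne).mp hx
        refine (hχ x).2.trans ?_
        refine le_trans ?_ (Finset.single_le_sum hnn (Finset.mk_mem_product hc hc'))
        rw [Set.indicator_of_mem]
        exact Metric.mem_closedBall.mpr hw.le
      · push Not at hx
        have : chiF C ρ x = 0 := by
          rw [hce]
          apply max_eq_left
          refine (min_le_right _ _).trans ?_
          have : 5 ≤ Metric.infDist x (diffs C) / ρ := by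
            rw [le_div_iff₀ hρ]; exact hx
          linarith
        rw [this]
        exact Finset.sum_nonneg hnn
    have hint : ∀ p ∈ C ×ˢ C, Integrable (Set.indicator (Metric.closedBall (p.1 - p.2) (5 * ρ))
        (fun _ => (1 : ℝ))) (volume : Measure (AddCircle (1 : ℝ))) := fun p _ =>
      (integrable_const (1 : ℝ)).indicator Metric.isClosed_closedBall.measurableSet
    have h1 : ∫ x, chiF C ρ x ∂(volume : Measure (AddCircle (1 : ℝ))) ≤
        ∫ x, ∑ p ∈ C ×ˢ C, Set.indicator (Metric.closedBall (p.1 - p.2) (5 * ρ))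
          (fun _ => (1 : ℝ)) x ∂(volume : Measure (AddCircle (1 : ℝ))) := by
      apply integral_mono
      · exact (chiF C ρ).continuous.integrable_of_hasCompactSupport
          (HasCompactSupport.of_compactSpace _)
      · exact integrable_finsetSum _ hint
      · exact hle
    refine h1.trans ?_
    rw [integral_finsetSum _ hint]
    have h2 : ∀ p ∈ C ×ˢ C, ∫ x, Set.indicator (Metric.closedBall (p.1 - p.2) (5 * ρ))
        (fun _ => (1 : ℝ)) x ∂(volume : Measure (AddCircle (1 : ℝ))) ≤ 10 * ρ := by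
      intro p _
      rw [integral_indicator Metric.isClosed_closedBall.measurableSet, setIntegral_const,
        smul_eq_mul, mul_one, Measure.real, AddCircle.volume_closedBall,
        ENNReal.toReal_ofReal (le_min zero_le_one (by positivity))]
      refine (min_le_right _ _).trans ?_
      linarith
    refine (Finset.sum_le_sum h2).trans ?_
    rw [Finset.sum_const, Finset.card_product, nsmul_eq_mul]
    push_cast
    apply le_of_eq
    ring

end Pool.Agent.Ord2
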