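import Pool.Agent.Ord2.Net
import Pool.Agent.Ord2.Arith

/-! Module KPT (section 5). `K = ⌊8/|ρ|²⌋`; use `av_sub`: `∑_{y,y'} av(fourier m)(y - y') = mean |∑_y e(m g y)|²`
(note `fourier m (g (y - y')) = fourier m (g y) * conj (fourier m (g y'))`), Cauchy-Schwarz for the mean. -/

namespace Pool.Agent.Ord2

private theorem fourier_sub_conj (m : ℤ) (g : ℕ) (y y' : AddCircle (1 : ℝ)) :
    (fourier m (g • (y - y')) : ℂ) =
      fourier m (g • y) * (starRingEnd ℂ) (fourier m (g • y')) := by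
  rw [smul_sub, ← fourier_neg, sub_eq_add_neg]
  simp only [fourier_apply]
  rw [smul_add, AddCircle.toCircle_add, smul_neg, neg_smul]
  push_cast
  rfl

private theorem av_eq (n r B : ℕ) (f : AddCircle (1 : ℝ) → ℂ) (x : AddCircle (1 : ℝ)) :
    av n r B f x = (∑ p ∈ Finset.range r ×ˢ Finset.range B, f (gg n p.1 p.2 • x)) /
      ((r : ℂ) * (B : ℂ)) := by
  unfold av
  rw [Finset.sum_product]

theorem mean_sq (m : ℤ) (n r B : ℕ) (hr : 0 < r) (hB : 0 < B) (F : Finset (AddCircle (1 : ℝ))) :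
    ‖∑ y ∈ F, av n r B (fourier m) y‖ ^ 2 ≤
      (∑ y ∈ F, ∑ y' ∈ F, av n r B (fourier m) (y - y')).re := by
  have hr' : (0 : ℝ) < r := by exact_mod_cast hr
  have hB' : (0 : ℝ) < B := by exact_mod_cast hB
  have hrB : (0 : ℝ) < (r : ℝ) * B := by positivity
  set P := Finset.range r ×ˢ Finset.range B with hP
  set S : ℕ × ℕ → ℂ := fun p => ∑ y ∈ F, (fourier m (gg n p.1 p.2 • y) : ℂ) with hS
  have e1 : ∑ y ∈ F, av n r B (fourier m) y = (∑ p ∈ P, S p) / ((r : ℂ) * (B : ℂ)) := by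
    simp_rw [av_eq]
    rw [← Finset.sum_div, Finset.sum_comm]
  have e2 : ∑ y ∈ F, ∑ y' ∈ F, av n r B (fourier m) (y - y') =
      (∑ p ∈ P, ((‖S p‖ ^ 2 : ℝ) : ℂ)) / ((r : ℂ) * (B : ℂ)) := by
    simp_rw [av_eq, fourier_sub_conj]
    rw [eq_div_iff (by exact_mod_cast hrB.ne')]
    simp_rw [← Finset.sum_div]
    rw [div_mul_cancel₀ _ (by exact_mod_cast hrB.ne')]
    have : ∀ y ∈ F, ∑ y' ∈ F, ∑ p ∈ P, (fourier m (gg n p.1 p.2 • y) : ℂ) *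
        (starRingEnd ℂ) (fourier m (gg n p.1 p.2 • y')) =
        ∑ p ∈ P, ∑ y' ∈ F, (fourier m (gg n p.1 p.2 • y) : ℂ) *
        (starRingEnd ℂ) (fourier m (gg n p.1 p.2 • y')) := fun y _ => Finset.sum_comm
    rw [Finset.sum_congr rfl this, Finset.sum_comm]
    refine Finset.sum_congr rfl fun p _ => ?_
    have : ((‖S p‖ ^ 2 : ℝ) : ℂ) = S p * (starRingEnd ℂ) (S p) := by
      rw [Complex.mul_conj, Complex.normSq_eq_norm_sq]
    rw [this, hS]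
    simp only
    rw [map_sum, Finset.sum_mul_sum]
  rw [e1, e2, norm_div, div_pow]
  have e3 : ‖(r : ℂ) * (B : ℂ)‖ = (r : ℝ) * B := by
    rw [norm_mul, Complex.norm_natCast, Complex.norm_natCast]
  rw [e3]
  have e4 : ((∑ p ∈ P, ((‖S p‖ ^ 2 : ℝ) : ℂ)) / ((r : ℂ) * (B : ℂ))).re =
      (∑ p ∈ P, ‖S p‖ ^ 2) / ((r : ℝ) * B) := by
    rw [← Complex.ofReal_sum, ← Complex.ofReal_natCast, ← Complex.ofReal_natCast,
      ← Complex.ofReal_mul, ← Complex.ofReal_div, Complex.ofReal_re]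
  rw [e4, div_le_div_iff₀ (by positivity) hrB]
  have hcard : (P.card : ℝ) = (r : ℝ) * B := by
    rw [hP, Finset.card_product, Finset.card_range, Finset.card_range]; push_cast; ring
  have hcs : ‖∑ p ∈ P, S p‖ ^ 2 ≤ ((r : ℝ) * B) * ∑ p ∈ P, ‖S p‖ ^ 2 := by
    rw [← hcard]
    calc ‖∑ p ∈ P, S p‖ ^ 2 ≤ (∑ p ∈ P, ‖S p‖) ^ 2 := by
          gcongr; exact norm_sum_le _ _
      _ ≤ P.card * ∑ p ∈ P, ‖S p‖ ^ 2 := sq_sum_le_card_mul_sum_sq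
  calc ‖∑ p ∈ P, S p‖ ^ 2 * ((r : ℝ) * B)
      ≤ (((r : ℝ) * B) * ∑ p ∈ P, ‖S p‖ ^ 2) * ((r : ℝ) * B) := by gcongr
    _ = (∑ p ∈ P, ‖S p‖ ^ 2) * ((r : ℝ) * B) ^ 2 := by ring

private theorem av_zero (m : ℤ) (n r B : ℕ) (hr : 0 < r) (hB : 0 < B) :
    av n r B (fourier m) 0 = 1 := by
  have hr' : (0 : ℝ) < r := by exact_mod_cast hr
  have hB' : (0 : ℝ) < B := by exact_mod_cast hB
  have hrB : (0 : ℝ) < (r : ℝ) * B := by positivity
  rw [av_eq, div_eq_one_iff_eq (by exact_mod_cast hrB.ne')]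
  have : ∀ p ∈ Finset.range r ×ˢ Finset.range B, (fourier m (gg n p.1 p.2 • (0 : AddCircle (1 : ℝ))) : ℂ) = 1 := by
    intro p _
    rw [smul_zero, fourier_apply, smul_zero, AddCircle.toCircle_zero]
    rfl
  rw [Finset.sum_congr rfl this, Finset.sum_const, Finset.card_product, Finset.card_range,
    Finset.card_range, nsmul_eq_mul, mul_one]
  push_cast
  ring

theorem kpoint (M : ℕ) (hM : 1 ≤ M) (B : ℕ → ℕ) (hS : SizeP M B) (hE : EquiP M B) (m : ℤ) (hm : m ≠ 0)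
    (ρ : ℂ) (hρ : ρ ≠ 0) (X : Set (AddCircle (1 : ℝ))) (r0 : ℕ)
    (hX : ∀ x ∈ X, ∀ r, r0 ≤ r → ∀ j, j < JJ M r →
      ‖av (nn M r j) r (B r) (fourier m) x - ρ‖ ≤ ‖ρ‖ / 2) :
    ∃ K : ℕ, ∀ s : ℕ, ∃ n1 : ℕ, ∀ n, n1 ≤ n → ∀ F : Finset (AddCircle (1 : ℝ)), ↑F ⊆ X →
      (∀ x ∈ F, ∀ y ∈ F, x ≠ y → (1 / 2 : ℝ) ^ (n + s) ≤ ‖x - y‖ ∧ ‖x - y‖ ≤ (1 / 2 : ℝ) ^ n) →
      F.card ≤ K := by
  classical
  have hρ0 : 0 < ‖ρ‖ := norm_pos_iff.mpr hρ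
  obtain ⟨rS, _, hrS⟩ := hS
  refine ⟨⌊8 / ‖ρ‖ ^ 2⌋₊, fun s => ?_⟩
  obtain ⟨r1, hr1⟩ := hE m hm s (‖ρ‖ ^ 2 / 8) (by positivity)
  obtain ⟨n1, hn1⟩ := net M hM (max (max r0 r1) rS)
  refine ⟨n1, fun n hn F hFX hFd => ?_⟩
  obtain ⟨r, hr, hr1', j, hj, hnj1, hnj2⟩ := hn1 n hn
  have hrr0 : r0 ≤ r := le_trans (le_trans (le_max_left _ _) (le_max_left _ _)) hr
  have hrr1 : r1 ≤ r := le_trans (le_trans (le_max_right _ _) (le_max_left _ _)) hr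
  have hrrS : rS ≤ r := le_trans (le_max_right _ _) hr
  have hB0 : 0 < B r := by
    have := (hrS r hrrS).1
    have h5 : 0 < 2 ^ (M * r) := by positivity
    omega
  set nj := nn M r j with hnj
  have hoff : ∀ x ∈ F, ∀ y ∈ F, x ≠ y → ‖av nj r (B r) (fourier m) (x - y)‖ ≤ ‖ρ‖ ^ 2 / 8 := by
    intro x hx y hy hxy
    obtain ⟨hd1, hd2⟩ := hFd x hx y hy hxy
    obtain ⟨e1, e2⟩ := net_dist hnj1 hnj2 hd1 hd2
    exact hr1 r hrr1 nj (le_nn M r j) (x - y) e1 e2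
  have hms := mean_sq m nj r (B r) hr1' hB0 F
  -- upper bound
  have hup : (∑ y ∈ F, ∑ y' ∈ F, av nj r (B r) (fourier m) (y - y')).re ≤
      F.card + (F.card : ℝ) ^ 2 * (‖ρ‖ ^ 2 / 8) := by
    have h1 : ∀ y ∈ F, ∀ y' ∈ F, ‖av nj r (B r) (fourier m) (y - y')‖ ≤
        (if y = y' then 1 else 0) + ‖ρ‖ ^ 2 / 8 := by
      intro y hy y' hy'
      by_cases h : y = y'
      · subst h
        rw [sub_self, av_zero m nj r (B r) hr1' hB0, if_pos rfl, norm_one]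
        have : 0 ≤ ‖ρ‖ ^ 2 / 8 := by positivity
        linarith
      · rw [if_neg h, zero_add]
        exact hoff y hy y' hy' h
    calc (∑ y ∈ F, ∑ y' ∈ F, av nj r (B r) (fourier m) (y - y')).re
        ≤ ‖∑ y ∈ F, ∑ y' ∈ F, av nj r (B r) (fourier m) (y - y')‖ := Complex.re_le_norm _
      _ ≤ ∑ y ∈ F, ∑ y' ∈ F, ‖av nj r (B r) (fourier m) (y - y')‖ :=
          (norm_sum_le _ _).trans (Finset.sum_le_sum fun y _ => norm_sum_le _ _)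
      _ ≤ ∑ y ∈ F, ∑ y' ∈ F, ((if y = y' then 1 else 0) + ‖ρ‖ ^ 2 / 8) :=
          Finset.sum_le_sum fun y hy => Finset.sum_le_sum fun y' hy' => h1 y hy y' hy'
      _ = F.card + (F.card : ℝ) ^ 2 * (‖ρ‖ ^ 2 / 8) := by
          simp only [Finset.sum_add_distrib, Finset.sum_ite_eq, Finset.sum_const, nsmul_eq_mul]
          rw [Finset.sum_congr rfl (fun y hy => if_pos hy), Finset.sum_const, nsmul_eq_mul]
          ring
  -- lower bound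
  have hlow : (F.card : ℝ) * (‖ρ‖ / 2) ≤ ‖∑ y ∈ F, av nj r (B r) (fourier m) y‖ := by
    have h1 : ‖∑ y ∈ F, (av nj r (B r) (fourier m) y - ρ)‖ ≤ F.card * (‖ρ‖ / 2) := by
      refine (norm_sum_le _ _).trans ?_
      refine (Finset.sum_le_sum fun y hy => hX y (hFX hy) r hrr0 j hj).trans ?_
      rw [Finset.sum_const, nsmul_eq_mul]
    have h2 : ‖(F.card : ℂ) * ρ‖ = F.card * ‖ρ‖ := by
      rw [norm_mul, Complex.norm_natCast]
    have h3 : (F.card : ℂ) * ρ = ∑ y ∈ F, av nj r (B r) (fourier m) y -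
        ∑ y ∈ F, (av nj r (B r) (fourier m) y - ρ) := by
      rw [Finset.sum_sub_distrib, Finset.sum_const, nsmul_eq_mul]; ring
    have h4 : (F.card : ℝ) * ‖ρ‖ ≤ ‖∑ y ∈ F, av nj r (B r) (fourier m) y‖ + F.card * (‖ρ‖ / 2) := by
      rw [← h2, h3]
      exact (norm_sub_le _ _).trans (by gcongr)
    linarith
  have hmain : ((F.card : ℝ) * (‖ρ‖ / 2)) ^ 2 ≤ F.card + (F.card : ℝ) ^ 2 * (‖ρ‖ ^ 2 / 8) :=
    (pow_le_pow_left₀ (by positivity) hlow 2).trans (hms.trans hup)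
  apply Nat.le_floor
  rw [le_div_iff₀ (by positivity)]
  rcases Nat.eq_zero_or_pos F.card with h0 | hpos
  · rw [h0]; norm_num
  · have hc : (0 : ℝ) < F.card := by exact_mod_cast hpos
    have h1 : (F.card : ℝ) * ((F.card : ℝ) * ‖ρ‖ ^ 2) ≤ F.card * 8 := by nlinarith
    exact le_of_mul_le_mul_left h1 hc

end Pool.Agent.Ord2
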