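import Pool.Agent.Ord2.Arith

/-! Module MEAS. Measurability and continuity of measures: if almost every point satisfies
`∃ r1, ∀ r ≥ r1, ∀ j < JJ M r, P r j x` with `P r j` closed, then for every `t < 1` one `r1` works on a closed set of
measure `> t`. -/

open MeasureTheory
open scoped ENNReal

namespace Pool.Agent.Ord2

theorem continuous_av (n r B : ℕ) (m : ℤ) : Continuous fun x => av n r B (fourier m) x := by
  unfold av
  refine Continuous.div_const ?_ _
  refine continuous_finsetSum _ fun i _ => continuous_finsetSum _ fun b _ => ?_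
  exact (fourier m).continuous.comp (continuous_const_smul (gg n i b))

theorem continuous_avR (n r B : ℕ) (f : C(AddCircle (1 : ℝ), ℝ)) : Continuous fun x => avR n r B f x := by
  unfold avR
  refine Continuous.div_const ?_ _
  refine continuous_finsetSum _ fun i _ => continuous_finsetSum _ fun b _ => ?_
  exact f.continuous.comp (continuous_const_smul (gg n i b))

theorem exists_uniform (μ : Measure (AddCircle (1 : ℝ))) [IsProbabilityMeasure μ] (M : ℕ)
    (P : ℕ → ℕ → Set (AddCircle (1 : ℝ))) (hP : ∀ r j, IsClosed (P r j))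
    (h : ∀ᵐ x ∂μ, ∃ r1 : ℕ, ∀ r, r1 ≤ r → ∀ j, j < JJ M r → x ∈ P r j) (t : ℝ≥0∞) (ht : t < 1) :
    ∃ X : Set (AddCircle (1 : ℝ)), IsClosed X ∧ t < μ X ∧
      ∃ r1 : ℕ, ∀ x ∈ X, ∀ r, r1 ≤ r → ∀ j, j < JJ M r → x ∈ P r j := by
  let X : ℕ → Set (AddCircle (1 : ℝ)) := fun r1 =>
    ⋂ r, ⋂ (_ : r1 ≤ r), ⋂ j, ⋂ (_ : j < JJ M r), P r j
  have hX : ∀ r1 x, x ∈ X r1 ↔ ∀ r, r1 ≤ r → ∀ j, j < JJ M r → x ∈ P r j := by
    intro r1 x
    simp only [X, Set.mem_iInter]
  have hc : ∀ r1, IsClosed (X r1) := fun r1 =>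
    isClosed_iInter fun r => isClosed_iInter fun _ => isClosed_iInter fun j =>
      isClosed_iInter fun _ => hP r j
  have hm : Monotone X := by
    intro a b hab x hx
    rw [hX] at hx ⊢
    exact fun r hr j hj => hx r (le_trans hab hr) j hj
  have hu : μ (⋃ r1, X r1) = 1 := by
    have h1 : ∀ᵐ x ∂μ, x ∈ ⋃ r1, X r1 := by
      filter_upwards [h] with x hx
      obtain ⟨r1, hr1⟩ := hx
      rw [Set.mem_iUnion]
      exact ⟨r1, (hX r1 x).2 hr1⟩
    rw [← prob_compl_eq_zero_iff (MeasurableSet.iUnion fun r1 => (hc r1).measurableSet)]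
    exact h1
  have ht' := tendsto_measure_iUnion_atTop (μ := μ) hm
  rw [hu] at ht'
  obtain ⟨r1, hr1⟩ := (ht'.eventually (lt_mem_nhds ht)).exists
  exact ⟨X r1, hc r1, hr1, r1, fun x hx => (hX r1 x).1 hx⟩

/-- a set of positive measure contains two different points at arbitrarily small distance -/
theorem exists_close (μ : Measure (AddCircle (1 : ℝ))) [IsProbabilityMeasure μ] (hna : ∀ x, μ {x} = 0)
    (X : Set (AddCircle (1 : ℝ))) (hX : 0 < μ X) (n0 : ℕ) :
    ∃ x ∈ X, ∃ y ∈ X, ∃ n, n0 ≤ n ∧ (1 / 2 : ℝ) ^ (n + 1) ≤ ‖x - y‖ ∧ ‖x - y‖ ≤ (1 / 2 : ℝ) ^ n := by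
  have hε : (0 : ℝ) < (1 / 2 : ℝ) ^ n0 := by positivity
  obtain ⟨t, -, htf, hcov⟩ := (isCompact_univ (X := AddCircle (1 : ℝ))).finite_cover_balls
    (half_pos hε)
  have hex : ∃ x ∈ X, ∃ y ∈ X, x ≠ y ∧ dist x y < (1 / 2 : ℝ) ^ n0 := by
    by_contra hcon
    push Not at hcon
    have : NullSingletonClass μ := ⟨hna⟩
    have h0 : μ (⋃ c ∈ t, X ∩ Metric.ball c ((1 / 2 : ℝ) ^ n0 / 2)) = 0 := by
      rw [measure_biUnion_null_iff htf.countable]
      intro c _
      refine Set.Subsingleton.measure_zero ?_ μ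
      intro x hx y hy
      by_contra hxy
      have h1 := hcon x hx.1 y hy.1 hxy
      have h2 := Metric.mem_ball.1 hx.2
      have h3 := Metric.mem_ball.1 hy.2
      have h4 := dist_triangle_right x y c
      linarith
    have h1 : X ⊆ ⋃ c ∈ t, X ∩ Metric.ball c ((1 / 2 : ℝ) ^ n0 / 2) := by
      intro x hx
      have h2 := hcov (Set.mem_univ x)
      simp only [Set.mem_iUnion] at h2 ⊢
      obtain ⟨c, hc, hxc⟩ := h2
      exact ⟨c, hc, hx, hxc⟩
    have h2 := measure_mono_null h1 h0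
    exact absurd h2 hX.ne'
  obtain ⟨x, hx, y, hy, hxy, hd⟩ := hex
  have hpos : 0 < dist x y := dist_pos.2 hxy
  have hle1 : dist x y ≤ 1 := le_trans hd.le (pow_le_one₀ (by norm_num) (by norm_num))
  obtain ⟨n, hn1, hn2⟩ := exists_nat_pow_near_of_lt_one hpos hle1
    (by norm_num : (0 : ℝ) < 1 / 2) (by norm_num : (1 / 2 : ℝ) < 1)
  refine ⟨x, hx, y, hy, n, ?_, ?_, ?_⟩
  · have h3 : (1 / 2 : ℝ) ^ (n + 1) < (1 / 2 : ℝ) ^ n0 := lt_trans hn1 hd
    have h4 := (pow_lt_pow_iff_right_of_lt_one₀ (by norm_num : (0 : ℝ) < 1 / 2)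
      (by norm_num : (1 / 2 : ℝ) < 1)).1 h3
    omega
  · rw [← dist_eq_norm]; exact hn1.le
  · rw [← dist_eq_norm]; exact hn2

end Pool.Agent.Ord2
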