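import Pool.Agent.Ord2.Weyl

/-! Module WEYL2. Applications of `weyl`: index types `ℕ × ℕ` (r, j) with the filter generated by
`{r ≥ r1, j < JJ M r}` and `(r, n, δ)` with `{r ≥ r1, 2^(Mr) ≤ n, the bounds for δ}`; `avR` of `f` is the real part of
`av` of the complexification. For `m = 0` the average is 1 (`0 < r`, `0 < B r` for large `r` by SizeP). -/

open MeasureTheory Filter Topology

namespace Pool.Agent.Ord2

/-- the average as a linear functional -/
private noncomputable def avL (n r B : ℕ) (x : AddCircle (1 : ℝ)) : C(AddCircle (1 : ℝ), ℂ) →ₗ[ℂ] ℂ where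
  toFun f := av n r B f x
  map_add' f g := by
    simp only [av, ContinuousMap.add_apply, Finset.sum_add_distrib, add_div]
  map_smul' c f := by
    simp only [av, ContinuousMap.smul_apply, smul_eq_mul, ← Finset.mul_sum, RingHom.id_apply, mul_div_assoc]

private theorem avL_norm (n r B : ℕ) (x : AddCircle (1 : ℝ)) (f : C(AddCircle (1 : ℝ), ℂ)) :
    ‖avL n r B x f‖ ≤ ‖f‖ := by
  change ‖av n r B f x‖ ≤ ‖f‖
  unfold av
  have h1 : ‖∑ i ∈ Finset.range r, ∑ b ∈ Finset.range B, f (gg n i b • x)‖ ≤ (r : ℝ) * (B : ℝ) * ‖f‖ := by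
    calc _ ≤ ∑ i ∈ Finset.range r, ‖∑ b ∈ Finset.range B, f (gg n i b • x)‖ := norm_sum_le _ _
      _ ≤ ∑ i ∈ Finset.range r, (B : ℝ) * ‖f‖ := by
          refine Finset.sum_le_sum fun i _ => ?_
          calc _ ≤ ∑ b ∈ Finset.range B, ‖f (gg n i b • x)‖ := norm_sum_le _ _
            _ ≤ ∑ b ∈ Finset.range B, ‖f‖ := Finset.sum_le_sum fun b _ => f.norm_coe_le_norm _
            _ = _ := by rw [Finset.sum_const, Finset.card_range, nsmul_eq_mul]
      _ = _ := by rw [Finset.sum_const, Finset.card_range, nsmul_eq_mul]; ring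
  rw [norm_div, norm_mul, Complex.norm_natCast, Complex.norm_natCast]
  rcases eq_or_lt_of_le (show (0 : ℝ) ≤ (r : ℝ) * (B : ℝ) by positivity) with h0 | h0
  · rw [← h0, div_zero]; exact norm_nonneg _
  · rw [div_le_iff₀ h0]
    linarith

/-- the integral as a linear functional -/
private noncomputable def inL (μ : Measure (AddCircle (1 : ℝ))) [IsProbabilityMeasure μ] :
    C(AddCircle (1 : ℝ), ℂ) →ₗ[ℂ] ℂ where
  toFun f := ∫ u, f u ∂μ
  map_add' f g := by
    simp only [ContinuousMap.add_apply]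
    exact integral_add (f.continuous.integrable_of_hasCompactSupport
      (HasCompactSupport.of_compactSpace _)) (g.continuous.integrable_of_hasCompactSupport
      (HasCompactSupport.of_compactSpace _))
  map_smul' c f := by
    simp only [ContinuousMap.smul_apply, smul_eq_mul, RingHom.id_apply]
    exact integral_const_mul _ _

private theorem inL_norm (μ : Measure (AddCircle (1 : ℝ))) [IsProbabilityMeasure μ]
    (f : C(AddCircle (1 : ℝ), ℂ)) : ‖inL μ f‖ ≤ ‖f‖ := by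
  change ‖∫ u, f u ∂μ‖ ≤ ‖f‖
  have h := norm_integral_le_of_norm_le_const (μ := μ) (f := fun u => f u) (C := ‖f‖)
    (Eventually.of_forall fun u => f.norm_coe_le_norm u)
  simpa using h

/-- complexification -/
private noncomputable def cpl (f : C(AddCircle (1 : ℝ), ℝ)) : C(AddCircle (1 : ℝ), ℂ) :=
  ⟨fun u => (f u : ℂ), Complex.continuous_ofReal.comp f.continuous⟩

private theorem cpl_av (n r B : ℕ) (x : AddCircle (1 : ℝ)) (f : C(AddCircle (1 : ℝ), ℝ)) :
    avL n r B x (cpl f) = ((avR n r B f x : ℝ) : ℂ) := by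
  change av n r B (fun u => (f u : ℂ)) x = _
  unfold av avR
  push_cast
  rfl

private theorem cpl_in (μ : Measure (AddCircle (1 : ℝ))) [IsProbabilityMeasure μ]
    (f : C(AddCircle (1 : ℝ), ℝ)) : inL μ (cpl f) = ((∫ u, f u ∂μ : ℝ) : ℂ) := by
  change ∫ u, ((f u : ℝ) : ℂ) ∂μ = _
  exact integral_ofReal

theorem generic_cont (M : ℕ) (B : ℕ → ℕ) (hS : SizeP M B) (μ : Measure (AddCircle (1 : ℝ)))
    [IsProbabilityMeasure μ] (x : AddCircle (1 : ℝ)) (hx : Generic M B μ x)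
    (f : C(AddCircle (1 : ℝ), ℝ)) (ε : ℝ) (hε : 0 < ε) :
    ∃ r1 : ℕ, ∀ r, r1 ≤ r → ∀ j, j < JJ M r →
      |avR (nn M r j) r (B r) f x - ∫ u, f u ∂μ| ≤ ε := by
  let l : Filter (ℕ × ℕ) := comap Prod.fst atTop ⊓ 𝓟 {p | p.2 < JJ M p.1}
  have hl : ∀ Q : ℕ × ℕ → Prop, (∀ᶠ p in l, Q p) ↔
      ∃ r1 : ℕ, ∀ r, r1 ≤ r → ∀ j, j < JJ M r → Q (r, j) := by
    intro Q
    simp only [l, eventually_inf_principal, eventually_comap, eventually_atTop]
    constructor
    · rintro ⟨a, ha⟩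
      exact ⟨a, fun r hr j hj => ha r hr (r, j) rfl hj⟩
    · rintro ⟨a, ha⟩
      refine ⟨a, fun r hr p hp hj => ?_⟩
      obtain ⟨p1, p2⟩ := p
      simp only at hp
      subst hp
      exact ha p1 hr p2 hj
  have h := weyl l (fun p => avL (nn M p.1 p.2) p.1 (B p.1) x) (inL μ)
    (fun p g => avL_norm _ _ _ _ g) (inL_norm μ) (fun m => by
      rw [Metric.tendsto_nhds]
      intro η hη
      rw [hl]
      obtain ⟨r1, hr1⟩ := hx m (η / 2) (half_pos hη)
      refine ⟨r1, fun r hr j hj => ?_⟩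
      have := hr1 r hr j hj
      rw [dist_eq_norm]
      refine lt_of_le_of_lt this (half_lt_self hη)) (cpl f)
  rw [Metric.tendsto_nhds] at h
  obtain ⟨r1, hr1⟩ := (hl _).1 (h ε hε)
  refine ⟨r1, fun r hr j hj => ?_⟩
  have h2 := hr1 r hr j hj
  simp only [cpl_av, cpl_in] at h2
  rw [dist_eq_norm, ← Complex.ofReal_sub, Complex.norm_real, Real.norm_eq_abs] at h2
  exact h2.le

private theorem vol_prob : IsProbabilityMeasure (volume : Measure (AddCircle (1 : ℝ))) :=
  ⟨by rw [AddCircle.measure_univ]; simp⟩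

private theorem int_fourier (m : ℤ) (hm : m ≠ 0) :
    ∫ u, fourier m u ∂(volume : Measure (AddCircle (1 : ℝ))) = 0 :=
  integral_eq_zero_of_add_right_eq_neg (μ := (volume : Measure (AddCircle (1 : ℝ))))
    (fourier_add_half_inv_index hm one_pos)

theorem equi_cont (M : ℕ) (B : ℕ → ℕ) (hS : SizeP M B) (hE : EquiP M B)
    (f : C(AddCircle (1 : ℝ), ℝ)) (s : ℕ) (ε : ℝ) (hε : 0 < ε) :
    ∃ r1 : ℕ, ∀ r, r1 ≤ r → ∀ n, 2 ^ (M * r) ≤ n → ∀ δ : AddCircle (1 : ℝ),
      (1 / 2 : ℝ) ^ s ≤ 2 ^ n * ‖δ‖ → 2 ^ n * ‖δ‖ ≤ 2 ^ r →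
        |avR n r (B r) f δ - ∫ u, f u ∂(volume : Measure (AddCircle (1 : ℝ)))| ≤ ε := by
  have _ := vol_prob
  let W : Set (ℕ × ℕ × AddCircle (1 : ℝ)) := {p | 2 ^ (M * p.1) ≤ p.2.1 ∧
    (1 / 2 : ℝ) ^ s ≤ 2 ^ p.2.1 * ‖p.2.2‖ ∧ 2 ^ p.2.1 * ‖p.2.2‖ ≤ 2 ^ p.1}
  let l : Filter (ℕ × ℕ × AddCircle (1 : ℝ)) := comap Prod.fst atTop ⊓ 𝓟 W
  have hl : ∀ Q : ℕ × ℕ × AddCircle (1 : ℝ) → Prop, (∀ᶠ p in l, Q p) ↔
      ∃ r1 : ℕ, ∀ r, r1 ≤ r → ∀ n, 2 ^ (M * r) ≤ n → ∀ δ : AddCircle (1 : ℝ),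
      (1 / 2 : ℝ) ^ s ≤ 2 ^ n * ‖δ‖ → 2 ^ n * ‖δ‖ ≤ 2 ^ r → Q (r, n, δ) := by
    intro Q
    simp only [l, eventually_inf_principal, eventually_comap, eventually_atTop]
    constructor
    · rintro ⟨a, ha⟩
      exact ⟨a, fun r hr n hn δ h1 h2 => ha r hr (r, n, δ) rfl ⟨hn, h1, h2⟩⟩
    · rintro ⟨a, ha⟩
      refine ⟨a, fun r hr p hp hj => ?_⟩
      obtain ⟨p1, p2, p3⟩ := p
      simp only at hp
      subst hp
      exact ha p1 hr p2 hj.1 p3 hj.2.1 hj.2.2
  have h := weyl l (fun p => avL p.2.1 p.1 (B p.1) p.2.2)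
    (inL (volume : Measure (AddCircle (1 : ℝ))))
    (fun p g => avL_norm _ _ _ _ g) (inL_norm _) (fun m => by
      rw [Metric.tendsto_nhds]
      intro η hη
      rw [hl]
      by_cases hm : m = 0
      · subst hm
        obtain ⟨r0, hr0, hB⟩ := hS
        refine ⟨r0, fun r hr n hn δ h1 h2 => ?_⟩
        have hr' : (r : ℂ) ≠ 0 := by
          have : r ≠ 0 := by omega
          exact_mod_cast this
        have hB' : (B r : ℂ) ≠ 0 := by
          have h3 := (hB r hr).1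
          have h4 : 0 < 2 ^ (M * r) := by positivity
          have : B r ≠ 0 := by omega
          exact_mod_cast this
        have e1 : avL n r (B r) δ (fourier 0) = 1 := by
          change av n r (B r) (fun u => fourier 0 u) δ = 1
          unfold av
          simp only [fourier_zero, Finset.sum_const, Finset.card_range, nsmul_eq_mul, mul_one]
          exact div_self (mul_ne_zero hr' hB')
        have e2 : inL (volume : Measure (AddCircle (1 : ℝ))) (fourier 0) = 1 := by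
          change ∫ u, fourier 0 u ∂(volume : Measure (AddCircle (1 : ℝ))) = 1
          simp
        simp only [e1, e2, dist_self]
        exact hη
      · obtain ⟨r1, hr1⟩ := hE m hm s (η / 2) (half_pos hη)
        refine ⟨r1, fun r hr n hn δ h1 h2 => ?_⟩
        have h3 := hr1 r hr n hn δ h1 h2
        have e2 : inL (volume : Measure (AddCircle (1 : ℝ))) (fourier m) = 0 := int_fourier m hm
        rw [e2, dist_zero_right]
        exact lt_of_le_of_lt h3 (half_lt_self hη)) (cpl f)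
  rw [Metric.tendsto_nhds] at h
  obtain ⟨r1, hr1⟩ := (hl _).1 (h ε hε)
  refine ⟨r1, fun r hr n hn δ h1 h2' => ?_⟩
  have h2 := hr1 r hr n hn δ h1 h2'
  simp only [cpl_av, cpl_in] at h2
  rw [dist_eq_norm, ← Complex.ofReal_sub, Complex.norm_real, Real.norm_eq_abs] at h2
  exact h2.le

end Pool.Agent.Ord2
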