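import Pool.Agent.Ord2.Gen
import Pool.Agent.Ord2.Eq2
import Pool.Agent.Ord2.Kpt
import Pool.Agent.Ord2.Cover
import Pool.Agent.Ord2.Fun1
import Pool.Agent.Ord2.Weyl2
import Pool.Agent.Ord2.Meas

/-! Assembly of the theorem (section 7). -/

open MeasureTheory
open scoped ENNReal

namespace Pool.Agent.Ord2

theorem avR_sum (n r B : ℕ) (hr : 0 < r) (hB : 0 < B) (ψ χ : C(AddCircle (1 : ℝ), ℝ))
    (h : ∀ u v, 1 - ψ u - ψ v ≤ χ (u - v)) (x y : AddCircle (1 : ℝ)) :
    1 - avR n r B ψ x - avR n r B ψ y ≤ avR n r B χ (x - y) := by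
  unfold avR
  have hr' : (0 : ℝ) < r := by exact_mod_cast hr
  have hB' : (0 : ℝ) < B := by exact_mod_cast hB
  have hrB : (0 : ℝ) < (r : ℝ) * B := by positivity
  have e1 : 1 - (∑ i ∈ Finset.range r, ∑ b ∈ Finset.range B, ψ (gg n i b • x)) / ((r : ℝ) * B)
      - (∑ i ∈ Finset.range r, ∑ b ∈ Finset.range B, ψ (gg n i b • y)) / ((r : ℝ) * B)
      = (∑ i ∈ Finset.range r, ∑ b ∈ Finset.range B,
          (1 - ψ (gg n i b • x) - ψ (gg n i b • y))) / ((r : ℝ) * B) := by
    simp only [Finset.sum_sub_distrib, Finset.sum_const, Finset.card_range, nsmul_eq_mul, mul_one]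
    rw [sub_div, sub_div, div_self hrB.ne']
  rw [e1]
  apply div_le_div_of_nonneg_right _ hrB.le
  apply Finset.sum_le_sum
  intro i _
  apply Finset.sum_le_sum
  intro b _
  have := h (gg n i b • x) (gg n i b • y)
  rwa [← smul_sub] at this

theorem main (μ : Measure (AddCircle (1 : ℝ))) [IsProbabilityMeasure μ] (hna : ∀ x, μ {x} = 0)
    (h : ∀ m : ℤ, m ≠ 0 → ProfP μ m)
    (m : ℤ) (hm : m ≠ 0) : cf μ m = 0 := by
  obtain ⟨M, hM, B, r0, hr0, hpar⟩ := params
  have hS : SizeP M B := by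
    refine ⟨r0, hr0, fun r hr => ?_⟩
    obtain ⟨q, p, N, _, _, _, _, _, ha, hb⟩ := hpar r hr
    exact ⟨ha, hb⟩
  have hE : EquiP M B := equi hM hr0 hpar
  have hgen := ae_generic μ M hM B hS h
  by_contra hρ
  have hρpos : 0 < ‖cf μ m‖ := norm_pos_iff.mpr hρ
  -- the first set
  obtain ⟨X, hXc, hXm, r1, hX⟩ := exists_uniform μ M
    (fun r j => {x | ‖av (nn M r j) r (B r) (fourier m) x - cf μ m‖ ≤ ‖cf μ m‖ / 2})
    (fun r j => isClosed_le ((continuous_av _ _ _ _).sub continuous_const).norm continuous_const)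
    (by
      filter_upwards [hgen] with x hx
      exact hx m (‖cf μ m‖ / 2) (by positivity))
    (ENNReal.ofReal (31 / 32)) (by
      rw [← ENNReal.ofReal_one]
      exact (ENNReal.ofReal_lt_ofReal_iff one_pos).mpr (by norm_num))
  obtain ⟨K, hK⟩ := kpoint M hM B hS hE m hm (cf μ m) hρ X r1 hX
  obtain ⟨C, ρ, hCne, hρ0, hcov, hsize⟩ := cover X K hK (1 / 160) (by norm_num)
  obtain ⟨ψ, χ, hψ, hχ, hineq, hzero, hint⟩ := functions C hCne ρ hρ0
  -- the integral of ψ
  have hψint : ∫ u, ψ u ∂μ ≤ 1 / 32 := by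
    have h1 : ∫ u, ψ u ∂μ ≤ ∫ u, Set.indicator Xᶜ (fun _ => (1 : ℝ)) u ∂μ := by
      apply integral_mono (ψ.continuous.integrable_of_hasCompactSupport
        (HasCompactSupport.of_compactSpace _))
      · exact (integrable_const (1 : ℝ)).indicator hXc.measurableSet.compl
      · intro u
        by_cases hu : u ∈ X
        · have : ψ u = 0 := hzero u (hcov u hu)
          simp [this, hu]
        · simp only [Set.indicator_of_mem (Set.mem_compl hu)]
          exact (hψ u).2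
    refine h1.trans ?_
    rw [integral_indicator hXc.measurableSet.compl, setIntegral_const, smul_eq_mul, mul_one]
    have h2 : μ.real Xᶜ = 1 - μ.real X := by
      rw [measureReal_compl hXc.measurableSet, probReal_univ]
    rw [h2]
    have h3 : (31 / 32 : ℝ) ≤ μ.real X := by
      have := hXm.le
      rwa [ENNReal.ofReal_le_iff_le_toReal (measure_ne_top μ X)] at this
    linarith
  have hχint : ∫ u, χ u ∂(volume : Measure (AddCircle (1 : ℝ))) ≤ 1 / 16 := by
    refine hint.trans ?_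
    linarith
  -- the second set
  obtain ⟨X1, _, hX1m, r2, hX1⟩ := exists_uniform μ M
    (fun r j => {x | avR (nn M r j) r (B r) ψ x ≤ 1 / 8})
    (fun r j => isClosed_le (continuous_avR _ _ _ _) continuous_const)
    (by
      filter_upwards [hgen] with x hx
      obtain ⟨r1, hr1⟩ := generic_cont M B hS μ x hx ψ (1 / 32) (by norm_num)
      refine ⟨r1, fun r hr j hj => ?_⟩
      have := (abs_le.mp (hr1 r hr j hj)).2
      change avR (nn M r j) r (B r) ψ x ≤ 1 / 8
      linarith)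
    0 zero_lt_one
  obtain ⟨r3, hr3⟩ := equi_cont M B hS hE χ 1 (1 / 16) (by norm_num)
  obtain ⟨r4, _, hr4⟩ := hS
  obtain ⟨n1, hn1⟩ := net M hM (max (max r2 r3) r4)
  obtain ⟨x, hx, y, hy, n, hn, hd1, hd2⟩ := exists_close μ hna X1 hX1m n1
  obtain ⟨r, hr, hr1, j, hj, hnj1, hnj2⟩ := hn1 n hn
  have hrr2 : r2 ≤ r := le_trans (le_trans (le_max_left _ _) (le_max_left _ _)) hr
  have hrr3 : r3 ≤ r := le_trans (le_trans (le_max_right _ _) (le_max_left _ _)) hr
  have hrr4 : r4 ≤ r := le_trans (le_max_right _ _) hr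
  have hB0 : 0 < B r := by
    have := (hr4 r hrr4).1
    have h5 : 0 < 2 ^ (M * r) := by positivity
    omega
  obtain ⟨e1, e2⟩ := net_dist hnj1 hnj2 hd1 hd2
  have k1 := hX1 x hx r hrr2 j hj
  have k2 := hX1 y hy r hrr2 j hj
  have k3 := hr3 r hrr3 (nn M r j) (le_nn M r j) (x - y) e1 e2
  have k4 := avR_sum (nn M r j) r (B r) hr1 hB0 ψ χ hineq x y
  have k5 := (abs_le.mp k3).2
  simp only [Set.mem_ofPred_eq] at k1 k2
  linarith

end Pool.Agent.Ord2
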