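import Pool.Agent.Ord2.Arith

/-! Module POLYS. Polynomial decay implies the weighted summability: reindex `(a, b) ↦ (t, b)`, `t = a + ⌊α b⌋`
(integer floor); `|l(v) - t| ≤ 1`, `1 + |a| + |b| ≥ c (1 + |t| + |b|)`; with `κ' = (κ-1)/2` the term is at most
`C (1+|b|)^(-1-κ') (1+|t|)^(-1-κ')`. Second: for Lebesgue measure only `v = 0` gives a nonzero term. -/

open MeasureTheory

namespace Pool.Agent.Ord2

private lemma polys_nat (s : ℝ) (hs : 1 < s) : Summable fun n : ℕ => (1 + (n : ℝ)) ^ (-s) := by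
  have h := (summable_nat_add_iff 1).2 (Real.summable_nat_rpow (p := -s).2 (by linarith))
  refine h.congr ?_
  intro n
  push_cast
  rw [add_comm]

private lemma polys_int (s : ℝ) (hs : 1 < s) : Summable fun n : ℤ => (1 + |(n : ℝ)|) ^ (-s) := by
  apply Summable.of_nat_of_neg
  · refine (polys_nat s hs).congr ?_
    intro n
    simp
  · refine (polys_nat s hs).congr ?_
    intro n
    simp

private lemma polys_term (κ a b f : ℝ) (hκ : 1 < κ) (hα : 1 < al ∧ al < 2)
    (hf : f ≤ al * b) (hf1 : al * b < f + 1) :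
    (1 + |a| + |b|) ^ (-κ) / (1 + |a + al * b|) ≤
      2 * 3 ^ κ * ((1 + |a + f|) ^ (-(1 + (κ - 1) / 2)) * (1 + |b|) ^ (-(1 + (κ - 1) / 2))) := by
  obtain ⟨hα1, hα2⟩ := hα
  have hb0 := abs_nonneg b
  have ha0 := abs_nonneg a
  have ht0 := abs_nonneg (a + f)
  have hab : |al * b| ≤ 2 * |b| := by
    rw [abs_mul, abs_of_pos (by linarith : (0 : ℝ) < al)]
    nlinarith
  have hft : |f| ≤ 2 * |b| + 1 := by
    have h1 : |f - al * b| ≤ 1 := by rw [abs_le]; constructor <;> linarith
    have h2 : |f| ≤ |f - al * b| + |al * b| := by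
      calc |f| = |(f - al * b) + al * b| := by ring_nf
        _ ≤ _ := abs_add_le _ _
    linarith
  have h3 : 1 + |a + f| + |b| ≤ 3 * (1 + |a| + |b|) := by
    have := abs_add_le a f
    linarith
  have h4 : 1 + |a + f| ≤ 2 * (1 + |a + al * b|) := by
    have h1 : |f - al * b| ≤ 1 := by rw [abs_le]; constructor <;> linarith
    have h2 : |a + f| ≤ |a + al * b| + |f - al * b| := by
      calc |a + f| = |(a + al * b) + (f - al * b)| := by ring_nf
        _ ≤ _ := abs_add_le _ _
    have := abs_nonneg (a + al * b)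
    linarith
  set X := 1 + |a| + |b| with hX
  set Y := 1 + |a + f| + |b| with hY
  have hX0 : 0 < X := by rw [hX]; linarith
  have hY0 : 0 < Y := by rw [hY]; linarith
  have hκ0 : 0 < κ := by linarith
  have e1 : X ^ (-κ) ≤ 3 ^ κ * Y ^ (-κ) := by
    have h5 : Y / 3 ≤ X := by linarith
    calc X ^ (-κ) ≤ (Y / 3) ^ (-κ) :=
          Real.rpow_le_rpow_of_nonpos (by positivity) h5 (by linarith)
      _ = 3 ^ κ * Y ^ (-κ) := by
          rw [Real.div_rpow hY0.le (by norm_num), Real.rpow_neg (by norm_num : (0 : ℝ) ≤ 3)]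
          field_simp
  have e2 : Y ^ (-κ) ≤ (1 + |a + f|) ^ (-((κ - 1) / 2)) * (1 + |b|) ^ (-(1 + (κ - 1) / 2)) := by
    have : Y ^ (-κ) = Y ^ (-((κ - 1) / 2)) * Y ^ (-(1 + (κ - 1) / 2)) := by
      rw [← Real.rpow_add hY0]; congr 1; ring
    rw [this]
    apply mul_le_mul
    · exact Real.rpow_le_rpow_of_nonpos (by linarith) (by rw [hY]; linarith) (by linarith)
    · exact Real.rpow_le_rpow_of_nonpos (by linarith) (by rw [hY]; linarith) (by linarith)
    · positivity
    · positivity
  have e3 : 1 / (1 + |a + al * b|) ≤ 2 * (1 + |a + f|) ^ (-1 : ℝ) := by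
    rw [Real.rpow_neg_one, div_le_iff₀ (by have := abs_nonneg (a + al * b); linarith)]
    have : (0 : ℝ) < 1 + |a + f| := by linarith
    rw [mul_comm 2, mul_assoc, inv_mul_eq_div, le_div_iff₀ this]
    linarith
  calc X ^ (-κ) / (1 + |a + al * b|) = X ^ (-κ) * (1 / (1 + |a + al * b|)) := by ring
    _ ≤ (3 ^ κ * ((1 + |a + f|) ^ (-((κ - 1) / 2)) * (1 + |b|) ^ (-(1 + (κ - 1) / 2)))) *
        (2 * (1 + |a + f|) ^ (-1 : ℝ)) := by
        apply mul_le_mul
        · refine e1.trans ?_
          apply mul_le_mul_of_nonneg_left e2 (by positivity)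
        · exact e3
        · positivity
        · positivity
    _ = 2 * 3 ^ κ * (((1 + |a + f|) ^ (-((κ - 1) / 2)) * (1 + |a + f|) ^ (-1 : ℝ)) *
        (1 + |b|) ^ (-(1 + (κ - 1) / 2))) := by ring
    _ = _ := by
        rw [← Real.rpow_add (by linarith : (0 : ℝ) < 1 + |a + f|)]
        congr 3
        ring_nf

theorem summable_poly (κ : ℝ) (hκ : 1 < κ) :
    Summable fun v : ℤ × ℤ => (1 + |(v.1 : ℝ)| + |(v.2 : ℝ)|) ^ (-κ) / (1 + |lv v|) := by
  have hs : 1 < 1 + (κ - 1) / 2 := by linarith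
  have h1 := polys_int _ hs
  have h2 : Summable fun v : ℤ × ℤ => (1 + |(v.1 : ℝ)|) ^ (-(1 + (κ - 1) / 2)) *
      (1 + |(v.2 : ℝ)|) ^ (-(1 + (κ - 1) / 2)) :=
    h1.mul_of_nonneg h1 (fun _ => by positivity) (fun _ => by positivity)
  let e : ℤ × ℤ ≃ ℤ × ℤ :=
    { toFun := fun v => (v.1 + ⌊al * (v.2 : ℝ)⌋, v.2)
      invFun := fun v => (v.1 - ⌊al * (v.2 : ℝ)⌋, v.2)
      left_inv := fun v => by simp
      right_inv := fun v => by simp }
  have h3 := (e.summable_iff.2 h2).mul_left (2 * 3 ^ κ)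
  refine Summable.of_nonneg_of_le (fun v => by positivity) (fun v => ?_) h3
  have := polys_term κ (v.1 : ℝ) (v.2 : ℝ) (⌊al * (v.2 : ℝ)⌋ : ℝ) hκ al_bounds
    (Int.floor_le _) (Int.lt_floor_add_one _)
  have he : e v = (v.1 + ⌊al * (v.2 : ℝ)⌋, v.2) := rfl
  simp only [Function.comp, he, lv]
  push_cast
  exact this

private lemma polys_odd (b : ℕ) : ¬ (2 : ℤ) ∣ 3 ^ b := by
  intro h
  have h2 : (2 : ℤ) ∣ 3 := Int.prime_two.dvd_of_dvd_pow h
  omega

theorem Dv_eq_zero (v : ℤ × ℤ) : Dv v = 0 ↔ v = 0 := by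
  constructor
  · intro h
    obtain ⟨a, b⟩ := v
    unfold Dv at h
    simp only at h
    rw [sub_eq_zero] at h
    have ha : a = 0 := by
      rcases lt_trichotomy a 0 with ha | ha | ha
      · exfalso
        have h1 : a.toNat = 0 := by omega
        have h2 : (-a).toNat ≠ 0 := by omega
        rw [h1, pow_zero, one_mul] at h
        apply polys_odd b.toNat
        rw [h]
        exact Dvd.dvd.mul_right (dvd_pow_self 2 h2) _
      · exact ha
      · exfalso
        have h1 : (-a).toNat = 0 := by omega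
        have h2 : a.toNat ≠ 0 := by omega
        rw [h1, pow_zero, one_mul] at h
        apply polys_odd (-b).toNat
        rw [← h]
        exact Dvd.dvd.mul_right (dvd_pow_self 2 h2) _
    subst ha
    simp only [Int.toNat_zero, pow_zero, one_mul, neg_zero] at h
    have hb : b.toNat = (-b).toNat := by
      have h' : (3 : ℕ) ^ b.toNat = 3 ^ (-b).toNat := by exact_mod_cast h
      exact Nat.pow_right_injective (le_refl 2 |>.trans (by norm_num)) h'
    have : b = 0 := by omega
    subst this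
    rfl
  · rintro rfl
    simp [Dv]

private lemma cf_volume (n : ℤ) (hn : n ≠ 0) :
    cf (volume : Measure (AddCircle (1 : ℝ))) n = 0 := by
  unfold cf
  have h1 : ∫ x, fourier n x ∂(volume : Measure (AddCircle (1 : ℝ))) =
      ∫ x, fourier n (x + ((1 / 2 / (n : ℝ) : ℝ) : AddCircle (1 : ℝ))) ∂volume :=
    (integral_add_right_eq_self (μ := (volume : Measure (AddCircle (1 : ℝ))))
      (fun x => fourier n x) _).symm
  have h2 : ∀ x : AddCircle (1 : ℝ),
      fourier n (x + ((1 / 2 / (n : ℝ) : ℝ) : AddCircle (1 : ℝ))) = - fourier n x := by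
    intro x
    have := fourier_add_half_inv_index (T := (1 : ℝ)) hn one_pos x
    exact this
  simp_rw [h2] at h1
  rw [integral_neg] at h1
  have h3 : (2 : ℂ) * ∫ x, fourier n x ∂(volume : Measure (AddCircle (1 : ℝ))) = 0 := by
    rw [two_mul]; nth_rewrite 1 [h1]; simp
  rcases mul_eq_zero.1 h3 with h | h
  · norm_num at h
  · exact h

private lemma cf_volume_zero : cf (volume : Measure (AddCircle (1 : ℝ))) 0 = 1 := by
  unfold cf
  simp [Measure.real, AddCircle.measure_univ]

theorem dev_volume (m : ℤ) (hm : m ≠ 0) (v : ℤ × ℤ) :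
    dev (volume : Measure (AddCircle (1 : ℝ))) m v = if v = 0 then 1 else 0 := by
  unfold dev
  rw [cf_volume m hm]
  split_ifs with h
  · rw [(Dv_eq_zero v).2 h, mul_zero, cf_volume_zero]
    simp
  · rw [cf_volume]
    · simp
    · exact mul_ne_zero hm (fun h' => h ((Dv_eq_zero v).1 h'))

theorem eq_volume (μ : Measure (AddCircle (1 : ℝ))) [IsProbabilityMeasure μ]
    (h : ∀ m : ℤ, m ≠ 0 → cf μ m = 0) : μ = volume := by
  have hc : ∀ (ν : Measure (AddCircle (1 : ℝ))) [IsFiniteMeasure ν],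
      Continuous (fun f : C(AddCircle (1 : ℝ), ℂ) => ∫ x, f x ∂ν) := by
    intro ν _
    have hi : ∀ f : C(AddCircle (1 : ℝ), ℂ), Integrable (fun x => f x) ν := fun f =>
      f.continuous.integrable_of_hasCompactSupport (HasCompactSupport.of_compactSpace _)
    let L : C(AddCircle (1 : ℝ), ℂ) →ₗ[ℂ] ℂ :=
      { toFun := fun f => ∫ x, f x ∂ν
        map_add' := fun f g => by
          simp only [ContinuousMap.add_apply]
          exact integral_add (hi f) (hi g)
        map_smul' := fun c f => by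
          simp only [ContinuousMap.smul_apply, RingHom.id_apply]
          exact integral_smul c _ }
    have := (L.mkContinuous (ν.real Set.univ) (fun f => by
      have h1 : ‖∫ x, f x ∂ν‖ ≤ ‖f‖ * ν.real Set.univ :=
        norm_integral_le_of_norm_le_const (Filter.Eventually.of_forall fun x => f.norm_coe_le_norm x)
      change ‖∫ x, f x ∂ν‖ ≤ _
      rw [mul_comm]
      exact h1)).continuous
    exact this
  have hi : ∀ (ν : Measure (AddCircle (1 : ℝ))) [IsFiniteMeasure ν] (f : C(AddCircle (1 : ℝ), ℂ)),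
      Integrable (fun x => f x) ν := fun ν _ f =>
      f.continuous.integrable_of_hasCompactSupport (HasCompactSupport.of_compactSpace _)
  have hcf0 : cf μ 0 = 1 := by
    unfold cf; simp
  have hall : ∀ f : C(AddCircle (1 : ℝ), ℂ), ∫ x, f x ∂μ =
      ∫ x, f x ∂(volume : Measure (AddCircle (1 : ℝ))) := by
    intro f
    have hf : f ∈ (Submodule.span ℂ (Set.range (@fourier (1 : ℝ)))).topologicalClosure := by
      rw [span_fourier_closure_eq_top]; trivial
    have hcl : IsClosed {f : C(AddCircle (1 : ℝ), ℂ) | ∫ x, f x ∂μ =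
        ∫ x, f x ∂(volume : Measure (AddCircle (1 : ℝ)))} := isClosed_eq (hc μ) (hc volume)
    have hsub : ((Submodule.span ℂ (Set.range (@fourier (1 : ℝ))) : Submodule ℂ _) :
        Set C(AddCircle (1 : ℝ), ℂ)) ⊆ {f : C(AddCircle (1 : ℝ), ℂ) | ∫ x, f x ∂μ =
        ∫ x, f x ∂(volume : Measure (AddCircle (1 : ℝ)))} := by
      intro g hg
      refine Submodule.span_induction (p := fun g _ => ∫ x, g x ∂μ =
        ∫ x, g x ∂(volume : Measure (AddCircle (1 : ℝ)))) ?_ ?_ ?_ ?_ hg
      · rintro _ ⟨n, rfl⟩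
        change cf μ n = cf volume n
        by_cases hn : n = 0
        · subst hn; rw [hcf0, cf_volume_zero]
        · rw [h n hn, cf_volume n hn]
      · simp
      · intro a b _ _ ha hb
        simp only [ContinuousMap.add_apply]
        rw [integral_add (hi μ a) (hi μ b), integral_add (hi volume a) (hi volume b), ha, hb]
      · intro c a _ ha
        simp only [ContinuousMap.smul_apply]
        rw [integral_smul, integral_smul, ha]
    have := hcl.closure_subset_iff.2 hsub
    exact this hf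
  apply ext_of_forall_integral_eq_of_IsFiniteMeasure
  intro f
  let g : C(AddCircle (1 : ℝ), ℂ) := ⟨fun x => ((f x : ℝ) : ℂ), by fun_prop⟩
  have hg := hall g
  have e : ∀ ν : Measure (AddCircle (1 : ℝ)), ∫ x, g x ∂ν = ((∫ x, f x ∂ν : ℝ) : ℂ) := fun ν =>
    integral_ofReal
  rw [e, e] at hg
  exact_mod_cast hg

end Pool.Agent.Ord2
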