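import Pool.Agent.Ord2.Sum1

/-! Module SUM2. Sum of the variances over the net: for `r ≥ r0` the `r`-th part is at most
`JJ M r * SS(r) / (r B r) ≤ (2^(M(r+1))/r + 2) * 4 SS(r)/(r 2^(Mr)) ≤ C SS(r)/r^2`. -/

open MeasureTheory
open scoped ENNReal

namespace Pool.Agent.Ord2

private theorem SUM2_nat {M r b : ℕ} (hM : 1 ≤ M) (hb : 2 ^ (M * r) ≤ 4 * b) :
    JJ M r * r ^ 2 ≤ (4 * 2 ^ M + 8) * (r * b) := by
  have h1 : JJ M r * r ≤ 2 ^ (M * (r + 1)) + 2 * r := by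
    unfold JJ
    rw [add_mul]
    have := Nat.div_mul_le_self (2 ^ (M * (r + 1))) r
    omega
  have h2 : 2 ^ (M * (r + 1)) = 2 ^ M * 2 ^ (M * r) := by
    rw [← pow_add]
    congr 1
    ring
  have h3 : r ≤ 2 ^ (M * r) := by
    have h4 : r < 2 ^ r := Nat.lt_two_pow_self
    have h5 : 2 ^ r ≤ 2 ^ (M * r) := Nat.pow_le_pow_right (by norm_num) (Nat.le_mul_of_pos_left _ hM)
    omega
  have h4 : 2 ^ M * 2 ^ (M * r) ≤ 2 ^ M * (4 * b) := Nat.mul_le_mul_left _ hb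
  have h5 : JJ M r * r ≤ (4 * 2 ^ M + 8) * b := by
    have : (4 * 2 ^ M + 8) * b = 2 ^ M * (4 * b) + 8 * b := by ring
    omega
  calc JJ M r * r ^ 2 = (JJ M r * r) * r := by ring
    _ ≤ ((4 * 2 ^ M + 8) * b) * r := Nat.mul_le_mul_right _ h5
    _ = (4 * 2 ^ M + 8) * (r * b) := by ring

private theorem SUM2_enn {a b c d : ℕ} (S : ℝ≥0∞) (hb : b ≠ 0) (hd : d ≠ 0)
    (h : a * d ≤ c * b) :
    (a : ℝ≥0∞) * (S / (b : ℝ≥0∞)) ≤ (c : ℝ≥0∞) * (S / (d : ℝ≥0∞)) := by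
  have hb' : (b : ℝ≥0∞) ≠ 0 := by exact_mod_cast hb
  have hd' : (d : ℝ≥0∞) ≠ 0 := by exact_mod_cast hd
  have h' : (a : ℝ≥0∞) * d ≤ c * b := by exact_mod_cast h
  have key : (a : ℝ≥0∞) / b ≤ (c : ℝ≥0∞) / d := by
    rw [ENNReal.div_le_iff hb' (ENNReal.natCast_ne_top b)]
    have h7 : (c : ℝ≥0∞) / d * b = c * b / d := by
      rw [div_eq_mul_inv, div_eq_mul_inv]; ring
    rw [h7, ENNReal.le_div_iff_mul_le (Or.inl hd') (Or.inl (ENNReal.natCast_ne_top d))]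
    exact h'
  calc (a : ℝ≥0∞) * (S / (b : ℝ≥0∞)) = S * ((a : ℝ≥0∞) / b) := by
        rw [div_eq_mul_inv, div_eq_mul_inv]; ring
    _ ≤ S * ((c : ℝ≥0∞) / d) := by gcongr
    _ = (c : ℝ≥0∞) * (S / (d : ℝ≥0∞)) := by
        rw [div_eq_mul_inv, div_eq_mul_inv]; ring

theorem sum_net_V (μ : Measure (AddCircle (1 : ℝ))) [IsProbabilityMeasure μ]
    (M : ℕ) (hM : 1 ≤ M) (B : ℕ → ℕ) (hB : SizeP M B) (m : ℤ) (V : ℕ → ℝ≥0∞)
    (hV : ∀ n r B : ℕ, 0 < r → 0 < B → 2 * B ≤ n →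
      ∫⁻ x, ENNReal.ofReal (‖av n r B (fourier m) x - cf μ m‖ ^ 2) ∂μ ≤ V r / ((r * B : ℕ) : ℝ≥0∞))
    (hfin : ∑' r : ℕ, V (r + 1) / (((r + 1) ^ 2 : ℕ) : ℝ≥0∞) ≠ ⊤) :
    ∃ r0 : ℕ, ∑' r : ℕ, ∑ j ∈ Finset.range (JJ M (r + r0)),
      ∫⁻ x, ENNReal.ofReal
        (‖av (nn M (r + r0) j) (r + r0) (B (r + r0)) (fourier m) x - cf μ m‖ ^ 2) ∂μ ≠ ⊤ := by
  obtain ⟨r0, hr0, hS⟩ := hB
  refine ⟨r0, ?_⟩
  have hterm : ∀ r : ℕ, ∑ j ∈ Finset.range (JJ M (r + r0)),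
      ∫⁻ x, ENNReal.ofReal
        (‖av (nn M (r + r0) j) (r + r0) (B (r + r0)) (fourier m) x - cf μ m‖ ^ 2) ∂μ ≤
      ((4 * 2 ^ M + 8 : ℕ) : ℝ≥0∞) *
        (V (r + (r0 - 1) + 1) / (((r + (r0 - 1) + 1) ^ 2 : ℕ) : ℝ≥0∞)) := by
    intro r
    have hre : r + (r0 - 1) + 1 = r + r0 := by omega
    rw [hre]
    obtain ⟨hs1, hs2⟩ := hS (r + r0) (by omega)
    have hBpos : 0 < B (r + r0) := by
      have : 0 < 2 ^ (M * (r + r0)) := by positivity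
      omega
    have h1 : ∀ j ∈ Finset.range (JJ M (r + r0)),
        ∫⁻ x, ENNReal.ofReal
          (‖av (nn M (r + r0) j) (r + r0) (B (r + r0)) (fourier m) x - cf μ m‖ ^ 2) ∂μ ≤
        V (r + r0) / (((r + r0) * B (r + r0) : ℕ) : ℝ≥0∞) := by
      intro j _
      apply hV _ _ _ (by omega) hBpos
      have : 2 ^ (M * (r + r0)) ≤ nn M (r + r0) j := by
        unfold nn
        omega
      omega
    calc _ ≤ ∑ _j ∈ Finset.range (JJ M (r + r0)),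
          V (r + r0) / (((r + r0) * B (r + r0) : ℕ) : ℝ≥0∞) := Finset.sum_le_sum h1
      _ = (JJ M (r + r0) : ℝ≥0∞) *
          (V (r + r0) / (((r + r0) * B (r + r0) : ℕ) : ℝ≥0∞)) := by
          rw [Finset.sum_const, Finset.card_range, nsmul_eq_mul]
      _ ≤ _ := by
          apply SUM2_enn
          · exact (Nat.mul_pos (by omega) hBpos).ne'
          · positivity
          · exact SUM2_nat hM hs1
  refine ne_top_of_le_ne_top ?_ (ENNReal.tsum_le_tsum hterm)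
  rw [ENNReal.tsum_mul_left]
  apply ENNReal.mul_ne_top (ENNReal.natCast_ne_top _)
  refine ne_top_of_le_ne_top hfin ?_
  exact ENNReal.tsum_comp_le_tsum_of_injective
    (f := fun r : ℕ => r + (r0 - 1)) (fun a b hab => by simpa using hab)
    (fun r : ℕ => V (r + 1) / (((r + 1) ^ 2 : ℕ) : ℝ≥0∞))

/-- a variance profile with a finite sum -/
def ProfP (μ : Measure (AddCircle (1 : ℝ))) (m : ℤ) : Prop :=
  ∃ V : ℕ → ℝ≥0∞, (∀ n r B : ℕ, 0 < r → 0 < B → 2 * B ≤ n →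
      ∫⁻ x, ENNReal.ofReal (‖av n r B (fourier m) x - cf μ m‖ ^ 2) ∂μ ≤ V r / ((r * B : ℕ) : ℝ≥0∞)) ∧
    ∑' r : ℕ, V (r + 1) / (((r + 1) ^ 2 : ℕ) : ℝ≥0∞) ≠ ⊤

theorem prof_of_summable (μ : Measure (AddCircle (1 : ℝ))) [IsProbabilityMeasure μ]
    (h2 : MeasurePreserving (fun x : AddCircle (1 : ℝ) => (2 : ℕ) • x) μ μ)
    (h3 : MeasurePreserving (fun x : AddCircle (1 : ℝ) => (3 : ℕ) • x) μ μ) (m : ℤ)
    (h : Summable fun v : ℤ × ℤ => dev μ m v / (1 + |lv v|)) : ProfP μ m :=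
  ⟨SS μ m, fun n r B hr hB hn => var_le μ h2 h3 m n r B hr hB hn, sum_SS μ m h⟩

end Pool.Agent.Ord2
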