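import Pool.Agent.Ord2.Cor
import Pool.Agent.Ord2.Sum2

/-! Module BES (idea of helper19; `bessel_volume` by helper77). Bessel form: the functions `e(m g x) - c(m)`,
`g = 2^a 3^b`, form a Bessel sequence. -/

open MeasureTheory
open scoped ENNReal

namespace Pool.Agent.Ord2

/-- the functions `e(m g x) - c(m)`, `g = 2^a 3^b`, form a Bessel sequence in `L²(μ)` -/
def BesselP (μ : Measure (AddCircle (1 : ℝ))) (m : ℤ) : Prop :=
  ∃ C : ℝ, ∀ (S : Finset (ℕ × ℕ)) (a : ℕ × ℕ → ℂ),
    ∫ x, ‖∑ p ∈ S, a p * (fourier (m * (2 ^ p.1 * 3 ^ p.2)) x - cf μ m)‖ ^ 2 ∂μ ≤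
      C * ∑ p ∈ S, ‖a p‖ ^ 2

theorem bessel_var (μ : Measure (AddCircle (1 : ℝ))) [IsProbabilityMeasure μ] (m : ℤ)
    (h : BesselP μ m) : ∃ C : ℝ≥0∞, C ≠ ⊤ ∧ ∀ n r B : ℕ, 0 < r → 0 < B → 2 * B ≤ n →
      ∫⁻ x, ENNReal.ofReal (‖av n r B (fourier m) x - cf μ m‖ ^ 2) ∂μ ≤ C / ((r * B : ℕ) : ℝ≥0∞) := by
  obtain ⟨C, hC⟩ := h
  refine ⟨ENNReal.ofReal C, ENNReal.ofReal_ne_top, fun n r B hr hB hn => ?_⟩
  have hal : al < 2 := by
    unfold al
    rw [div_lt_iff₀ (Real.log_pos (by norm_num))]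
    have : Real.log 3 < Real.log (2 ^ 2) := Real.log_lt_log (by norm_num) (by norm_num)
    rwa [Real.log_pow] at this
  have hal0 : 0 < al := div_pos (Real.log_pos (by norm_num)) (Real.log_pos (by norm_num))
  have hfl : ∀ b < B, fl b ≤ n := by
    intro b hb
    have : fl b ≤ 2 * b := by
      unfold fl
      apply Nat.floor_le_of_le
      push_cast
      nlinarith [(Nat.cast_nonneg b : (0 : ℝ) ≤ b)]
    omega
  set f : ℕ × ℕ → ℕ × ℕ := fun q => (n + q.1 - fl q.2, q.2) with hf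
  have hinj : Set.InjOn f ↑(Finset.range r ×ˢ Finset.range B) := by
    rintro ⟨i, b⟩ hib ⟨i', b'⟩ hib' e
    simp only [Finset.coe_product, Finset.coe_range, Set.mem_prod, Set.mem_Iio] at hib hib'
    simp only [hf, Prod.mk.injEq] at e
    obtain ⟨e1, e2⟩ := e
    subst e2
    have := hfl b hib.2
    simp only [Prod.mk.injEq, and_true]
    omega
  have hrB : (0 : ℝ) < (r : ℝ) * B := by
    have h1 : (0 : ℝ) < r := by exact_mod_cast hr
    have h2 : (0 : ℝ) < B := by exact_mod_cast hB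
    positivity
  have hr' : (r : ℂ) ≠ 0 := by exact_mod_cast hr.ne'
  have hB' : (B : ℂ) ≠ 0 := by exact_mod_cast hB.ne'
  have key := hC ((Finset.range r ×ˢ Finset.range B).image f) (fun _ => 1 / ((r : ℂ) * B))
  have eL : ∀ x : AddCircle (1 : ℝ), ∑ p ∈ (Finset.range r ×ˢ Finset.range B).image f,
      (1 / ((r : ℂ) * B)) * (fourier (m * (2 ^ p.1 * 3 ^ p.2)) x - cf μ m) =
      av n r B (fourier m) x - cf μ m := by
    intro x
    have e1 : ∀ i b : ℕ, (fourier (m * (2 ^ (f (i, b)).1 * 3 ^ (f (i, b)).2)) x : ℂ) =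
        fourier m (gg n i b • x) := by
      intro i b
      rw [fourier_nsmul']
      unfold gg
      push_cast
      rfl
    rw [Finset.sum_image hinj, Finset.sum_product, ← sub_eq_zero]
    unfold av
    simp only [e1, ← Finset.mul_sum, Finset.sum_sub_distrib, Finset.sum_const, Finset.card_range,
      nsmul_eq_mul]
    field_simp
    ring
  have eR : ∑ p ∈ (Finset.range r ×ˢ Finset.range B).image f, ‖1 / ((r : ℂ) * (B : ℂ))‖ ^ 2 =
      1 / ((r : ℝ) * B) := by
    rw [Finset.sum_const, Finset.card_image_of_injOn hinj, Finset.card_product, Finset.card_range,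
      Finset.card_range, nsmul_eq_mul, norm_div, norm_mul, norm_one, Complex.norm_natCast,
      Complex.norm_natCast]
    push_cast
    field_simp
  rw [eR] at key
  simp only [eL] at key
  have hcont : Continuous fun x => ‖av n r B (fourier m) x - cf μ m‖ ^ 2 := by
    apply Continuous.pow
    apply Continuous.norm
    apply Continuous.sub _ continuous_const
    unfold av
    apply Continuous.div_const
    refine continuous_finsetSum _ (fun i _ => continuous_finsetSum _ (fun b _ => ?_))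
    exact (fourier m).continuous.comp (continuous_nsmul _)
  rw [← ofReal_integral_eq_lintegral_ofReal
    (hcont.integrable_of_hasCompactSupport (HasCompactSupport.of_compactSpace _))
    (Filter.Eventually.of_forall fun x => by positivity)]
  refine (ENNReal.ofReal_le_ofReal key).trans ?_
  rw [mul_one_div, ENNReal.ofReal_div_of_pos hrB]
  apply le_of_eq
  congr 1
  rw [← Nat.cast_mul, ENNReal.ofReal_natCast]

theorem prof_of_bessel (μ : Measure (AddCircle (1 : ℝ))) [IsProbabilityMeasure μ] (m : ℤ)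
    (h : BesselP μ m) : ProfP μ m := by
  obtain ⟨C, hC, h⟩ := bessel_var μ m h
  refine ⟨fun _ => C, h, ?_⟩
  simp only [div_eq_mul_inv]
  rw [ENNReal.tsum_mul_left]
  apply ENNReal.mul_ne_top hC
  have hs : Summable fun r : ℕ => (((r + 1 : ℕ) : ℝ) ^ 2)⁻¹ :=
    (summable_nat_add_iff 1).mpr (Real.summable_nat_pow_inv.mpr one_lt_two)
  have e : ∀ r : ℕ, (((r + 1) ^ 2 : ℕ) : ℝ≥0∞)⁻¹ = ENNReal.ofReal (((r + 1 : ℕ) : ℝ) ^ 2)⁻¹ := by
    intro r
    rw [ENNReal.ofReal_inv_of_pos (by positivity), ← Nat.cast_pow, ENNReal.ofReal_natCast]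
  simp only [e]
  rw [← ENNReal.ofReal_tsum_of_nonneg (fun r => by positivity) hs]
  exact ENNReal.ofReal_ne_top

private lemma bv_cf (n : ℤ) (hn : n ≠ 0) :
    ∫ x, fourier n x ∂(volume : Measure (AddCircle (1 : ℝ))) = (0 : ℂ) :=
  integral_eq_zero_of_add_right_eq_neg (μ := (volume : Measure (AddCircle (1 : ℝ))))
      (fourier_add_half_inv_index hn (Fact.out : (0 : ℝ) < 1))

private lemma bv_one (n : ℤ) (hn : n = 0) :
    ∫ x, fourier n x ∂(volume : Measure (AddCircle (1 : ℝ))) = (1 : ℂ) := by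
  subst hn
  simp [Measure.real, AddCircle.measure_univ]

private lemma bv_inj {m : ℤ} (hm : m ≠ 0) {p q : ℕ × ℕ}
    (h : m * (2 ^ p.1 * 3 ^ p.2) = m * (2 ^ q.1 * 3 ^ q.2)) : p = q := by
  have h1 : (2 : ℤ) ^ p.1 * 3 ^ p.2 = 2 ^ q.1 * 3 ^ q.2 := mul_left_cancel₀ hm h
  have h2 : 2 ^ p.1 * 3 ^ p.2 = 2 ^ q.1 * 3 ^ q.2 := by exact_mod_cast h1
  have e1 := congrArg (fun n : ℕ => n.factorization 2) h2
  have e2 := congrArg (fun n : ℕ => n.factorization 3) h2
  have n2 : ∀ a : ℕ, (2 : ℕ) ^ a ≠ 0 := fun a => by positivity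
  have n3 : ∀ a : ℕ, (3 : ℕ) ^ a ≠ 0 := fun a => by positivity
  have f23 : Nat.factorization 2 3 = 0 := Nat.factorization_eq_zero_of_not_dvd (by norm_num)
  have f32 : Nat.factorization 3 2 = 0 := Nat.factorization_eq_zero_of_not_dvd (by norm_num)
  have f22 : Nat.factorization 2 2 = 1 := Nat.Prime.factorization_self Nat.prime_two
  have f33 : Nat.factorization 3 3 = 1 := Nat.Prime.factorization_self Nat.prime_three
  simp only [Nat.factorization_mul (n2 _) (n3 _), Nat.factorization_pow, Finsupp.add_apply,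
    Finsupp.smul_apply, smul_eq_mul, f23, f32, f22, f33, mul_zero, mul_one, add_zero, zero_add] at e1 e2
  exact Prod.ext e1 e2

theorem bessel_volume (m : ℤ) (hm : m ≠ 0) : BesselP (volume : Measure (AddCircle (1 : ℝ))) m := by
  refine ⟨1, ?_⟩
  intro S a
  have hc : cf (volume : Measure (AddCircle (1 : ℝ))) m = 0 := bv_cf m hm
  simp only [hc, sub_zero, one_mul]
  -- expand the square
  have h1 : ∀ x : AddCircle (1 : ℝ),
      ((‖∑ p ∈ S, a p * fourier (m * (2 ^ p.1 * 3 ^ p.2)) x‖ ^ 2 : ℝ) : ℂ) =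
      ∑ p ∈ S, ∑ q ∈ S, a p * (starRingEnd ℂ) (a q) *
        fourier (m * (2 ^ p.1 * 3 ^ p.2) - m * (2 ^ q.1 * 3 ^ q.2)) x := by
    intro x
    rw [Complex.ofReal_pow, ← Complex.mul_conj', map_sum, Finset.sum_mul_sum]
    apply Finset.sum_congr rfl
    intro p _
    apply Finset.sum_congr rfl
    intro q _
    rw [map_mul, sub_eq_add_neg, fourier_add, fourier_neg]
    ring
  have h2 : ((∫ x, ‖∑ p ∈ S, a p * fourier (m * (2 ^ p.1 * 3 ^ p.2)) x‖ ^ 2
      ∂(volume : Measure (AddCircle (1 : ℝ))) : ℝ) : ℂ) = ((∑ p ∈ S, ‖a p‖ ^ 2 : ℝ) : ℂ) := by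
    rw [← integral_complex_ofReal, integral_congr_ae (Filter.Eventually.of_forall h1)]
    have hint : ∀ n : ℤ, Integrable (fun x => (fourier n x : ℂ)) (volume : Measure (AddCircle (1 : ℝ))) :=
      fun n => (fourier n).continuous.integrable_of_hasCompactSupport
        (HasCompactSupport.of_compactSpace _)
    rw [integral_finsetSum _ (fun p _ => integrable_finsetSum _ (fun q _ => (hint _).const_mul _))]
    push_cast
    apply Finset.sum_congr rfl
    intro p hp
    rw [integral_finsetSum _ (fun q _ => (hint _).const_mul _)]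
    rw [Finset.sum_eq_single_of_mem p hp]
    · rw [integral_const_mul, bv_one _ (sub_self _), mul_one, ← Complex.mul_conj']
    · intro q _ hqp
      rw [integral_const_mul, bv_cf _ (fun h => hqp (bv_inj hm (sub_eq_zero.mp h)).symm), mul_zero]
  have h3 := Complex.ofReal_injective h2
  exact h3.le

end Pool.Agent.Ord2
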