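import Mathlib

/-!
# Order two: definitions (text: team-store MP_e27144_an_order2_helper56.md)
-/

open MeasureTheory

namespace Pool.Agent.Ord2

/-- The Fourier coefficient `∫ e(n x) dμ(x)`. -/
noncomputable def cf (μ : Measure (AddCircle (1 : ℝ))) (n : ℤ) : ℂ := ∫ x, fourier n x ∂μ

/-- `D(v) = 2^(v1+) 3^(v2+) - 2^(v1-) 3^(v2-)`. -/
def Dv (v : ℤ × ℤ) : ℤ := 2 ^ v.1.toNat * 3 ^ v.2.toNat - 2 ^ (-v.1).toNat * 3 ^ (-v.2).toNat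

/-- `log 3 / log 2`. -/
noncomputable def al : ℝ := Real.log 3 / Real.log 2

/-- `l(v) = v1 + α v2`. -/
noncomputable def lv (v : ℤ × ℤ) : ℝ := (v.1 : ℝ) + al * (v.2 : ℝ)

/-- `floor(b α)`. -/
noncomputable def fl (b : ℕ) : ℕ := ⌊(b : ℝ) * al⌋₊

/-- `θ_b = 2^{b α}` (fractional part). -/
noncomputable def th (b : ℕ) : ℝ := (2 : ℝ) ^ (Int.fract ((b : ℝ) * al))

/-- The integer `2^(n + i - floor(b α)) 3^b = 2^(n+i) θ_b`. -/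
noncomputable def gg (n i b : ℕ) : ℕ := 2 ^ (n + i - fl b) * 3 ^ b

/-- The mean of `f(g x)` over the window `G(n, r, B)`. -/
noncomputable def av (n r B : ℕ) (f : AddCircle (1 : ℝ) → ℂ) (x : AddCircle (1 : ℝ)) : ℂ :=
  (∑ i ∈ Finset.range r, ∑ b ∈ Finset.range B, f (gg n i b • x)) / ((r : ℂ) * (B : ℂ))

/-- The same for real functions. -/
noncomputable def avR (n r B : ℕ) (f : AddCircle (1 : ℝ) → ℝ) (x : AddCircle (1 : ℝ)) : ℝ :=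
  (∑ i ∈ Finset.range r, ∑ b ∈ Finset.range B, f (gg n i b • x)) / ((r : ℝ) * (B : ℝ))

/-- The net of scales: `n(r, j) = 2^(M r) + j r`, `j < JJ M r`. -/
def nn (M r j : ℕ) : ℕ := 2 ^ (M * r) + j * r

/-- Number of scales of the net for the width `r`. -/
def JJ (M r : ℕ) : ℕ := 2 ^ (M * (r + 1)) / r + 2

/-- Sizes of the windows. -/
def SizeP (M : ℕ) (B : ℕ → ℕ) : Prop :=
  ∃ r0 : ℕ, 1 ≤ r0 ∧ ∀ r, r0 ≤ r → 2 ^ (M * r) ≤ 4 * B r ∧ 2 * B r ≤ 2 ^ (M * r)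

/-- Equidistribution of `g δ`. -/
def EquiP (M : ℕ) (B : ℕ → ℕ) : Prop :=
  ∀ m : ℤ, m ≠ 0 → ∀ s : ℕ, ∀ η : ℝ, 0 < η → ∃ r1 : ℕ, ∀ r, r1 ≤ r → ∀ n, 2 ^ (M * r) ≤ n →
    ∀ δ : AddCircle (1 : ℝ), (1 / 2 : ℝ) ^ s ≤ 2 ^ n * ‖δ‖ → 2 ^ n * ‖δ‖ ≤ 2 ^ r →
      ‖av n r (B r) (fourier m) δ‖ ≤ η

/-- The point `x` is generic for the measure `μ` along the windows. -/
def Generic (M : ℕ) (B : ℕ → ℕ) (μ : Measure (AddCircle (1 : ℝ))) (x : AddCircle (1 : ℝ)) : Prop :=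
  ∀ m : ℤ, ∀ ε : ℝ, 0 < ε → ∃ r1 : ℕ, ∀ r, r1 ≤ r → ∀ j, j < JJ M r →
    ‖av (nn M r j) r (B r) (fourier m) x - cf μ m‖ ≤ ε

/-- `|c(m D(v)) - |c(m)|^2|`. -/
noncomputable def dev (μ : Measure (AddCircle (1 : ℝ))) (m : ℤ) (v : ℤ × ℤ) : ℝ :=
  ‖cf μ (m * Dv v) - ((‖cf μ m‖ ^ 2 : ℝ) : ℂ)‖

/-- The least common multiple of `1, …, n`. -/
def lcmN (n : ℕ) : ℕ := (Finset.Icc 1 n).lcm id

/-- `(X - 8)^n (9 - X)^(2n) (12 - X)^(3n)`. -/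
noncomputable def Fp (n : ℕ) : Polynomial ℤ :=
  (Polynomial.X - Polynomial.C 8) ^ n * (Polynomial.C 9 - Polynomial.X) ^ (2 * n) *
    (Polynomial.C 12 - Polynomial.X) ^ (3 * n)

/-- The integrand of the Pade integrals. -/
noncomputable def Ff (n : ℕ) (x : ℝ) : ℝ :=
  (x - 8) ^ n * (9 - x) ^ (2 * n) * (12 - x) ^ (3 * n) / x ^ (3 * n + 1)

end Pool.Agent.Ord2
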