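import Pool.Agent.Ord2.Defs

/-! Module OSC (section 3, OSCILLATION): the derivative of `2^(-t) e(Y 2^t)` is
`-log 2 2^(-t) e(Y 2^t) + 2πi Y log 2 e(Y 2^t)`. And `t ↦ e(Y 2^t)` is Lipschitz with constant `9|Y|` on [0,1]. -/

open MeasureTheory

namespace Pool.Agent.Ord2

/-- `e(Y 2^t)` -/
noncomputable def eY (Y t : ℝ) : ℂ := Complex.exp (2 * Real.pi * Complex.I * (Y * (2 : ℝ) ^ t : ℝ))

theorem eY_norm (Y t : ℝ) : ‖eY Y t‖ = 1 := by
  unfold eY
  have e : (2 * Real.pi * Complex.I * (Y * (2 : ℝ) ^ t : ℝ) : ℂ) =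
      ((2 * Real.pi * (Y * (2 : ℝ) ^ t) : ℝ) : ℂ) * Complex.I := by
    push_cast
    ring
  rw [e, Complex.norm_exp_ofReal_mul_I]

private theorem two_rpow_deriv (t : ℝ) :
    HasDerivAt (fun t : ℝ => (2 : ℝ) ^ t) ((2 : ℝ) ^ t * Real.log 2) t := by
  have h := Real.hasStrictDerivAt_const_rpow (a := (2 : ℝ)) (by norm_num) t
  exact h.hasDerivAt

private theorem two_rpow_neg_deriv (t : ℝ) :
    HasDerivAt (fun t : ℝ => (2 : ℝ) ^ (-t)) (-((2 : ℝ) ^ (-t) * Real.log 2)) t := by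
  have h := (two_rpow_deriv (-t)).comp t (hasDerivAt_neg t)
  have e : (2 : ℝ) ^ (-t) * Real.log 2 * -1 = -((2 : ℝ) ^ (-t) * Real.log 2) := by ring
  rw [e] at h
  exact h

private theorem eY_deriv (Y t : ℝ) :
    HasDerivAt (eY Y) (eY Y t *
      (2 * Real.pi * Complex.I * ((Y * ((2 : ℝ) ^ t * Real.log 2) : ℝ) : ℂ))) t := by
  have h1 : HasDerivAt (fun t : ℝ => ((Y * (2 : ℝ) ^ t : ℝ) : ℂ))
      ((Y * ((2 : ℝ) ^ t * Real.log 2) : ℝ) : ℂ) t :=
    ((two_rpow_deriv t).const_mul Y).ofReal_comp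
  have h2 := (h1.const_mul (2 * Real.pi * Complex.I : ℂ)).cexp
  exact h2

theorem eY_continuous (Y : ℝ) : Continuous (eY Y) := by
  rw [continuous_iff_continuousAt]
  intro t
  exact (eY_deriv Y t).continuousAt

theorem eY_lip (Y : ℝ) (s : ℝ) (hs : s ∈ Set.Icc (0 : ℝ) 1) (t : ℝ) (ht : t ∈ Set.Icc (0 : ℝ) 1) :
    ‖eY Y s - eY Y t‖ ≤ 9 * |Y| * |s - t| := by
  have hb : ∀ x ∈ Set.Icc (0 : ℝ) 1, ‖eY Y x *
      (2 * Real.pi * Complex.I * ((Y * ((2 : ℝ) ^ x * Real.log 2) : ℝ) : ℂ))‖ ≤ 9 * |Y| := by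
    intro x hx
    rw [norm_mul, eY_norm, one_mul, norm_mul, Complex.norm_real, norm_mul, norm_mul, Complex.norm_I,
      mul_one, Complex.norm_real, Real.norm_eq_abs, Real.norm_eq_abs, abs_mul]
    have h1 : (2 : ℝ) ^ x ≤ 2 := by
      calc (2 : ℝ) ^ x ≤ (2 : ℝ) ^ (1 : ℝ) :=
            Real.rpow_le_rpow_of_exponent_le (by norm_num) hx.2
        _ = 2 := Real.rpow_one 2
    have h0 : 0 < (2 : ℝ) ^ x := Real.rpow_pos_of_pos (by norm_num) x
    have h2 : Real.log 2 < 0.6931471808 := Real.log_two_lt_d9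
    have h3 : 0 < Real.log 2 := Real.log_pos (by norm_num)
    have h4 : Real.pi < 3.15 := Real.pi_lt_d2
    have h5 := Real.pi_pos
    rw [abs_of_pos (mul_pos h0 h3), abs_of_pos h5]
    have h6 : ‖(2 : ℂ)‖ = 2 := by simp
    rw [h6]
    have h7 : 2 * Real.pi * ((2 : ℝ) ^ x * Real.log 2) ≤ 9 := by
      have h8 : (2 : ℝ) ^ x * Real.log 2 ≤ 2 * 0.6931471808 :=
        mul_le_mul h1 h2.le h3.le (by norm_num)
      calc 2 * Real.pi * ((2 : ℝ) ^ x * Real.log 2) ≤ 2 * 3.15 * (2 * 0.6931471808) :=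
            mul_le_mul (by linarith) h8 (mul_pos h0 h3).le (by norm_num)
        _ ≤ 9 := by norm_num
    calc 2 * Real.pi * (|Y| * ((2 : ℝ) ^ x * Real.log 2)) =
          (2 * Real.pi * ((2 : ℝ) ^ x * Real.log 2)) * |Y| := by ring
      _ ≤ 9 * |Y| := mul_le_mul_of_nonneg_right h7 (abs_nonneg Y)
  have h := (convex_Icc (0 : ℝ) 1).norm_image_sub_le_of_norm_hasDerivWithin_le
    (f := eY Y) (fun x _ => (eY_deriv Y x).hasDerivWithinAt) hb ht hs
  rw [Real.norm_eq_abs] at h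
  exact h

theorem osc (Y : ℝ) (hY : Y ≠ 0) : ‖∫ t in (0 : ℝ)..1, eY Y t‖ ≤ 1 / |Y| := by
  have h3 : 0 < Real.log 2 := Real.log_pos (by norm_num)
  have h3' : (0.6931471803 : ℝ) < Real.log 2 := Real.log_two_gt_d9
  have h3'' : Real.log 2 < 0.6931471808 := Real.log_two_lt_d9
  have h4 : 3.14 < Real.pi := Real.pi_gt_d2
  have h5 := Real.pi_pos
  have hYp : 0 < |Y| := abs_pos.2 hY
  set g : ℝ → ℂ := fun t => (((2 : ℝ) ^ (-t) : ℝ) : ℂ) * eY Y t with hg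
  set c : ℂ := 2 * Real.pi * Complex.I * ((Y * Real.log 2 : ℝ) : ℂ) with hc
  have hcn : ‖c‖ = 2 * Real.pi * (|Y| * Real.log 2) := by
    rw [hc, norm_mul, Complex.norm_real, norm_mul, norm_mul, Complex.norm_I,
      mul_one, Complex.norm_real, Real.norm_eq_abs, Real.norm_eq_abs, abs_mul, abs_of_pos h3,
      abs_of_pos h5]
    simp
  have hcpos : 0 < ‖c‖ := by rw [hcn]; positivity
  have hc0 : c ≠ 0 := norm_pos_iff.1 hcpos
  have hgd : ∀ t : ℝ, HasDerivAt g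
      (c * eY Y t - ((Real.log 2 : ℝ) : ℂ) * g t) t := by
    intro t
    have h1 := (two_rpow_neg_deriv t).ofReal_comp
    have h2 := h1.mul (eY_deriv Y t)
    have e1 : (2 : ℝ) ^ (-t) * (2 : ℝ) ^ t = 1 := by
      rw [← Real.rpow_add (by norm_num)]
      simp
    have e2 : (((2 : ℝ) ^ (-t) : ℝ) : ℂ) * (((2 : ℝ) ^ t : ℝ) : ℂ) = 1 := by
      rw [← Complex.ofReal_mul, e1, Complex.ofReal_one]
    have e3 : ((-((2 : ℝ) ^ (-t) * Real.log 2) : ℝ) : ℂ) * eY Y t +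
        (((2 : ℝ) ^ (-t) : ℝ) : ℂ) * (eY Y t *
        (2 * Real.pi * Complex.I * ((Y * ((2 : ℝ) ^ t * Real.log 2) : ℝ) : ℂ))) =
        c * eY Y t - ((Real.log 2 : ℝ) : ℂ) * g t := by
      rw [hc, hg]
      simp only [Complex.ofReal_neg, Complex.ofReal_mul]
      have e4 : (((2 : ℝ) ^ (-t) : ℝ) : ℂ) * (eY Y t *
        (2 * Real.pi * Complex.I * ((Y : ℂ) * ((((2 : ℝ) ^ t : ℝ) : ℂ) * (Real.log 2 : ℂ))))) =
        ((((2 : ℝ) ^ (-t) : ℝ) : ℂ) * (((2 : ℝ) ^ t : ℝ) : ℂ)) * (eY Y t *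
        (2 * Real.pi * Complex.I * ((Y : ℂ) * (Real.log 2 : ℂ)))) := by ring
      rw [e4, e2]
      ring
    rw [← e3]
    exact h2
  have hgc : Continuous g := by
    rw [continuous_iff_continuousAt]
    intro t
    exact (hgd t).continuousAt
  have hgn : ∀ t : ℝ, 0 ≤ t → ‖g t‖ ≤ 1 := by
    intro t ht
    rw [hg]
    simp only [norm_mul, eY_norm, mul_one, Complex.norm_real, Real.norm_eq_abs]
    rw [abs_of_pos (Real.rpow_pos_of_pos (by norm_num) _)]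
    exact Real.rpow_le_one_of_one_le_of_nonpos (by norm_num) (by linarith)
  have hint : ∫ t in (0 : ℝ)..1, (c * eY Y t - ((Real.log 2 : ℝ) : ℂ) * g t) = g 1 - g 0 := by
    apply intervalIntegral.integral_eq_sub_of_hasDerivAt
    · intro t _
      exact hgd t
    · exact ((continuous_const.mul (eY_continuous Y)).sub
        (continuous_const.mul hgc)).intervalIntegrable _ _
  have hI1 : IntervalIntegrable (fun t : ℝ => c * eY Y t) volume 0 1 :=
    (continuous_const.mul (eY_continuous Y)).intervalIntegrable _ _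
  have hI2 : IntervalIntegrable (fun t : ℝ => ((Real.log 2 : ℝ) : ℂ) * g t) volume 0 1 :=
    (continuous_const.mul hgc).intervalIntegrable _ _
  rw [intervalIntegral.integral_sub hI1 hI2,
    intervalIntegral.integral_const_mul, intervalIntegral.integral_const_mul] at hint
  have hi : c * ∫ t in (0 : ℝ)..1, eY Y t =
      g 1 - g 0 + ((Real.log 2 : ℝ) : ℂ) * ∫ t in (0 : ℝ)..1, g t := by
    rw [← hint]; ring
  have hgi : ‖∫ t in (0 : ℝ)..1, g t‖ ≤ 1 := by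
    have h := intervalIntegral.norm_integral_le_of_norm_le_const (a := (0 : ℝ)) (b := 1)
      (f := g) (C := 1) (by
        intro t ht
        rw [Set.uIoc_of_le zero_le_one] at ht
        exact hgn t ht.1.le)
    simpa using h
  have hnorm : ‖c‖ * ‖∫ t in (0 : ℝ)..1, eY Y t‖ ≤ 3 := by
    rw [← norm_mul, hi]
    calc ‖g 1 - g 0 + ((Real.log 2 : ℝ) : ℂ) * ∫ t in (0 : ℝ)..1, g t‖
        ≤ ‖g 1 - g 0‖ + ‖((Real.log 2 : ℝ) : ℂ) * ∫ t in (0 : ℝ)..1, g t‖ := norm_add_le _ _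
      _ ≤ (‖g 1‖ + ‖g 0‖) + ‖((Real.log 2 : ℝ) : ℂ)‖ * ‖∫ t in (0 : ℝ)..1, g t‖ := by
          rw [norm_mul]
          exact add_le_add (norm_sub_le _ _) le_rfl
      _ ≤ (1 + 1) + 1 * 1 := by
          have h6 : ‖((Real.log 2 : ℝ) : ℂ)‖ ≤ 1 := by
            rw [Complex.norm_real, Real.norm_eq_abs, abs_of_pos h3]
            linarith
          exact add_le_add (add_le_add (hgn 1 (by norm_num)) (hgn 0 le_rfl))
            (mul_le_mul h6 hgi (norm_nonneg _) (by norm_num))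
      _ = 3 := by norm_num
  have hc3 : 3 * |Y| ≤ ‖c‖ := by
    rw [hcn]
    have h8 : (3 : ℝ) ≤ 2 * Real.pi * Real.log 2 := by
      calc (3 : ℝ) ≤ 2 * 3.14 * 0.6931471803 := by norm_num
        _ ≤ 2 * Real.pi * Real.log 2 :=
          mul_le_mul (by linarith) h3'.le (by norm_num) (by positivity)
    calc 3 * |Y| ≤ (2 * Real.pi * Real.log 2) * |Y| := mul_le_mul_of_nonneg_right h8 hYp.le
      _ = 2 * Real.pi * (|Y| * Real.log 2) := by ring
  rw [le_div_iff₀ hYp]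
  have h9 : 3 * |Y| * ‖∫ t in (0 : ℝ)..1, eY Y t‖ ≤ 3 :=
    (mul_le_mul_of_nonneg_right hc3 (norm_nonneg _)).trans hnorm
  linarith

end Pool.Agent.Ord2
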