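import Pool.Agent.Ord2.Type2

/-! Module PAR (section 2). `M = 8 (τ + 2)`, `Q = 2^(4r)`, Dirichlet (Real.exists_int_int_abs_mul_sub_le or
Real.exists_nat_abs_mul_sub_round_le) gives `1 ≤ q ≤ Q`, `|q α - p| ≤ 1/(Q+1)`; `type_log` gives the lower bound;
`I = ⌊1/|qα-p|⌋`, `B = q I N`, `N = 2^(Mr) / (2 q I)`. -/

namespace Pool.Agent.Ord2

/-- arithmetic data of the windows of width `r` -/
def ParP (M : ℕ) (B : ℕ → ℕ) (r : ℕ) : Prop :=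
  ∃ q : ℕ, ∃ p : ℤ, ∃ N : ℕ, 0 < q ∧ 0 < N ∧ (q : ℝ) * al - p ≠ 0 ∧
    |(q : ℝ) * al - p| ≤ 1 / 2 ^ (4 * r) ∧ B r = q * ⌊1 / |(q : ℝ) * al - p|⌋₊ * N ∧
    2 ^ (M * r) ≤ 4 * B r ∧ 2 * B r ≤ 2 ^ (M * r)

private lemma params_one (c : ℝ) (hc : 0 < c) (τ : ℕ)
    (h : ∀ q : ℕ, 1 ≤ q → ∀ p : ℤ, c / (q : ℝ) ^ τ ≤ |(q : ℝ) * al - p|)
    (r : ℕ) (hr : 1 ≤ r) (hr2 : 4 / c ≤ 2 ^ r) :
    ∃ b : ℕ, ∃ q : ℕ, ∃ p : ℤ, ∃ N : ℕ, 0 < q ∧ 0 < N ∧ (q : ℝ) * al - p ≠ 0 ∧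
      |(q : ℝ) * al - p| ≤ 1 / 2 ^ (4 * r) ∧ b = q * ⌊1 / |(q : ℝ) * al - p|⌋₊ * N ∧
      2 ^ (8 * (τ + 2) * r) ≤ 4 * b ∧ 2 * b ≤ 2 ^ (8 * (τ + 2) * r) := by
  obtain ⟨p, k, hk, hkn, hkp⟩ := Real.exists_int_int_abs_mul_sub_le al
    (show (0 : ℕ) < 2 ^ (4 * r) by positivity)
  obtain ⟨q, rfl⟩ : ∃ q : ℕ, k = q := ⟨k.toNat, by omega⟩
  have hq : 1 ≤ q := by omega
  have hqQ : q ≤ 2 ^ (4 * r) := by exact_mod_cast hkn
  have hqR : (1 : ℝ) ≤ q := by exact_mod_cast hq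
  have hqQR : (q : ℝ) ≤ 2 ^ (4 * r) := by exact_mod_cast hqQ
  have hkp' : |(q : ℝ) * al - p| ≤ 1 / ((2 : ℝ) ^ (4 * r) + 1) := by
    have := hkp
    push_cast at this
    exact this
  set e := |(q : ℝ) * al - p| with he
  have hlow : c / (q : ℝ) ^ τ ≤ e := h q hq p
  have he0 : 0 < e := lt_of_lt_of_le (by positivity) hlow
  have hle : e ≤ 1 / 2 ^ (4 * r) := by
    refine hkp'.trans ?_
    apply one_div_le_one_div_of_le (by positivity)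
    linarith
  have hinv : 1 / e ≤ (2 : ℝ) ^ (4 * r * τ) / c := by
    have h1 : c / (2 : ℝ) ^ (4 * r * τ) ≤ e := by
      refine le_trans ?_ hlow
      apply div_le_div_of_nonneg_left hc.le (by positivity)
      calc (q : ℝ) ^ τ ≤ (2 ^ (4 * r)) ^ τ := by gcongr
        _ = 2 ^ (4 * r * τ) := by rw [← pow_mul]
    calc 1 / e ≤ 1 / (c / (2 : ℝ) ^ (4 * r * τ)) := one_div_le_one_div_of_le (by positivity) h1
      _ = (2 : ℝ) ^ (4 * r * τ) / c := by rw [one_div_div]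
  have hone : 1 ≤ 1 / e := by
    rw [le_div_iff₀ he0, one_mul]
    refine hle.trans ?_
    rw [div_le_one (by positivity)]
    exact one_le_pow₀ (by norm_num)
  set I := ⌊1 / e⌋₊ with hI
  have hI1 : 1 ≤ I := by
    rw [hI]; exact (Nat.one_le_floor_iff _).2 hone
  have hIle : (I : ℝ) ≤ (2 : ℝ) ^ (4 * r * τ) / c :=
    (Nat.floor_le (by positivity)).trans hinv
  set Z := 2 ^ (8 * (τ + 2) * r) with hZ
  have hbig : 4 * (q * I) ≤ Z := by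
    have : (4 : ℝ) * ((q : ℝ) * I) ≤ (2 : ℝ) ^ (8 * (τ + 2) * r) := by
      calc (4 : ℝ) * ((q : ℝ) * I) ≤ 4 * (2 ^ (4 * r) * ((2 : ℝ) ^ (4 * r * τ) / c)) := by gcongr
        _ = (4 / c) * (2 : ℝ) ^ (4 * r + 4 * r * τ) := by rw [pow_add]; ring
        _ ≤ 2 ^ r * (2 : ℝ) ^ (4 * r + 4 * r * τ) := by gcongr
        _ = (2 : ℝ) ^ (r + (4 * r + 4 * r * τ)) := by rw [← pow_add]
        _ ≤ (2 : ℝ) ^ (8 * (τ + 2) * r) := by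
          apply pow_le_pow_right₀ (by norm_num)
          nlinarith [Nat.zero_le (r * τ)]
    have h2 : ((4 * (q * I) : ℕ) : ℝ) ≤ ((2 ^ (8 * (τ + 2) * r) : ℕ) : ℝ) := by
      push_cast; exact this
    rw [hZ]
    exact_mod_cast h2
  have hqI : 0 < q * I := Nat.mul_pos (by omega) (by omega)
  refine ⟨q * I * (Z / (2 * (q * I))), q, p, Z / (2 * (q * I)), by omega, ?_, ?_, hle, rfl, ?_, ?_⟩
  · apply Nat.div_pos _ (by omega)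
    omega
  · intro h0
    rw [he, h0, abs_zero] at he0
    exact lt_irrefl _ he0
  · have hmod := Nat.div_add_mod Z (2 * (q * I))
    have hlt := Nat.mod_lt Z (show 0 < 2 * (q * I) by omega)
    have e1 : 4 * (q * I * (Z / (2 * (q * I)))) = 2 * (2 * (q * I) * (Z / (2 * (q * I)))) := by ring
    rw [e1]
    omega
  · have e1 : 2 * (q * I * (Z / (2 * (q * I)))) = (2 * (q * I)) * (Z / (2 * (q * I))) := by ring
    rw [e1]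
    exact Nat.mul_div_le Z (2 * (q * I))

theorem params : ∃ M : ℕ, 1 ≤ M ∧ ∃ B : ℕ → ℕ, ∃ r0 : ℕ, 1 ≤ r0 ∧ ∀ r, r0 ≤ r → ParP M B r := by
  classical
  obtain ⟨c, hc, τ, h⟩ := type_log
  obtain ⟨r1, hr1⟩ := pow_unbounded_of_one_lt (4 / c) (show (1 : ℝ) < 2 by norm_num)
  have key : ∀ r, r1 + 1 ≤ r → ∃ b : ℕ, ∃ q : ℕ, ∃ p : ℤ, ∃ N : ℕ, 0 < q ∧ 0 < N ∧
      (q : ℝ) * al - p ≠ 0 ∧
      |(q : ℝ) * al - p| ≤ 1 / 2 ^ (4 * r) ∧ b = q * ⌊1 / |(q : ℝ) * al - p|⌋₊ * N ∧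
      2 ^ (8 * (τ + 2) * r) ≤ 4 * b ∧ 2 * b ≤ 2 ^ (8 * (τ + 2) * r) := by
    intro r hr
    apply params_one c hc τ h r (by omega)
    refine hr1.le.trans ?_
    exact pow_le_pow_right₀ (by norm_num) (by omega)
  choose! B hB using key
  exact ⟨8 * (τ + 2), by omega, B, r1 + 1, by omega, fun r hr => hB r hr⟩

end Pool.Agent.Ord2
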