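import Pool.Agent.Ord2.Rie
import Pool.Agent.Ord2.Osc
import Pool.Agent.Ord2.Par
import Pool.Agent.Ord2.Arith

/-! Module EQ1. For one `X`: the mean over `b < B = qIN` of `e(Y θ_b)`, `θ_b = 2^{bα}`. With `b = t q I + b0 + i q`:
`b α ≡ t0 + i (q α - p)` mod 1. -/

namespace Pool.Agent.Ord2

theorem eq_one {M : ℕ} {B : ℕ → ℕ} {r : ℕ} (h : ParP M B r) (Y : ℝ) (hY : Y ≠ 0) :
    ‖(∑ b ∈ Finset.range (B r), Complex.exp (2 * Real.pi * Complex.I * (Y * th b : ℝ))) / (B r : ℂ)‖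
      ≤ 1 / |Y| + (9 * |Y| + 6) / 2 ^ (4 * r) := by
  obtain ⟨q, p, N, hq, hN, hω, hω1, hB, -, -⟩ := h
  set ω : ℝ := (q : ℝ) * al - p with hωdef
  set I : ℕ := ⌊1 / |ω|⌋₊ with hI
  have hωpos : 0 < |ω| := abs_pos.2 hω
  have hωle : |ω| ≤ 1 := by
    refine hω1.trans ?_
    rw [div_le_one (by positivity)]
    exact one_le_pow₀ (by norm_num)
  have hIpos : 0 < I := by
    rw [hI, Nat.floor_pos, le_div_iff₀ hωpos, one_mul]
    exact hωle
  have hIpos' : (0 : ℝ) < (I : ℝ) := by exact_mod_cast hIpos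
  set E : ℝ := 1 / |Y| + (9 * |Y| + 6) / 2 ^ (4 * r) with hE
  have hkey : ∀ t0 : ℝ, ‖∑ i ∈ Finset.range I, eY Y (Int.fract (t0 + i * ω))‖ ≤ (I : ℝ) * E := by
    intro t0
    have h1 := rie (eY Y) (9 * |Y|) (by positivity) (eY_continuous Y).continuousOn
      (fun s hs t ht => eY_lip Y s hs t ht) (fun s _ => (eY_norm Y s).le) t0 ω hω hωle
    rw [← hI] at h1
    have h2 : ‖(∑ i ∈ Finset.range I, eY Y (Int.fract (t0 + i * ω))) / (I : ℂ)‖ ≤ E := by
      calc ‖(∑ i ∈ Finset.range I, eY Y (Int.fract (t0 + i * ω))) / (I : ℂ)‖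
          = ‖((∑ i ∈ Finset.range I, eY Y (Int.fract (t0 + i * ω))) / (I : ℂ) -
              ∫ t in (0 : ℝ)..1, eY Y t) + ∫ t in (0 : ℝ)..1, eY Y t‖ := by
            rw [sub_add_cancel]
        _ ≤ (9 * |Y| + 6) * |ω| + 1 / |Y| := (norm_add_le _ _).trans (add_le_add h1 (osc Y hY))
        _ ≤ (9 * |Y| + 6) * (1 / 2 ^ (4 * r)) + 1 / |Y| := by
            have := mul_le_mul_of_nonneg_left hω1 (by positivity : 0 ≤ 9 * |Y| + 6)
            linarith
        _ = E := by rw [hE]; ring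
    rw [norm_div, Complex.norm_natCast, div_le_iff₀ hIpos'] at h2
    linarith
  have hterm : ∀ t b0 i : ℕ,
      Complex.exp (2 * Real.pi * Complex.I * (Y * th (t * (q * I) + b0 + i * q) : ℝ)) =
        eY Y (Int.fract (((t * (q * I) + b0 : ℕ) : ℝ) * al + i * ω)) := by
    intro t b0 i
    have e1 : ((t * (q * I) + b0 + i * q : ℕ) : ℝ) * al =
        (((t * (q * I) + b0 : ℕ) : ℝ) * al + i * ω) + (((i : ℤ) * p : ℤ) : ℝ) := by
      rw [hωdef]
      push_cast
      ring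
    have e2 : Int.fract (((t * (q * I) + b0 + i * q : ℕ) : ℝ) * al) =
        Int.fract (((t * (q * I) + b0 : ℕ) : ℝ) * al + i * ω) := by
      rw [e1, Int.fract_add_intCast]
    unfold eY th
    rw [e2]
  rw [hB, sum_blocks q I N (fun b => Complex.exp (2 * Real.pi * Complex.I * (Y * th b : ℝ)))]
  have hBpos : (0 : ℝ) < ((q * I * N : ℕ) : ℝ) := by
    have : 0 < q * I * N := Nat.mul_pos (Nat.mul_pos hq hIpos) hN
    exact_mod_cast this
  rw [norm_div, Complex.norm_natCast, div_le_iff₀ hBpos]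
  calc ‖∑ t ∈ Finset.range N, ∑ b0 ∈ Finset.range q, ∑ i ∈ Finset.range I,
        Complex.exp (2 * Real.pi * Complex.I * (Y * th (t * (q * I) + b0 + i * q) : ℝ))‖
      ≤ ∑ t ∈ Finset.range N, ∑ b0 ∈ Finset.range q, ((I : ℝ) * E) := by
        refine (norm_sum_le _ _).trans (Finset.sum_le_sum fun t _ => ?_)
        refine (norm_sum_le _ _).trans (Finset.sum_le_sum fun b0 _ => ?_)
        rw [Finset.sum_congr rfl (fun i _ => hterm t b0 i)]
        exact hkey _
    _ = E * ((q * I * N : ℕ) : ℝ) := by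
        rw [Finset.sum_const, Finset.sum_const, Finset.card_range, Finset.card_range, nsmul_eq_mul,
          nsmul_eq_mul]
        push_cast
        ring

end Pool.Agent.Ord2
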