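import Pool.Agent.Ord2.Sum2

/-! Module GEN. Almost every point is generic: the sum of the squares is finite a.e. (lintegral_tsum, ae_lt_top), so it
tends to 0; `m = 0` is trivial (the average is 1 = cf μ 0, B r > 0, r > 0). -/

open MeasureTheory
open scoped ENNReal

namespace Pool.Agent.Ord2

private theorem GEN_cont (n r B : ℕ) (m : ℤ) : Continuous (av n r B (fourier m)) := by
  unfold av
  apply Continuous.div_const
  refine continuous_finsetSum _ (fun i _ => continuous_finsetSum _ (fun b _ => ?_))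
  exact (fourier m).continuous.comp (continuous_nsmul _)

private theorem GEN_zero (μ : Measure (AddCircle (1 : ℝ))) [IsProbabilityMeasure μ] (n r B : ℕ)
    (hr : 0 < r) (hB : 0 < B) (x : AddCircle (1 : ℝ)) : av n r B (fourier 0) x - cf μ 0 = 0 := by
  have h1 : cf μ 0 = 1 := by
    unfold cf
    simp
  have h2 : av n r B (fourier 0) x = 1 := by
    unfold av
    have hr' : (r : ℂ) ≠ 0 := by exact_mod_cast hr.ne'
    have hB' : (B : ℂ) ≠ 0 := by exact_mod_cast hB.ne'
    simp only [fourier_zero, Finset.sum_const, Finset.card_range, nsmul_eq_mul, mul_one]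
    exact div_self (mul_ne_zero hr' hB')
  rw [h1, h2, sub_self]

theorem ae_generic (μ : Measure (AddCircle (1 : ℝ))) [IsProbabilityMeasure μ]
    (M : ℕ) (hM : 1 ≤ M) (B : ℕ → ℕ) (hB : SizeP M B)
    (h : ∀ m : ℤ, m ≠ 0 → ProfP μ m) :
    ∀ᵐ x ∂μ, Generic M B μ x := by
  unfold Generic
  rw [ae_all_iff]
  intro m
  by_cases hm : m = 0
  · subst hm
    obtain ⟨r0, hr0, hS⟩ := hB
    refine Filter.Eventually.of_forall (fun x ε hε => ⟨r0, fun r hr j _ => ?_⟩)
    obtain ⟨hs1, hs2⟩ := hS r hr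
    have hBpos : 0 < B r := by
      have : 0 < 2 ^ (M * r) := by positivity
      omega
    rw [GEN_zero μ _ r (B r) (by omega) hBpos x, norm_zero]
    exact hε.le
  · obtain ⟨V, hV, hVfin⟩ := h m hm
    obtain ⟨r0, hfin⟩ := sum_net_V μ M hM B hB m V hV hVfin
    set F : ℕ → AddCircle (1 : ℝ) → ℝ≥0∞ := fun r x => ∑ j ∈ Finset.range (JJ M (r + r0)),
      ENNReal.ofReal
        (‖av (nn M (r + r0) j) (r + r0) (B (r + r0)) (fourier m) x - cf μ m‖ ^ 2) with hF
    have hmeas : ∀ r j : ℕ, Measurable (fun x : AddCircle (1 : ℝ) => ENNReal.ofReal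
        (‖av (nn M (r + r0) j) (r + r0) (B (r + r0)) (fourier m) x - cf μ m‖ ^ 2)) := by
      intro r j
      apply Measurable.ennreal_ofReal
      exact (((GEN_cont _ _ _ m).sub continuous_const).norm.pow 2).measurable
    have hFm : ∀ r, Measurable (F r) := fun r =>
      Finset.measurable_sum _ (fun j _ => hmeas r j)
    have hint : ∫⁻ x, ∑' r, F r x ∂μ ≠ ⊤ := by
      rw [lintegral_tsum (fun r => (hFm r).aemeasurable)]
      have e : ∀ r, ∫⁻ x, F r x ∂μ = ∑ j ∈ Finset.range (JJ M (r + r0)),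
          ∫⁻ x, ENNReal.ofReal
            (‖av (nn M (r + r0) j) (r + r0) (B (r + r0)) (fourier m) x - cf μ m‖ ^ 2) ∂μ := by
        intro r
        exact lintegral_finsetSum _ (fun j _ => hmeas r j)
      simp only [e]
      exact hfin
    have hae := ae_lt_top (Measurable.tsum hFm) hint
    filter_upwards [hae] with x hx ε hε
    have htend := ENNReal.tendsto_atTop_zero_of_tsum_ne_top hx.ne
    have hev := htend.eventually (gt_mem_nhds (show (0 : ℝ≥0∞) < ENNReal.ofReal (ε ^ 2) by
      rw [ENNReal.ofReal_pos]; positivity))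
    obtain ⟨r1, hr1⟩ := Filter.eventually_atTop.1 hev
    refine ⟨r1 + r0, fun r hr j hj => ?_⟩
    obtain ⟨r', rfl⟩ : ∃ r', r = r' + r0 := ⟨r - r0, by omega⟩
    have h4 := hr1 r' (by omega)
    have h5 : ENNReal.ofReal
        (‖av (nn M (r' + r0) j) (r' + r0) (B (r' + r0)) (fourier m) x - cf μ m‖ ^ 2) ≤ F r' x :=
      Finset.single_le_sum (f := fun j => ENNReal.ofReal
        (‖av (nn M (r' + r0) j) (r' + r0) (B (r' + r0)) (fourier m) x - cf μ m‖ ^ 2))
        (fun _ _ => zero_le) (Finset.mem_range.2 hj)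
    have h6 := h5.trans h4.le
    rw [ENNReal.ofReal_le_ofReal_iff (by positivity)] at h6
    exact abs_le_of_sq_le_sq' h6 hε.le |>.2

end Pool.Agent.Ord2
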