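import Pool.Agent.Ord2.Defs

/-! Module NET. Every large scale `n` is close to a scale of the net: `2^(Mr) ≤ n < 2^(M(r+1))`,
`j = (n - 2^(Mr) + r - 1)/r`. -/

namespace Pool.Agent.Ord2

theorem net (M : ℕ) (hM : 1 ≤ M) (r1 : ℕ) : ∃ n1 : ℕ, ∀ n, n1 ≤ n → ∃ r, r1 ≤ r ∧ 1 ≤ r ∧
    ∃ j, j < JJ M r ∧ n ≤ nn M r j ∧ nn M r j < n + r := by
  refine ⟨2 ^ (M * (r1 + 1)), fun n hn => ?_⟩
  have hn0 : n ≠ 0 := by
    have : 0 < 2 ^ (M * (r1 + 1)) := by positivity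
    omega
  have hlog : M * (r1 + 1) ≤ Nat.log 2 n := Nat.le_log_of_pow_le (by norm_num) hn
  set r := Nat.log 2 n / M with hr
  have hr1 : r1 + 1 ≤ r := by
    rw [hr, Nat.le_div_iff_mul_le (by omega), mul_comm]
    exact hlog
  have hA : 2 ^ (M * r) ≤ n :=
    (Nat.pow_le_pow_right (by norm_num) (Nat.mul_div_le _ _)).trans (Nat.pow_log_le_self 2 hn0)
  have hB : n < 2 ^ (M * (r + 1)) := by
    have h1 : n < 2 ^ (Nat.log 2 n + 1) := Nat.lt_pow_succ_log_self (show 1 < 2 by norm_num) n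
    refine h1.trans_le ?_
    apply Nat.pow_le_pow_right (by norm_num)
    exact Nat.lt_mul_div_succ _ (by omega)
  have hf : 0 < 2 ^ (M * r) := by positivity
  refine ⟨r, by omega, by omega, (n - 2 ^ (M * r) + r - 1) / r, ?_, ?_, ?_⟩
  · unfold JJ
    have h1 : (n - 2 ^ (M * r) + r - 1) / r ≤ (2 ^ (M * (r + 1)) + r) / r :=
      Nat.div_le_div_right (by omega)
    rw [Nat.add_div_right _ (by omega)] at h1
    omega
  · unfold nn
    have h1 := Nat.lt_div_mul_add (a := n - 2 ^ (M * r) + r - 1) (b := r) (by omega)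
    omega
  · unfold nn
    have h1 := Nat.div_mul_le_self (n - 2 ^ (M * r) + r - 1) r
    omega

theorem le_nn (M r j : ℕ) : 2 ^ (M * r) ≤ nn M r j := by
  unfold nn
  omega

/-- distances: from the scale `n` to the scale `n'` of the net -/
theorem net_dist {n n' r s : ℕ} (h1 : n ≤ n') (h2 : n' < n + r) {d : ℝ} (hd1 : (1 / 2 : ℝ) ^ (n + s) ≤ d)
    (hd2 : d ≤ (1 / 2 : ℝ) ^ n) : (1 / 2 : ℝ) ^ s ≤ 2 ^ n' * d ∧ 2 ^ n' * d ≤ 2 ^ r := by
  have hd0 : 0 ≤ d := le_trans (by positivity) hd1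
  have e0 : (2 : ℝ) ^ n * (1 / 2 : ℝ) ^ n = 1 := by
    rw [← mul_pow]
    norm_num
  constructor
  · calc (1 / 2 : ℝ) ^ s = 2 ^ n * ((1 / 2 : ℝ) ^ (n + s)) := by
          rw [pow_add, ← mul_assoc, e0, one_mul]
      _ ≤ 2 ^ n' * d := by
          apply mul_le_mul (pow_le_pow_right₀ (by norm_num) h1) hd1 (by positivity) (by positivity)
  · calc (2 : ℝ) ^ n' * d ≤ 2 ^ (n + r) * (1 / 2 : ℝ) ^ n := by
          apply mul_le_mul (pow_le_pow_right₀ (by norm_num) h2.le) hd2 hd0 (by positivity)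
      _ = 2 ^ r := by
          rw [pow_add, mul_comm ((2 : ℝ) ^ n), mul_assoc, e0, mul_one]

end Pool.Agent.Ord2
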