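import Pool.Agent.Ord2.Final
import Pool.Agent.Ord2.PolyS
import Pool.Agent.Ord2.Bes

/-!
# Correlations of order two with a summable rate, or a Bessel bound, characterise Lebesgue measure among
the atomless measures invariant under `x ↦ 2 x` and `x ↦ 3 x`
-/

open MeasureTheory

namespace Pool.Agent.Ord2.OrderTwo

/-- The Fourier coefficient `∫ e(n x) dμ(x)`. -/
noncomputable def coef (μ : Measure (AddCircle (1 : ℝ))) (n : ℤ) : ℂ := ∫ x, fourier n x ∂μ

/-- For `v = (p, q)`: the integer `2 ^ p⁺ * 3 ^ q⁺ - 2 ^ p⁻ * 3 ^ q⁻`, where `t⁺ = max t 0` and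
`t⁻ = max (-t) 0`. -/
def diffNum (v : ℤ × ℤ) : ℤ :=
  2 ^ v.1.toNat * 3 ^ v.2.toNat - 2 ^ (-v.1).toNat * 3 ^ (-v.2).toNat

/-- For a probability measure `μ` without atoms on the circle which is invariant under `x ↦ 2 x` and
`x ↦ 3 x`, and for every `κ > 1`, the following are equivalent: `μ` is Lebesgue measure; for every
`m ≠ 0` the sum over `v = (p, q)` of `|c(m D(v)) - |c(m)|²| / (1 + |p log 2 + q log 3|)` is finite;
for every `m ≠ 0` there is a constant `C` with `|c(m D(v)) - |c(m)|²| ≤ C (1 + |p| + |q|) ^ (-κ)` for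
all `v = (p, q)`; for every `m ≠ 0` the functions `e(m 2^s 3^t x) - c(m)` of `x`, `s, t ≥ 0`, form a
Bessel sequence in `L²(μ)`: there is a constant `C` such that
`∫ |∑ a(s, t) (e(m 2^s 3^t x) - c(m))|² dμ ≤ C ∑ |a(s, t)|²` for all finite families of complex
numbers. Here `c(n) = coef μ n` and `D(v) = diffNum v`. -/
theorem result (μ : Measure (AddCircle (1 : ℝ))) (hμ : IsProbabilityMeasure μ)
    (hna : ∀ x, μ {x} = 0)
    (h2 : MeasurePreserving (fun x : AddCircle (1 : ℝ) => (2 : ℕ) • x) μ μ)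
    (h3 : MeasurePreserving (fun x : AddCircle (1 : ℝ) => (3 : ℕ) • x) μ μ)
    (κ : ℝ) (hκ : 1 < κ) :
    (μ = volume ↔ ∀ m : ℤ, m ≠ 0 → Summable fun v : ℤ × ℤ =>
      ‖coef μ (m * diffNum v) - ((‖coef μ m‖ ^ 2 : ℝ) : ℂ)‖ /
        (1 + |(v.1 : ℝ) * Real.log 2 + (v.2 : ℝ) * Real.log 3|)) ∧
    (μ = volume ↔ ∀ m : ℤ, m ≠ 0 → ∃ C : ℝ, ∀ v : ℤ × ℤ,
      ‖coef μ (m * diffNum v) - ((‖coef μ m‖ ^ 2 : ℝ) : ℂ)‖ ≤
        C * (1 + |(v.1 : ℝ)| + |(v.2 : ℝ)|) ^ (-κ)) ∧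
    (μ = volume ↔ ∀ m : ℤ, m ≠ 0 → ∃ C : ℝ, ∀ (S : Finset (ℕ × ℕ)) (a : ℕ × ℕ → ℂ),
      ∫ x, ‖∑ p ∈ S, a p * (fourier (m * (2 ^ p.1 * 3 ^ p.2)) x - coef μ m)‖ ^ 2 ∂μ ≤
        C * ∑ p ∈ S, ‖a p‖ ^ 2) := by
  have hl2 : (0 : ℝ) < Real.log 2 := Real.log_pos (by norm_num)
  have hl2' : Real.log 2 < 1 := by
    have := Real.log_two_lt_d9
    linarith
  have hdev : ∀ (ν : Measure (AddCircle (1 : ℝ))) (m : ℤ) (v : ℤ × ℤ),
      ‖coef ν (m * diffNum v) - ((‖coef ν m‖ ^ 2 : ℝ) : ℂ)‖ = Ord2.dev ν m v := fun _ _ _ => rfl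
  -- comparison of the two weights
  have hlv : ∀ v : ℤ × ℤ, |(v.1 : ℝ) * Real.log 2 + (v.2 : ℝ) * Real.log 3| ≤ |Ord2.lv v| := by
    intro v
    have e : (v.1 : ℝ) * Real.log 2 + (v.2 : ℝ) * Real.log 3 = Real.log 2 * Ord2.lv v := by
      unfold Ord2.lv Ord2.al
      field_simp
    rw [e, abs_mul, abs_of_pos hl2]
    exact mul_le_of_le_one_left (abs_nonneg _) hl2'.le
  have hnn : ∀ (m : ℤ) (v : ℤ × ℤ), 0 ≤ Ord2.dev μ m v := fun _ _ => norm_nonneg _
  have key : (∀ m : ℤ, m ≠ 0 → Summable fun v : ℤ × ℤ => Ord2.dev μ m v / (1 + |Ord2.lv v|)) →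
      μ = volume := by
    intro h
    exact Ord2.eq_volume μ fun m hm =>
      Ord2.main μ hna (fun k hk => Ord2.prof_of_summable μ h2 h3 k (h k hk)) m hm
  refine ⟨⟨?_, ?_⟩, ⟨?_, ?_⟩, ⟨?_, ?_⟩⟩
  · intro h m hm
    rw [h]
    simp only [hdev, Ord2.dev_volume m hm]
    apply summable_of_ne_finset_zero (s := {(0 : ℤ × ℤ)})
    intro v hv
    rw [Finset.mem_singleton] at hv
    simp [hv]
  · intro h
    apply key
    intro m hm
    refine Summable.of_nonneg_of_le (fun v => ?_) (fun v => ?_) (h m hm)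
    · exact div_nonneg (hnn m v) (by positivity)
    · rw [hdev]
      apply div_le_div_of_nonneg_left (hnn m v) (by positivity)
      have := hlv v
      linarith
  · intro h m hm
    rw [h]
    refine ⟨1, fun v => ?_⟩
    rw [hdev, Ord2.dev_volume m hm, one_mul]
    by_cases hv : v = 0
    · rw [if_pos hv, hv]
      simp
    · rw [if_neg hv]
      positivity
  · intro h
    apply key
    intro m hm
    obtain ⟨C, hC⟩ := h m hm
    refine Summable.of_nonneg_of_le (fun v => ?_) (fun v => ?_)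
      ((Ord2.summable_poly κ hκ).mul_left C)
    · exact div_nonneg (hnn m v) (by positivity)
    · rw [← mul_div_assoc]
      apply div_le_div_of_nonneg_right _ (by positivity)
      have := hC v
      rwa [hdev] at this
  · intro h m hm
    rw [h]
    exact Ord2.bessel_volume m hm
  · intro h
    exact Ord2.eq_volume μ fun m hm =>
      Ord2.main μ hna (fun k hk => Ord2.prof_of_bessel μ k (h k hk)) m hm

end Pool.Agent.Ord2.OrderTwo
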