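import Pool.Agent.Ord2.Defs

/-! Module RIE (section 3, RIEMANN). `Φ : [0,1] → ℂ` Lipschitz with constant `L`, bounded by 1; the points
`fract (t0 + i ω)`, `i < I = ⌊1/ε⌋`, `|ω| = ε`. For `ω < 0` reverse the order. The half open intervals
`[t0+iε, t0+(i+1)ε)` have total length `Iε ∈ (1-ε, 1]`; at most one of them contains an integer in its interior. -/

open MeasureTheory

namespace Pool.Agent.Ord2

private theorem rie_bad_card (t0 ε : ℝ) (hε : 0 < ε) (I : ℕ) (hI : (I : ℝ) * ε ≤ 1)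
    [DecidablePred fun i : ℕ => ∃ k : ℤ, t0 + i * ε < k ∧ (k : ℝ) < t0 + (i + 1) * ε] :
    ((Finset.range I).filter fun i : ℕ =>
      ∃ k : ℤ, t0 + i * ε < k ∧ (k : ℝ) < t0 + (i + 1) * ε).card ≤ 1 := by
  rw [Finset.card_le_one]
  have key : ∀ i j : ℕ, i < j → j < I → (∃ k : ℤ, t0 + i * ε < k ∧ (k : ℝ) < t0 + (i + 1) * ε) →
      (∃ k : ℤ, t0 + j * ε < k ∧ (k : ℝ) < t0 + (j + 1) * ε) → False := by
    rintro i j hij hj ⟨k, hk1, hk2⟩ ⟨l, hl1, hl2⟩
    have h1 : ((i : ℝ) + 1) ≤ j := by exact_mod_cast hij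
    have h2 : ((j : ℝ) + 1) ≤ I := by exact_mod_cast hj
    have h3 : ((i : ℝ) + 1) * ε ≤ j * ε := mul_le_mul_of_nonneg_right h1 hε.le
    have h4 : ((j : ℝ) + 1) * ε ≤ I * ε := mul_le_mul_of_nonneg_right h2 hε.le
    have h5 : 0 ≤ (i : ℝ) * ε := by positivity
    have h6 : (k : ℝ) < l := by linarith
    have h7 : (k : ℤ) + 1 ≤ l := by exact_mod_cast h6
    have h8 : (k : ℝ) + 1 ≤ l := by exact_mod_cast h7
    linarith
  intro i hi j hj
  rw [Finset.mem_filter, Finset.mem_range] at hi hj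
  rcases lt_trichotomy i j with h | h | h
  · exact (key i j h hj.1 hi.2 hj.2).elim
  · exact h
  · exact (key j i h hi.1 hj.2 hi.2).elim

private theorem rie_pos (Φ : ℝ → ℂ) (L : ℝ) (hL : 0 ≤ L) (hc : Continuous Φ)
    (hLip : ∀ s ∈ Set.Icc (0 : ℝ) 1, ∀ t ∈ Set.Icc (0 : ℝ) 1, ‖Φ s - Φ t‖ ≤ L * |s - t|)
    (hb : ∀ s ∈ Set.Icc (0 : ℝ) 1, ‖Φ s‖ ≤ 1)
    (t0 ε : ℝ) (hε : 0 < ε) (hε1 : ε ≤ 1) :
    ‖(∑ i ∈ Finset.range ⌊1 / ε⌋₊, Φ (Int.fract (t0 + i * ε))) / (⌊1 / ε⌋₊ : ℂ)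
      - ∫ t in (0 : ℝ)..1, Φ t‖ ≤ (L + 6) * ε := by
  classical
  set I : ℕ := ⌊1 / ε⌋₊ with hIdef
  have hI1 : (I : ℝ) * ε ≤ 1 := by
    have := Nat.floor_le (show 0 ≤ 1 / ε by positivity)
    rwa [← hIdef, le_div_iff₀ hε] at this
  have hI2 : 1 - ε < (I : ℝ) * ε := by
    have := Nat.lt_floor_add_one (1 / ε)
    rw [← hIdef, div_lt_iff₀ hε] at this
    linarith
  have hIpos : 0 < I := by
    rw [hIdef]
    apply Nat.floor_pos.mpr
    rw [le_div_iff₀ hε]
    linarith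
  set ψ : ℝ → ℂ := fun t => Φ (Int.fract t) with hψ
  have hψm : Measurable ψ := hc.measurable.comp measurable_fract
  have hfr : ∀ t : ℝ, Int.fract t ∈ Set.Icc (0 : ℝ) 1 := fun t =>
    ⟨Int.fract_nonneg t, (Int.fract_lt_one t).le⟩
  have hψb : ∀ t, ‖ψ t‖ ≤ 1 := fun t => hb _ (hfr t)
  have hψi : ∀ a b : ℝ, IntervalIntegrable ψ volume a b := by
    intro a b
    rw [intervalIntegrable_iff]
    apply Measure.integrableOn_of_bounded (M := 1)
    · exact (measure_mono Set.uIoc_subset_uIcc).trans_lt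
        isCompact_uIcc.measure_lt_top |>.ne
    · exact hψm.aestronglyMeasurable
    · exact Filter.Eventually.of_forall hψb
  have hper : Function.Periodic ψ 1 := by
    intro t
    simp only [hψ, Int.fract_add_one]
  have hint01 : ∫ t in (0 : ℝ)..1, Φ t = ∫ t in t0..(t0 + 1), ψ t := by
    have h1 := hper.intervalIntegral_add_eq t0 0
    rw [zero_add] at h1
    rw [h1]
    apply intervalIntegral.integral_congr_ae
    have : ∀ᵐ t : ℝ, t ≠ 1 := by
      rw [ae_iff]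
      simp
    filter_upwards [this] with t ht ht2
    rw [Set.uIoc_of_le zero_le_one] at ht2
    have : Int.fract t = t := by
      rw [Int.fract_eq_self]
      exact ⟨ht2.1.le, lt_of_le_of_ne ht2.2 ht⟩
    simp only [hψ, this]
  -- single pieces
  set S : ℕ → ℝ := fun i => t0 + i * ε with hS
  have hstep : ∀ i, S (i + 1) = S i + ε := by
    intro i; simp only [hS]; push_cast; ring
  let bad : ℕ → Prop := fun i => ∃ k : ℤ, t0 + i * ε < k ∧ (k : ℝ) < t0 + (i + 1) * ε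
  have hpiece : ∀ i, ‖(ε : ℂ) * ψ (S i) - ∫ t in (S i)..(S (i + 1)), ψ t‖ ≤
      L * ε ^ 2 + (if bad i then 2 * ε else 0) := by
    intro i
    have e1 : (ε : ℂ) * ψ (S i) = ∫ _t in (S i)..(S (i + 1)), ψ (S i) := by
      rw [intervalIntegral.integral_const, hstep]
      simp
    rw [e1, ← intervalIntegral.integral_sub intervalIntegrable_const (hψi _ _)]
    by_cases hbad : bad i
    · rw [if_pos hbad]
      have := intervalIntegral.norm_integral_le_of_norm_le_const (a := S i) (b := S (i + 1))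
        (C := 2) (f := fun t => ψ (S i) - ψ t) (fun t _ => by
          calc ‖ψ (S i) - ψ t‖ ≤ ‖ψ (S i)‖ + ‖ψ t‖ := norm_sub_le _ _
            _ ≤ 2 := by linarith [hψb (S i), hψb t])
      rw [hstep, add_sub_cancel_left, abs_of_pos hε] at this
      rw [hstep]
      nlinarith [mul_nonneg hL (sq_nonneg ε)]
    · rw [if_neg hbad, add_zero]
      have hL2 : L * ε ^ 2 = (L * ε) * |S (i + 1) - S i| := by
        rw [hstep, add_sub_cancel_left, abs_of_pos hε]; ring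
      rw [hL2]
      apply intervalIntegral.norm_integral_le_of_norm_le_const_ae
      have : ∀ᵐ t : ℝ, t ≠ S (i + 1) := by
        rw [ae_iff]
        simp
      filter_upwards [this] with t ht ht2
      rw [Set.uIoc_of_le (by rw [hstep]; linarith)] at ht2
      have ht3 : t < S (i + 1) := lt_of_le_of_ne ht2.2 ht
      have hfloor : ⌊t⌋ = ⌊S i⌋ := by
        by_contra hne
        have hle : ⌊S i⌋ ≤ ⌊t⌋ := Int.floor_mono ht2.1.le
        have hlt : ⌊S i⌋ < ⌊t⌋ := lt_of_le_of_ne hle (Ne.symm hne)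
        apply hbad
        refine ⟨⌊t⌋, ?_, ?_⟩
        · have h1 := Int.lt_floor_add_one (S i)
          have h2 : (⌊S i⌋ : ℝ) + 1 ≤ ⌊t⌋ := by exact_mod_cast hlt
          change S i < _
          linarith
        · have h1 := Int.floor_le t
          have h2 : t0 + ((i : ℝ) + 1) * ε = S (i + 1) := by simp only [hS]; push_cast; ring
          rw [h2]
          linarith
      have hd := hLip _ (hfr (S i)) _ (hfr t)
      refine hd.trans ?_
      apply mul_le_mul_of_nonneg_left _ hL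
      rw [Int.fract, Int.fract, hfloor]
      have : S i - (⌊S i⌋ : ℝ) - (t - (⌊S i⌋ : ℝ)) = -(t - S i) := by ring
      rw [this, abs_neg, abs_of_nonneg (by linarith [ht2.1])]
      rw [hstep] at ht3
      linarith
  have hsumint : ∑ i ∈ Finset.range I, ∫ t in (S i)..(S (i + 1)), ψ t = ∫ t in (S 0)..(S I), ψ t :=
    intervalIntegral.sum_integral_adjacent_intervals fun i _ => hψi _ _
  have hA : ‖(ε : ℂ) * ∑ i ∈ Finset.range I, ψ (S i) - ∫ t in (S 0)..(S I), ψ t‖ ≤ (L + 2) * ε := by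
    rw [← hsumint, Finset.mul_sum, ← Finset.sum_sub_distrib]
    refine (norm_sum_le _ _).trans ?_
    refine (Finset.sum_le_sum fun i _ => hpiece i).trans ?_
    rw [Finset.sum_add_distrib, Finset.sum_const, Finset.card_range, nsmul_eq_mul,
      ← Finset.sum_filter, Finset.sum_const, nsmul_eq_mul]
    have hcard := rie_bad_card t0 ε hε I hI1
    have hcard' : (((Finset.range I).filter bad).card : ℝ) ≤ 1 := by
      have h0 : (((Finset.range I).filter bad).card : ℝ) ≤ ((1 : ℕ) : ℝ) := Nat.cast_le.mpr hcard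
      rwa [Nat.cast_one] at h0
    have h1 : (((Finset.range I).filter bad).card : ℝ) * (2 * ε) ≤ 1 * (2 * ε) :=
      mul_le_mul_of_nonneg_right hcard' (by positivity)
    have h2 : (I : ℝ) * (L * ε ^ 2) ≤ L * ε := by
      have : (I : ℝ) * (L * ε ^ 2) = (I * ε) * (L * ε) := by ring
      rw [this]
      have := mul_le_mul_of_nonneg_right hI1 (mul_nonneg hL hε.le)
      linarith
    linarith
  have hB : ‖∫ t in (S I)..(t0 + 1), ψ t‖ ≤ ε := by
    have := intervalIntegral.norm_integral_le_of_norm_le_const (a := S I) (b := t0 + 1)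
      (C := 1) (f := ψ) (fun t _ => hψb t)
    refine this.trans ?_
    have e : t0 + 1 - S I = 1 - I * ε := by simp only [hS]; ring
    rw [e, abs_of_nonneg (by linarith), one_mul]
    linarith
  have hS0 : S 0 = t0 := by simp [hS]
  have hsplit : ∫ t in t0..(t0 + 1), ψ t = (∫ t in (S 0)..(S I), ψ t) + ∫ t in (S I)..(t0 + 1), ψ t := by
    rw [hS0, intervalIntegral.integral_add_adjacent_intervals (hψi _ _) (hψi _ _)]
  have hnormsum : ‖∑ i ∈ Finset.range I, ψ (S i)‖ ≤ I := by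
    refine (norm_sum_le _ _).trans ?_
    refine (Finset.sum_le_sum fun i _ => hψb (S i)).trans ?_
    simp
  have hIc : (I : ℂ) ≠ 0 := by exact_mod_cast hIpos.ne'
  have hC : ‖(∑ i ∈ Finset.range I, ψ (S i)) / (I : ℂ) - (ε : ℂ) * ∑ i ∈ Finset.range I, ψ (S i)‖ ≤ ε := by
    have e : (∑ i ∈ Finset.range I, ψ (S i)) / (I : ℂ) - (ε : ℂ) * ∑ i ∈ Finset.range I, ψ (S i) =
        (((1 - I * ε) / I : ℝ) : ℂ) * ∑ i ∈ Finset.range I, ψ (S i) := by
      push_cast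
      field_simp
    rw [e, norm_mul, Complex.norm_real]
    have hIr : (0 : ℝ) < I := by exact_mod_cast hIpos
    rw [Real.norm_of_nonneg (div_nonneg (by linarith) hIr.le)]
    calc (1 - I * ε) / I * ‖∑ i ∈ Finset.range I, ψ (S i)‖ ≤ (1 - I * ε) / I * I :=
          mul_le_mul_of_nonneg_left hnormsum (div_nonneg (by linarith) hIr.le)
      _ = 1 - I * ε := by field_simp
      _ ≤ ε := by linarith
  rw [hint01, hsplit]
  have etot : (∑ i ∈ Finset.range I, Φ (Int.fract (t0 + i * ε))) / (I : ℂ) -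
      ((∫ t in (S 0)..(S I), ψ t) + ∫ t in (S I)..(t0 + 1), ψ t) =
      ((∑ i ∈ Finset.range I, ψ (S i)) / (I : ℂ) - (ε : ℂ) * ∑ i ∈ Finset.range I, ψ (S i)) +
      ((ε : ℂ) * ∑ i ∈ Finset.range I, ψ (S i) - ∫ t in (S 0)..(S I), ψ t) -
      ∫ t in (S I)..(t0 + 1), ψ t := by
    have : ∑ i ∈ Finset.range I, Φ (Int.fract (t0 + i * ε)) = ∑ i ∈ Finset.range I, ψ (S i) := rfl
    rw [this]
    ring
  rw [etot]
  refine (norm_sub_le _ _).trans ?_
  have := norm_add_le ((∑ i ∈ Finset.range I, ψ (S i)) / (I : ℂ) - (ε : ℂ) * ∑ i ∈ Finset.range I, ψ (S i))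
    ((ε : ℂ) * ∑ i ∈ Finset.range I, ψ (S i) - ∫ t in (S 0)..(S I), ψ t)
  linarith

theorem rie (Φ : ℝ → ℂ) (L : ℝ) (hL : 0 ≤ L) (hc : ContinuousOn Φ (Set.Icc 0 1))
    (hLip : ∀ s ∈ Set.Icc (0 : ℝ) 1, ∀ t ∈ Set.Icc (0 : ℝ) 1, ‖Φ s - Φ t‖ ≤ L * |s - t|)
    (hb : ∀ s ∈ Set.Icc (0 : ℝ) 1, ‖Φ s‖ ≤ 1)
    (t0 ω : ℝ) (hω : ω ≠ 0) (hω1 : |ω| ≤ 1) :
    ‖(∑ i ∈ Finset.range ⌊1 / |ω|⌋₊, Φ (Int.fract (t0 + i * ω))) / (⌊1 / |ω|⌋₊ : ℂ)
      - ∫ t in (0 : ℝ)..1, Φ t‖ ≤ (L + 6) * |ω| := by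
  -- a continuous extension
  let Φ' : ℝ → ℂ := fun t => Φ (Set.projIcc (0 : ℝ) 1 zero_le_one t)
  have hc' : Continuous Φ' := by
    have h1 : Continuous ((Set.Icc (0 : ℝ) 1).domRestrict Φ) := continuousOn_iff_continuous_domRestrict.mp hc
    exact h1.comp continuous_projIcc
  have hagree : ∀ t ∈ Set.Icc (0 : ℝ) 1, Φ' t = Φ t := by
    intro t ht
    simp only [Φ', Set.projIcc_of_mem zero_le_one ht]
  have hfr : ∀ t : ℝ, Int.fract t ∈ Set.Icc (0 : ℝ) 1 := fun t =>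
    ⟨Int.fract_nonneg t, (Int.fract_lt_one t).le⟩
  have hint : ∫ t in (0 : ℝ)..1, Φ t = ∫ t in (0 : ℝ)..1, Φ' t := by
    apply intervalIntegral.integral_congr
    intro t ht
    rw [Set.uIcc_of_le zero_le_one] at ht
    exact (hagree t ht).symm
  have hLip' : ∀ s ∈ Set.Icc (0 : ℝ) 1, ∀ t ∈ Set.Icc (0 : ℝ) 1, ‖Φ' s - Φ' t‖ ≤ L * |s - t| := by
    intro s hs t ht
    rw [hagree s hs, hagree t ht]
    exact hLip s hs t ht
  have hb' : ∀ s ∈ Set.Icc (0 : ℝ) 1, ‖Φ' s‖ ≤ 1 := by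
    intro s hs
    rw [hagree s hs]
    exact hb s hs
  have hsum : ∀ (s : ℝ) (w : ℝ) (I : ℕ), ∑ i ∈ Finset.range I, Φ (Int.fract (s + i * w)) =
      ∑ i ∈ Finset.range I, Φ' (Int.fract (s + i * w)) := by
    intro s w I
    refine Finset.sum_congr rfl fun i _ => ?_
    rw [hagree _ (hfr _)]
  rw [hint, hsum]
  rcases lt_or_gt_of_ne hω with h | h
  · -- negative step
    have habs : |ω| = -ω := abs_of_neg h
    rw [habs] at hω1 ⊢
    have key := rie_pos Φ' L hL hc' hLip' hb' (t0 + ((⌊1 / -ω⌋₊ : ℝ) - 1) * ω) (-ω)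
      (by linarith) hω1
    have e : ∑ i ∈ Finset.range ⌊1 / -ω⌋₊, Φ' (Int.fract (t0 + i * ω)) =
        ∑ i ∈ Finset.range ⌊1 / -ω⌋₊,
          Φ' (Int.fract (t0 + ((⌊1 / -ω⌋₊ : ℝ) - 1) * ω + i * (-ω))) := by
      rw [← Finset.sum_range_reflect]
      refine Finset.sum_congr rfl fun i hi => ?_
      rw [Finset.mem_range] at hi
      congr 2
      have : ((⌊1 / -ω⌋₊ - 1 - i : ℕ) : ℝ) = (⌊1 / -ω⌋₊ : ℝ) - 1 - i := by
        rw [Nat.cast_sub (by omega), Nat.cast_sub (by omega)]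
        simp
      rw [this]
      ring
    rw [e]
    exact key
  · have habs : |ω| = ω := abs_of_pos h
    rw [habs] at hω1 ⊢
    exact rie_pos Φ' L hL hc' hLip' hb' t0 ω h hω1

end Pool.Agent.Ord2
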