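import Pool.Agent.Ord2.Var

/-! Module SUM1. Tonelli: `∑_r S_m(r)/r^2 = ∑_v |a(v)| ∑_{r ≥ max(1,|l(v)|)} 1/r^2 ≤ 4 ∑_v |a(v)|/(1+|l(v)|)`. -/

open MeasureTheory
open scoped ENNReal

namespace Pool.Agent.Ord2

private lemma sum1_partial (L : ℝ) (n : ℕ) :
    ∑ r ∈ Finset.range n, (if L ≤ ((r + 1 : ℕ) : ℝ) then 1 / (((r + 1) ^ 2 : ℕ) : ℝ) else 0) ≤
      2 / max 1 L - 2 / max ((n : ℝ) + 1) (max 1 L) := by
  induction n with
  | zero =>
    have : max (((0 : ℕ) : ℝ) + 1) (max 1 L) = max 1 L := by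
      apply max_eq_right; simp
    rw [this]; simp
  | succ n ih =>
    rw [Finset.sum_range_succ]
    have hs0 : (1 : ℝ) ≤ max 1 L := le_max_left _ _
    split_ifs with h
    · have hs : max 1 L ≤ (n : ℝ) + 1 := by
        apply max_le
        · have : (0 : ℝ) ≤ n := Nat.cast_nonneg n
          linarith
        · push_cast at h; linarith
      have h1 : max ((n : ℝ) + 1) (max 1 L) = (n : ℝ) + 1 := max_eq_left hs
      have h2 : max (((n + 1 : ℕ) : ℝ) + 1) (max 1 L) = (n : ℝ) + 2 := by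
        rw [max_eq_left]
        · push_cast; ring
        · push_cast; linarith
      rw [h1] at ih
      rw [h2]
      have hn : (0 : ℝ) ≤ n := Nat.cast_nonneg n
      have h3 : 1 / (((n + 1) ^ 2 : ℕ) : ℝ) ≤ 2 / ((n : ℝ) + 1) - 2 / ((n : ℝ) + 2) := by
        have e : 2 / ((n : ℝ) + 1) - 2 / ((n : ℝ) + 2) = 2 / (((n : ℝ) + 1) * ((n : ℝ) + 2)) := by
          field_simp; ring
        rw [e]
        push_cast
        rw [div_le_div_iff₀ (by positivity) (by positivity)]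
        nlinarith
      linarith
    · have h2 : 2 / max (((n + 1 : ℕ) : ℝ) + 1) (max 1 L) ≤ 2 / max ((n : ℝ) + 1) (max 1 L) := by
        apply div_le_div_of_nonneg_left (by norm_num)
        · exact lt_of_lt_of_le (by norm_num) (le_max_of_le_right hs0)
        · apply max_le_max _ le_rfl
          push_cast; linarith
      linarith

private lemma sum1_inner (L : ℝ) (hL : 0 ≤ L) :
    ∑' r : ℕ, ENNReal.ofReal (if L ≤ ((r + 1 : ℕ) : ℝ) then 1 / (((r + 1) ^ 2 : ℕ) : ℝ) else 0) ≤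
      ENNReal.ofReal (4 / (1 + L)) := by
  apply ENNReal.tsum_le_of_sum_range_le
  intro n
  rw [← ENNReal.ofReal_sum_of_nonneg]
  · apply ENNReal.ofReal_le_ofReal
    refine (sum1_partial L n).trans ?_
    have hs0 : (1 : ℝ) ≤ max 1 L := le_max_left _ _
    have hs1 : L ≤ max 1 L := le_max_right _ _
    have h1 : 0 ≤ 2 / max ((n : ℝ) + 1) (max 1 L) := by
      apply div_nonneg (by norm_num)
      exact le_trans (by norm_num) (le_max_of_le_right hs0)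
    have h2 : 2 / max 1 L ≤ 4 / (1 + L) := by
      rw [div_le_div_iff₀ (by linarith) (by linarith)]
      linarith
    linarith
  · intro i _
    split_ifs
    · positivity
    · exact le_rfl

theorem sum_SS (μ : Measure (AddCircle (1 : ℝ))) (m : ℤ)
    (h : Summable fun v : ℤ × ℤ => dev μ m v / (1 + |lv v|)) :
    ∑' r : ℕ, SS μ m (r + 1) / (((r + 1) ^ 2 : ℕ) : ℝ≥0∞) ≠ ⊤ := by
  have hterm : ∀ (r : ℕ) (v : ℤ × ℤ),
      (if |lv v| ≤ ((r + 1 : ℕ) : ℝ) then ENNReal.ofReal (dev μ m v) else 0) *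
        ((((r + 1) ^ 2 : ℕ) : ℝ≥0∞))⁻¹ =
      ENNReal.ofReal (dev μ m v) *
        ENNReal.ofReal (if |lv v| ≤ ((r + 1 : ℕ) : ℝ) then 1 / (((r + 1) ^ 2 : ℕ) : ℝ) else 0) := by
    intro r v
    split_ifs with hc
    · congr 1
      rw [one_div, ENNReal.ofReal_inv_of_pos (by positivity), ENNReal.ofReal_natCast]
    · simp
  have hv : ∀ v : ℤ × ℤ, ∑' r : ℕ,
      (if |lv v| ≤ ((r + 1 : ℕ) : ℝ) then ENNReal.ofReal (dev μ m v) else 0) *
        ((((r + 1) ^ 2 : ℕ) : ℝ≥0∞))⁻¹ ≤ ENNReal.ofReal (4 * (dev μ m v / (1 + |lv v|))) := by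
    intro v
    simp_rw [hterm]
    rw [ENNReal.tsum_mul_left]
    refine (mul_le_mul_right (sum1_inner |lv v| (abs_nonneg _)) _).trans ?_
    rw [← ENNReal.ofReal_mul (show 0 ≤ dev μ m v from norm_nonneg _)]
    apply ENNReal.ofReal_le_ofReal
    apply le_of_eq
    ring
  have hlt : ∑' v : ℤ × ℤ, ENNReal.ofReal (4 * (dev μ m v / (1 + |lv v|))) ≠ ⊤ :=
    (h.mul_left 4).tsum_ofReal_ne_top
  refine ne_top_of_le_ne_top hlt ?_
  calc ∑' r : ℕ, SS μ m (r + 1) / (((r + 1) ^ 2 : ℕ) : ℝ≥0∞)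
      = ∑' r : ℕ, ∑' v : ℤ × ℤ,
        (if |lv v| ≤ ((r + 1 : ℕ) : ℝ) then ENNReal.ofReal (dev μ m v) else 0) *
        ((((r + 1) ^ 2 : ℕ) : ℝ≥0∞))⁻¹ := by
        congr 1; ext r
        rw [ENNReal.tsum_mul_right, div_eq_mul_inv]
        rfl
    _ = ∑' v : ℤ × ℤ, ∑' r : ℕ,
        (if |lv v| ≤ ((r + 1 : ℕ) : ℝ) then ENNReal.ofReal (dev μ m v) else 0) *
        ((((r + 1) ^ 2 : ℕ) : ℝ≥0∞))⁻¹ := ENNReal.tsum_comm
    _ ≤ _ := ENNReal.tsum_le_tsum hv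

end Pool.Agent.Ord2
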