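import Pool.Agent.Ord2.TypeLogB

/-!
# Finite type of log 3 / log 2 (helper12)

`|q log 3 / log 2 - p| ≥ c q^(-τ)`.
-/

set_option autoImplicit false

namespace Pool.Agent.Ord2.TL

open Polynomial

theorem D_dvd (k i : ℕ) (h1 : 1 ≤ i) (h2 : i ≤ 10 * k) : i ∣ Nat.lcmUpto (10 * k) := by
  unfold Nat.lcmUpto
  exact Finset.dvd_lcm (f := id) (Finset.mem_Icc.mpr ⟨h1, h2⟩)

/-- `D = lcm(1..10k)` is at most `(4^10 exp(1/5))^k` for large `k`. -/
theorem D_le : ∃ k0 : ℕ, ∀ k : ℕ, k0 ≤ k →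
    (Nat.lcmUpto (10 * k) : ℝ) ≤ ((4 : ℝ) ^ 10 * (5 / 4)) ^ k := by
  refine ⟨400 ^ 4, fun k hk => ?_⟩
  have hk1 : 1 ≤ k := le_trans (by norm_num) hk
  have hk0 : (0 : ℝ) < k := by exact_mod_cast hk1
  set x : ℝ := ((10 * k : ℕ) : ℝ) with hx
  have hx10 : x = 10 * k := by rw [hx]; push_cast; ring
  have hx1 : 1 ≤ x := by
    rw [hx10]
    have : (1 : ℝ) ≤ k := by exact_mod_cast hk1
    linarith
  have hx0 : 0 < x := by linarith
  have hxbig : (400 : ℝ) ^ (4 : ℕ) ≤ x := by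
    rw [hx10]
    have : ((400 ^ 4 : ℕ) : ℝ) ≤ k := by exact_mod_cast hk
    push_cast at this
    linarith
  have h1 := Chebyshev.psi_le hx1
  rw [hx, Chebyshev.psi_eq_log_lcmUpto, ← hx] at h1
  have hD0 : (0 : ℝ) < (Nat.lcmUpto (10 * k) : ℝ) := by exact_mod_cast Nat.lcmUpto_pos _
  -- 2 sqrt x log x ≤ x / 50
  have h2 : 2 * Real.sqrt x * Real.log x ≤ x / 50 := by
    set y : ℝ := x ^ (1 / 4 : ℝ) with hy
    have hy0 : 0 < y := Real.rpow_pos_of_pos hx0 _
    have hy4 : y ^ 4 = x := by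
      rw [hy, ← Real.rpow_natCast, ← Real.rpow_mul hx0.le]
      norm_num
    have hs : Real.sqrt x = y ^ 2 := by
      rw [← hy4, show y ^ 4 = (y ^ 2) ^ 2 by ring, Real.sqrt_sq (by positivity)]
    have hl : Real.log x ≤ 4 * y := by
      have := Real.log_le_rpow_div hx0.le (show (0 : ℝ) < 1 / 4 by norm_num)
      rw [← hy] at this
      linarith
    have hybig : 400 ≤ y := by
      by_contra hcon
      push Not at hcon
      have : y ^ 4 < 400 ^ 4 := pow_lt_pow_left₀ hcon hy0.le (by norm_num)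
      rw [hy4] at this
      linarith
    rw [hs]
    calc 2 * y ^ 2 * Real.log x ≤ 2 * y ^ 2 * (4 * y) := by gcongr
      _ = 8 * y ^ 3 := by ring
      _ ≤ y ^ 4 / 50 := by nlinarith [pow_pos hy0 3]
      _ = x / 50 := by rw [hy4]
  have h3 : Real.log (Nat.lcmUpto (10 * k) : ℝ) ≤ k * (10 * Real.log 4 + 1 / 5) := by
    refine h1.trans ?_
    rw [hx10] at h2 ⊢
    linarith
  have h4 : Real.log (((4 : ℝ) ^ 10 * (5 / 4)) ^ k) = k * (10 * Real.log 4 + Real.log (5 / 4)) := by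
    rw [Real.log_pow, Real.log_mul (by norm_num) (by norm_num), Real.log_pow]
    push_cast
    ring
  have h5 : (1 : ℝ) / 5 ≤ Real.log (5 / 4) := by
    have := Real.one_sub_inv_le_log_of_pos (show (0 : ℝ) < 5 / 4 by norm_num)
    norm_num at this ⊢
    linarith
  rw [← Real.log_le_log_iff hD0 (by positivity), h4]
  refine h3.trans ?_
  gcongr

/-- The linear forms in `log (9/8)` and `log (4/3)`. -/
theorem lin_form : ∃ (c : ℝ) (τ : ℕ), 0 < c ∧ ∀ m1 m2 : ℤ, (m1 ≠ 0 ∨ m2 ≠ 0) →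
    c / ((|m1| + |m2| : ℤ) : ℝ) ^ τ ≤ |m1 * Real.log (9 / 8) + m2 * Real.log (4 / 3)| := by
  obtain ⟨k0, hk0⟩ := D_le
  set k1 : ℕ := max k0 20 with hk1
  have hk1a : k0 ≤ k1 := le_max_left _ _
  have hk1b : 20 ≤ k1 := le_max_right _ _
  have hl98 : 0 < Real.log (9 / 8) := Real.log_pos (by norm_num)
  set c1 : ℝ := 1 / (1200 * 2 ^ (114 * k1) * 2 ^ 456) with hc1
  have hc10 : 0 < c1 := by positivity
  refine ⟨min c1 (Real.log (9 / 8)), 456, lt_min hc10 hl98, ?_⟩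
  intro m1 m2 hm
  set M : ℕ := (|m1| + |m2|).toNat with hM
  have hMz : (M : ℤ) = |m1| + |m2| := by
    rw [hM]
    exact Int.toNat_of_nonneg (by positivity)
  have hMr : ((|m1| + |m2| : ℤ) : ℝ) = M := by
    rw [← hMz]
    simp
  have hM1 : 1 ≤ M := by
    have h1 : 1 ≤ |m1| + |m2| := by
      rcases hm with h | h
      · have := Int.one_le_abs h
        have := abs_nonneg m2
        omega
      · have := Int.one_le_abs h
        have := abs_nonneg m1
        omega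
    omega
  have hM1r : (1 : ℝ) ≤ M := by exact_mod_cast hM1
  rw [hMr]
  set c : ℝ := min c1 (Real.log (9 / 8)) with hc
  have hc0 : 0 < c := lt_min hc10 hl98
  -- the case m2 = 0
  rcases eq_or_ne m2 0 with h20 | h20
  · subst h20
    have hm1 : m1 ≠ 0 := by simpa using hm
    have h1 : (1 : ℝ) ≤ |(m1 : ℝ)| := by
      have := Int.one_le_abs hm1
      exact_mod_cast this
    rw [Int.cast_zero, zero_mul, add_zero, abs_mul, abs_of_pos hl98]
    calc c / (M : ℝ) ^ 456 ≤ c := div_le_self hc0.le (one_le_pow₀ hM1r)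
      _ ≤ Real.log (9 / 8) := min_le_right _ _
      _ = 1 * Real.log (9 / 8) := (one_mul _).symm
      _ ≤ |(m1 : ℝ)| * Real.log (9 / 8) := by gcongr
  -- the exponent
  set t : ℕ := Nat.clog 2 M with ht
  have ht1 : M ≤ 2 ^ t := Nat.le_pow_clog (by norm_num) M
  have ht2 : 2 ^ t ≤ 2 * M := by
    rcases Nat.eq_zero_or_pos t with h | h
    · rw [h]
      omega
    · have h1 : 1 < M := by
        by_contra hcon
        have : M = 1 := by omega
        rw [ht, this] at h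
        simp at h
      have h2 := Nat.pow_pred_clog_lt_self (show 1 < 2 by norm_num) h1
      rw [← ht] at h2
      have h3 : 2 ^ t = 2 * 2 ^ t.pred := by
        rw [← Nat.succ_pred_eq_of_pos h, pow_succ]
        simp [mul_comm]
      omega
  have ht1r : (M : ℝ) ≤ 2 ^ t := by exact_mod_cast ht1
  have ht2r : (2 : ℝ) ^ t ≤ 2 * M := by exact_mod_cast ht2
  set k : ℕ := 4 * t + k1 with hk
  set D : ℕ := Nat.lcmUpto (10 * k) with hD
  have hD1 : 1 ≤ D := Nat.lcmUpto_pos _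
  have hD1r : (1 : ℝ) ≤ D := by exact_mod_cast hD1
  have hDle : (D : ℝ) ≤ ((4 : ℝ) ^ 10 * (5 / 4)) ^ k := hk0 k (by omega)
  have hDd : ∀ i, 1 ≤ i → i ≤ 10 * k → i ∣ D := fun i h1 h2 => D_dvd k i h1 h2
  obtain ⟨a, ha⟩ := poly_int (Fk k) (10 * k) D (Fk_natDegree k) (fun j hj => Fk_dvd k j hj) hDd
    8 9 (by norm_num) (by norm_num) (by norm_num) (by norm_num)
  obtain ⟨a', ha'⟩ := poly_int (Fk k) (10 * k) D (Fk_natDegree k) (fun j hj => Fk_dvd k j hj) hDd
    9 12 (by norm_num) (by norm_num) (by norm_num) (by norm_num)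
  have ea : (D : ℝ) * JA k = ((D * (Fk k).coeff (10 * k) : ℤ) : ℝ) * Real.log (9 / 8) + a := by
    rw [JA, ha]
    norm_num
  have eb : (D : ℝ) * JB k = ((D * (Fk k).coeff (10 * k) : ℤ) : ℝ) * Real.log (4 / 3) + a' := by
    rw [JB, ha']
    norm_num
  set b : ℤ := D * (Fk k).coeff (10 * k) with hb
  set Λ : ℝ := m1 * Real.log (9 / 8) + m2 * Real.log (4 / 3) with hΛ
  -- sizes
  have hJA := JA_le k
  have hJB := JB_le k
  have hJBg := JB_ge k
  have hA1 : (|m1| : ℝ) ≤ M := by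
    have : |m1| ≤ (M : ℤ) := by
      rw [hMz]
      have := abs_nonneg m2
      omega
    exact_mod_cast this
  have hA2 : (|m2| : ℝ) ≤ M := by
    have : |m2| ≤ (M : ℤ) := by
      rw [hMz]
      have := abs_nonneg m1
      omega
    exact_mod_cast this
  have hm21 : (1 : ℝ) ≤ |(m2 : ℝ)| := by
    have := Int.one_le_abs h20
    exact_mod_cast this
  -- (1) D (|m1| |JA| + |m2| |JB|) ≤ 1/2
  have hpow : ∀ ρ : ℝ, 0 ≤ ρ → ρ ^ 4 ≤ 1 / 2 → ρ ≤ 1 → ρ ^ 20 ≤ 1 / 1200 →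
      (M : ℝ) * ρ ^ k ≤ 1 / 1200 := by
    intro ρ h0 h4 h1 h20
    rw [hk, pow_add, pow_mul]
    calc (M : ℝ) * ((ρ ^ 4) ^ t * ρ ^ k1) ≤ 2 ^ t * ((1 / 2) ^ t * ρ ^ 20) := by
          have : ρ ^ k1 ≤ ρ ^ 20 := pow_le_pow_of_le_one h0 h1 hk1b
          gcongr
      _ = (2 * (1 / 2)) ^ t * ρ ^ 20 := by rw [mul_pow]; ring
      _ = ρ ^ 20 := by norm_num
      _ ≤ 1 / 1200 := h20
  have hs1 : (D : ℝ) * (|(m1 : ℝ)| * |JA k| + |(m2 : ℝ)| * |JB k|) ≤ 1 / 2 := by
    have e1 : |JA k| ≤ ((17 / 25000 : ℝ) ^ 2) ^ k := hJA.trans (by gcongr; norm_num)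
    have e2 : (M : ℝ) * (((4 : ℝ) ^ 10 * (5 / 4)) * (17 / 25000 : ℝ) ^ 2) ^ k ≤ 1 / 1200 := by
      apply hpow <;> norm_num
    calc (D : ℝ) * (|(m1 : ℝ)| * |JA k| + |(m2 : ℝ)| * |JB k|)
        ≤ ((4 : ℝ) ^ 10 * (5 / 4)) ^ k * (M * ((17 / 25000 : ℝ) ^ 2) ^ k +
          M * ((17 / 25000 : ℝ) ^ 2) ^ k) := by
          gcongr
      _ = 2 * ((M : ℝ) * (((4 : ℝ) ^ 10 * (5 / 4)) * (17 / 25000 : ℝ) ^ 2) ^ k) := by
          rw [mul_pow ((4 : ℝ) ^ 10 * (5 / 4)) ((17 / 25000 : ℝ) ^ 2) k]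
          ring
      _ ≤ 2 * (1 / 1200) := by gcongr
      _ ≤ 1 / 2 := by norm_num
  -- (2) |m1| |JA| ≤ JB / 2
  have hs2 : |(m1 : ℝ)| * |JA k| ≤ JB k / 2 := by
    have e2 : (M : ℝ) * ((9 / 25000 : ℝ) ^ 2 / (12 / 25000 : ℝ) ^ 2) ^ k ≤ 1 / 1200 := by
      apply hpow <;> norm_num
    have e3 : (0 : ℝ) < ((12 / 25000 : ℝ) ^ 2) ^ k := by positivity
    calc |(m1 : ℝ)| * |JA k| ≤ M * ((9 / 25000 : ℝ) ^ 2) ^ k := by gcongr
      _ = (M * ((9 / 25000 : ℝ) ^ 2 / (12 / 25000 : ℝ) ^ 2) ^ k) * ((12 / 25000 : ℝ) ^ 2) ^ k := by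
          rw [div_pow _ _ k]
          field_simp
      _ ≤ (1 / 1200) * ((12 / 25000 : ℝ) ^ 2) ^ k := by gcongr
      _ = (((12 / 25000 : ℝ) ^ 2) ^ k / 600) / 2 := by ring
      _ ≤ JB k / 2 := by gcongr
  have hJB0 : 0 < JB k := lt_of_lt_of_le (by positivity) hJBg
  have hJB1 : JB k ≤ 1 := by
    refine (le_abs_self _).trans (hJB.trans ?_)
    apply pow_le_one₀ <;> norm_num
  -- the main identity
  have hid : (b : ℝ) * Λ + ((m1 * a + m2 * a' : ℤ) : ℝ) = D * (m1 * JA k + m2 * JB k) := by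
    have : (D : ℝ) * (m1 * JA k + m2 * JB k) = m1 * (D * JA k) + m2 * (D * JB k) := by ring
    rw [this, ea, eb, hΛ]
    push_cast
    ring
  have hlow : JB k / 2 ≤ |(b : ℝ) * Λ| := by
    rcases eq_or_ne (m1 * a + m2 * a') 0 with hN | hN
    · rw [hN, Int.cast_zero, add_zero] at hid
      rw [hid, abs_mul, abs_of_pos (by linarith : (0 : ℝ) < D)]
      have e1 : JB k / 2 ≤ |(m1 : ℝ) * JA k + m2 * JB k| := by
        have e2 : |(m2 : ℝ) * JB k| ≤ |(m1 : ℝ) * JA k + m2 * JB k| + |(m1 : ℝ) * JA k| := by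
          have := abs_add_le ((m1 : ℝ) * JA k + m2 * JB k) (-(m1 * JA k))
          rw [abs_neg] at this
          calc |(m2 : ℝ) * JB k| = |(m1 : ℝ) * JA k + m2 * JB k + -(m1 * JA k)| := by
                congr 1
                ring
            _ ≤ _ := this
        rw [abs_mul (m2 : ℝ), abs_of_pos hJB0, abs_mul (m1 : ℝ)] at e2
        have e3 : JB k ≤ |(m2 : ℝ)| * JB k := by
          calc JB k = 1 * JB k := (one_mul _).symm
            _ ≤ _ := by gcongr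
        linarith
      calc JB k / 2 = 1 * (JB k / 2) := (one_mul _).symm
        _ ≤ D * |(m1 : ℝ) * JA k + m2 * JB k| := by
            gcongr
    · have e1 : (1 : ℝ) ≤ |((m1 * a + m2 * a' : ℤ) : ℝ)| := by
        have := Int.one_le_abs hN
        exact_mod_cast this
      have e2 : |(D : ℝ) * (m1 * JA k + m2 * JB k)| ≤ 1 / 2 := by
        refine le_trans ?_ hs1
        rw [abs_mul, abs_of_pos (by linarith : (0 : ℝ) < D)]
        gcongr
        refine (abs_add_le _ _).trans ?_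
        rw [abs_mul, abs_mul]
      rw [← hid] at e2
      have e3 : |((m1 * a + m2 * a' : ℤ) : ℝ)| ≤
          |(b : ℝ) * Λ + ((m1 * a + m2 * a' : ℤ) : ℝ)| + |(b : ℝ) * Λ| := by
        have := abs_add_le ((b : ℝ) * Λ + ((m1 * a + m2 * a' : ℤ) : ℝ)) (-((b : ℝ) * Λ))
        rw [abs_neg] at this
        calc |((m1 * a + m2 * a' : ℤ) : ℝ)| =
            |(b : ℝ) * Λ + ((m1 * a + m2 * a' : ℤ) : ℝ) + -((b : ℝ) * Λ)| := by
              congr 1
              ring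
          _ ≤ _ := this
      linarith
  -- the size of b
  have hbs : |(b : ℝ)| ≤ 2 ^ (91 * k) := by
    have e1 := Fk_coeff_le k (10 * k)
    have e2 : |((Fk k).coeff (10 * k) : ℝ)| ≤ 2 ^ (70 * k) := by exact_mod_cast e1
    rw [hb]
    push_cast
    rw [abs_mul, abs_of_pos (by linarith : (0 : ℝ) < D)]
    calc (D : ℝ) * |((Fk k).coeff (10 * k) : ℝ)| ≤ ((4 : ℝ) ^ 10 * (5 / 4)) ^ k * 2 ^ (70 * k) := by
          gcongr
      _ ≤ ((2 : ℝ) ^ 21) ^ k * 2 ^ (70 * k) := by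
          gcongr
          norm_num
      _ = 2 ^ (91 * k) := by
          rw [← pow_mul, ← pow_add]
          congr 1
          ring
  have hfin : (1 / (1200 * 2 ^ (114 * k)) : ℝ) ≤ |Λ| := by
    have e1 : ((1 / 2 ^ 23 : ℝ)) ^ k / 1200 ≤ JB k / 2 := by
      calc ((1 / 2 ^ 23 : ℝ)) ^ k / 1200 ≤ ((12 / 25000 : ℝ) ^ 2) ^ k / 1200 := by
            gcongr
            norm_num
        _ = (((12 / 25000 : ℝ) ^ 2) ^ k / 600) / 2 := by ring
        _ ≤ JB k / 2 := by gcongr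
    have e2 : ((1 / 2 ^ 23 : ℝ)) ^ k / 1200 ≤ 2 ^ (91 * k) * |Λ| := by
      refine e1.trans (hlow.trans ?_)
      rw [abs_mul]
      gcongr
    have e3 : (1 / (1200 * 2 ^ (114 * k)) : ℝ) * 2 ^ (91 * k) = ((1 / 2 ^ 23 : ℝ)) ^ k / 1200 := by
      rw [show 114 * k = 23 * k + 91 * k by ring, pow_add, div_pow, one_pow, ← pow_mul]
      field_simp
    have e4 : (0 : ℝ) < 2 ^ (91 * k) := by positivity
    rw [← e3] at e2
    have e5 : (1 / (1200 * 2 ^ (114 * k)) : ℝ) * 2 ^ (91 * k) ≤ |Λ| * 2 ^ (91 * k) := by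
      linarith
    exact le_of_mul_le_mul_right e5 e4
  refine le_trans ?_ hfin
  calc c / (M : ℝ) ^ 456 ≤ c1 / (M : ℝ) ^ 456 := by
        gcongr
        exact min_le_left _ _
    _ = 1 / (1200 * 2 ^ (114 * k1) * (2 * M : ℝ) ^ 456) := by
        rw [hc1, mul_pow]
        field_simp
    _ ≤ 1 / (1200 * 2 ^ (114 * k1) * ((2 : ℝ) ^ t) ^ 456) := by
        gcongr
    _ = 1 / (1200 * 2 ^ (114 * k)) := by
        rw [hk, mul_assoc, ← pow_mul, ← pow_add]
        congr 3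
        ring

end Pool.Agent.Ord2.TL

namespace Pool.Agent.Ord2

/-- `log 3 / log 2` has finite type. -/
theorem type_log0 : ∃ c : ℝ, 0 < c ∧ ∃ τ : ℕ, ∀ q : ℕ, 1 ≤ q → ∀ p : ℤ,
    c / (q : ℝ) ^ τ ≤ |(q : ℝ) * (Real.log 3 / Real.log 2) - p| := by
  obtain ⟨c, τ, hc, h⟩ := TL.lin_form
  have l2 : 0 < Real.log 2 := Real.log_pos (by norm_num)
  have l21 : Real.log 2 ≤ 1 := by
    have := Real.log_two_lt_d9
    linarith
  have l3 : 0 < Real.log 3 := Real.log_pos (by norm_num)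
  have l32 : Real.log 3 ≤ 2 * Real.log 2 := by
    have : Real.log 3 ≤ Real.log (2 ^ 2) := Real.log_le_log (by norm_num) (by norm_num)
    rw [Real.log_pow] at this
    push_cast at this
    exact this
  have hα : Real.log 3 / Real.log 2 ≤ 2 := by
    rw [div_le_iff₀ l2]
    exact l32
  have hα0 : 0 < Real.log 3 / Real.log 2 := by positivity
  refine ⟨min (c / 14 ^ τ) 1, lt_min (by positivity) one_pos, τ, ?_⟩
  intro q hq p
  have hq0 : (1 : ℝ) ≤ q := by exact_mod_cast hq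
  have hqτ : (1 : ℝ) ≤ (q : ℝ) ^ τ := one_le_pow₀ hq0
  set α : ℝ := Real.log 3 / Real.log 2 with hα'
  by_cases hp : |p| ≤ 3 * q
  · set m1 : ℤ := p - 2 * q with hm1
    set m2 : ℤ := 2 * p - 3 * q with hm2
    have hne : m1 ≠ 0 ∨ m2 ≠ 0 := by
      by_contra hcon
      push Not at hcon
      omega
    have h1 := h m1 m2 hne
    have h2 : (m1 : ℝ) * Real.log (9 / 8) + m2 * Real.log (4 / 3) =
        -(Real.log 2 * ((q : ℝ) * α - p)) := by
      have e1 : Real.log (9 / 8) = 2 * Real.log 3 - 3 * Real.log 2 := by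
        rw [Real.log_div (by norm_num) (by norm_num), show (9 : ℝ) = 3 ^ 2 by norm_num,
          show (8 : ℝ) = 2 ^ 3 by norm_num, Real.log_pow, Real.log_pow]
        push_cast
        ring
      have e2 : Real.log (4 / 3) = 2 * Real.log 2 - Real.log 3 := by
        rw [Real.log_div (by norm_num) (by norm_num), show (4 : ℝ) = 2 ^ 2 by norm_num,
          Real.log_pow]
        push_cast
        ring
      have e3 : Real.log 2 * α = Real.log 3 := by
        rw [hα']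
        field_simp
      rw [e1, e2, hm1, hm2]
      push_cast
      linear_combination (q : ℝ) * e3
    rw [h2, abs_neg, abs_mul, abs_of_pos l2] at h1
    have h3 : ((|m1| + |m2| : ℤ) : ℝ) ≤ 14 * q := by
      have e1 : |m1| ≤ |p| + 2 * q := by
        rw [hm1]
        refine (abs_sub _ _).trans ?_
        rw [abs_of_nonneg (by positivity : (0 : ℤ) ≤ 2 * q)]
      have e2 : |m2| ≤ 2 * |p| + 3 * q := by
        rw [hm2]
        refine (abs_sub _ _).trans ?_
        rw [abs_of_nonneg (by positivity : (0 : ℤ) ≤ 3 * q), abs_mul]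
        simp
      have e3 : |m1| + |m2| ≤ 14 * q := by linarith
      exact_mod_cast e3
    have h4 : (0 : ℝ) < ((|m1| + |m2| : ℤ) : ℝ) := by
      have : 0 < |m1| + |m2| := by
        rcases hne with h | h
        · have := abs_pos.mpr h
          have := abs_nonneg m2
          omega
        · have := abs_pos.mpr h
          have := abs_nonneg m1
          omega
      exact_mod_cast this
    calc min (c / 14 ^ τ) 1 / (q : ℝ) ^ τ ≤ (c / 14 ^ τ) / (q : ℝ) ^ τ := by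
          gcongr
          exact min_le_left _ _
      _ = c / (14 * (q : ℝ)) ^ τ := by rw [mul_pow, div_div]
      _ ≤ c / ((|m1| + |m2| : ℤ) : ℝ) ^ τ := by gcongr
      _ ≤ Real.log 2 * |(q : ℝ) * α - p| := h1
      _ ≤ 1 * |(q : ℝ) * α - p| := by gcongr
      _ = |(q : ℝ) * α - p| := one_mul _
  · push Not at hp
    have h1 : (3 : ℝ) * q < |(p : ℝ)| := by exact_mod_cast hp
    have h2 : |(p : ℝ)| ≤ |(q : ℝ) * α - p| + |(q : ℝ) * α| := by
      have := abs_add_le ((q : ℝ) * α - p) (-((q : ℝ) * α))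
      rw [abs_neg] at this
      calc |(p : ℝ)| = |(q : ℝ) * α - p + -((q : ℝ) * α)| := by
            rw [← abs_neg]
            congr 1
            ring
        _ ≤ _ := this
    have h3 : |(q : ℝ) * α| ≤ 2 * q := by
      rw [abs_of_nonneg (by positivity)]
      nlinarith
    calc min (c / 14 ^ τ) 1 / (q : ℝ) ^ τ ≤ min (c / 14 ^ τ) 1 :=
          div_le_self (le_min (by positivity) zero_le_one) hqτ
      _ ≤ 1 := min_le_right _ _
      _ ≤ |(q : ℝ) * α - p| := by linarith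

end Pool.Agent.Ord2
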