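import Pool.Agent.Ord2.Defs
import Pool.Agent.Ord2.TypeLog

/-! The finite type of `log 3 / log 2` (proof in `TypeLog`, by helper12). -/

namespace Pool.Agent.Ord2

theorem type_log : ∃ c : ℝ, 0 < c ∧ ∃ τ : ℕ, ∀ q : ℕ, 1 ≤ q → ∀ p : ℤ,
    c / (q : ℝ) ^ τ ≤ |(q : ℝ) * al - p| := type_log0

end Pool.Agent.Ord2
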