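import Mathlib

/-!
# Finite type of log 3 / log 2, part A: coefficients and integrals (helper12)

`F_k = (x-8)^(4k) (x-9)^(6k) (x-12)^(8k) (x-10)^(2k)`: the coefficient of `x^j` is divisible by
`72^(10k-j)` for `j <= 10k`, so for `u, v` dividing `72` and `D = lcm(1..10k)` the number
`D ∫_u^v F_k(x) / x^(10k+1) dx` is `b log (v/u) + a` with integers `a`, `b = D * (coefficient of x^(10k))`.
-/

set_option autoImplicit false

namespace Pool.Agent.Ord2.TL

open Polynomial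

/-- `p^(e - r j)` divides the `j`-th coefficient. -/
def Dv (p r e : ℕ) (A : ℤ[X]) : Prop := ∀ j, (p : ℤ) ^ (e - r * j) ∣ A.coeff j

theorem Dv.mul {p r e e' : ℕ} {A B : ℤ[X]} (hA : Dv p r e A) (hB : Dv p r e' B) :
    Dv p r (e + e') (A * B) := by
  intro n
  rw [coeff_mul]
  apply Finset.dvd_sum
  rintro ⟨i, j⟩ hij
  rw [Finset.HasAntidiagonal.mem_antidiagonal] at hij
  simp only at hij
  have h1 : (p : ℤ) ^ (e + e' - r * n) ∣ (p : ℤ) ^ (e - r * i) * (p : ℤ) ^ (e' - r * j) := by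
    rw [← pow_add]
    apply pow_dvd_pow
    have h2 : r * n = r * i + r * j := by rw [← hij, mul_add]
    omega
  exact h1.trans (mul_dvd_mul (hA i) (hB j))

theorem Dv.one (p r : ℕ) : Dv p r 0 1 := by
  intro n
  simp

theorem Dv.pow {p r e : ℕ} {A : ℤ[X]} (hA : Dv p r e A) (n : ℕ) : Dv p r (n * e) (A ^ n) := by
  induction n with
  | zero => simpa using Dv.one p r
  | succ n ih =>
    rw [pow_succ, Nat.succ_mul]
    exact ih.mul hA

theorem Dv.lin {p r e : ℕ} {c : ℤ} (h : (p : ℤ) ^ e ∣ c) (her : e ≤ r) : Dv p r e (X - C c) := by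
  intro j
  rcases Nat.eq_zero_or_pos j with rfl | hj
  · simpa using h
  · have h1 : e - r * j = 0 := by
      have : r * 1 ≤ r * j := Nat.mul_le_mul_left r hj
      omega
    rw [h1, pow_zero]
    exact one_dvd _

/-- The polynomial. -/
noncomputable def Fk (k : ℕ) : ℤ[X] :=
  (X - C 8) ^ (4 * k) * (X - C 9) ^ (6 * k) * (X - C 12) ^ (8 * k) * (X - C 10) ^ (2 * k)

theorem Fk_dvd (k j : ℕ) (hj : j < 10 * k) : (72 : ℤ) ^ (10 * k - j) ∣ (Fk k).coeff j := by
  have h2 : Dv 2 3 (30 * k) (Fk k) := by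
    have h8 : Dv 2 3 3 (X - C 8 : ℤ[X]) := Dv.lin (by norm_num) le_rfl
    have h9 : Dv 2 3 0 (X - C 9 : ℤ[X]) := Dv.lin (by norm_num) (by norm_num)
    have h12 : Dv 2 3 2 (X - C 12 : ℤ[X]) := Dv.lin (by norm_num) (by norm_num)
    have h10 : Dv 2 3 1 (X - C 10 : ℤ[X]) := Dv.lin (by norm_num) (by norm_num)
    have h := (((h8.pow (4 * k)).mul (h9.pow (6 * k))).mul (h12.pow (8 * k))).mul (h10.pow (2 * k))
    have e : 4 * k * 3 + 6 * k * 0 + 8 * k * 2 + 2 * k * 1 = 30 * k := by ring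
    rw [e] at h
    exact h
  have h3 : Dv 3 2 (20 * k) (Fk k) := by
    have h8 : Dv 3 2 0 (X - C 8 : ℤ[X]) := Dv.lin (by norm_num) (by norm_num)
    have h9 : Dv 3 2 2 (X - C 9 : ℤ[X]) := Dv.lin (by norm_num) (by norm_num)
    have h12 : Dv 3 2 1 (X - C 12 : ℤ[X]) := Dv.lin (by norm_num) (by norm_num)
    have h10 : Dv 3 2 0 (X - C 10 : ℤ[X]) := Dv.lin (by norm_num) (by norm_num)
    have h := (((h8.pow (4 * k)).mul (h9.pow (6 * k))).mul (h12.pow (8 * k))).mul (h10.pow (2 * k))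
    have e : 4 * k * 0 + 6 * k * 2 + 8 * k * 1 + 2 * k * 0 = 20 * k := by ring
    rw [e] at h
    exact h
  have e2 := h2 j
  have e3 := h3 j
  have e4 : 30 * k - 3 * j = 3 * (10 * k - j) := by omega
  have e5 : 20 * k - 2 * j = 2 * (10 * k - j) := by omega
  rw [e4, pow_mul] at e2
  rw [e5, pow_mul] at e3
  have hc : IsCoprime ((((2 : ℕ) : ℤ) ^ 3) ^ (10 * k - j)) ((((3 : ℕ) : ℤ) ^ 2) ^ (10 * k - j)) := by
    apply IsCoprime.pow
    norm_num
  have h := hc.mul_dvd e2 e3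
  rw [← mul_pow] at h
  norm_num at h
  exact h

theorem Fk_natDegree (k : ℕ) : (Fk k).natDegree ≤ 2 * (10 * k) := by
  unfold Fk
  have h : ∀ (c : ℤ) (n : ℕ), ((X - C c : ℤ[X]) ^ n).natDegree ≤ n := by
    intro c n
    refine (natDegree_pow_le).trans ?_
    rw [natDegree_X_sub_C, mul_one]
  refine (natDegree_mul_le).trans ?_
  refine (Nat.add_le_add ((natDegree_mul_le).trans (Nat.add_le_add ((natDegree_mul_le).trans
    (Nat.add_le_add (h _ _) (h _ _))) (h _ _))) (h _ _)).trans ?_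
  omega

/-- Domination of coefficients. -/
def Maj (A B : ℤ[X]) : Prop := ∀ j, |A.coeff j| ≤ B.coeff j

theorem Maj.mul {A A' B B' : ℤ[X]} (h : Maj A B) (h' : Maj A' B') : Maj (A * A') (B * B') := by
  intro n
  rw [coeff_mul, coeff_mul]
  refine (Finset.abs_sum_le_sum_abs _ _).trans (Finset.sum_le_sum ?_)
  intro p _
  rw [abs_mul]
  exact mul_le_mul (h _) (h' _) (abs_nonneg _) ((abs_nonneg _).trans (h _))

theorem Maj.pow {A B : ℤ[X]} (h : Maj A B) (n : ℕ) : Maj (A ^ n) (B ^ n) := by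
  induction n with
  | zero =>
    intro j
    rw [pow_zero, pow_zero, coeff_one]
    split_ifs <;> simp
  | succ n ih =>
    rw [pow_succ, pow_succ]
    exact ih.mul h

theorem Maj.lin {c : ℤ} (hc : 0 ≤ c) : Maj (X - C c) (X + C c) := by
  intro j
  rw [coeff_sub, coeff_add, coeff_X, coeff_C]
  rcases j with _ | _ | j
  · simp [abs_of_nonneg hc]
  · simp
  · simp

theorem Maj.le_eval {A B : ℤ[X]} (h : Maj A B) (j : ℕ) : |A.coeff j| ≤ B.eval 1 := by
  have hB : ∀ i, 0 ≤ B.coeff i := fun i => (abs_nonneg _).trans (h i)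
  refine (h j).trans ?_
  rw [eval_eq_sum_range]
  simp only [one_pow, mul_one]
  by_cases hj : j ≤ B.natDegree
  · exact Finset.single_le_sum (f := fun i => B.coeff i) (fun i _ => hB i)
      (Finset.mem_range.mpr (Nat.lt_succ_of_le hj))
  · rw [coeff_eq_zero_of_natDegree_lt (not_le.mp hj)]
    exact Finset.sum_nonneg fun i _ => hB i

theorem Fk_coeff_le (k j : ℕ) : |(Fk k).coeff j| ≤ (2 : ℤ) ^ (70 * k) := by
  have h : Maj (Fk k)
      ((X + C 8) ^ (4 * k) * (X + C 9) ^ (6 * k) * (X + C 12) ^ (8 * k) * (X + C 10) ^ (2 * k)) :=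
    ((((Maj.lin (by norm_num)).pow _).mul ((Maj.lin (by norm_num)).pow _)).mul
      ((Maj.lin (by norm_num)).pow _)).mul ((Maj.lin (by norm_num)).pow _)
  refine (h.le_eval j).trans ?_
  simp only [eval_mul, eval_pow, eval_add, eval_X, eval_C]
  rw [pow_mul, pow_mul, pow_mul, pow_mul, pow_mul, ← mul_pow, ← mul_pow, ← mul_pow]
  apply pow_le_pow_left₀ (by norm_num)
  norm_num

/-- The integral of one monomial. -/
theorem mono_int (p : ℤ) (d D : ℕ) (j : ℕ) (hj2 : j < 2 * d + 1) (hjd : j ≠ d)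
    (hdv : j < d → (72 : ℤ) ^ (d - j) ∣ p) (hD : ∀ i, 1 ≤ i → i ≤ d → i ∣ D) (u v : ℕ)
    (hu : 0 < u) (hv : 0 < v) (hu' : u ∣ 72) (hv' : v ∣ 72) :
    ∃ a : ℤ, (D : ℝ) * ((p : ℝ) * ∫ x in (u : ℝ)..v, x ^ ((j : ℤ) - d - 1)) = a := by
  have hu0 : (0 : ℝ) < u := by exact_mod_cast hu
  have hv0 : (0 : ℝ) < v := by exact_mod_cast hv
  have h1 : ∫ x in (u : ℝ)..v, x ^ ((j : ℤ) - d - 1) =
      ((v : ℝ) ^ ((j : ℤ) - d) - (u : ℝ) ^ ((j : ℤ) - d)) / ((j : ℝ) - d) := by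
    rw [integral_zpow]
    · congr 1
      · congr 1 <;> congr 1 <;> ring
      · push_cast
        ring
    · right
      refine ⟨by omega, ?_⟩
      intro h0
      rw [Set.mem_uIcc] at h0
      rcases h0 with h0 | h0 <;> linarith
  rw [h1]
  rcases lt_or_gt_of_ne hjd with hlt | hgt
  · obtain ⟨p', hp'⟩ := hdv hlt
    obtain ⟨D', hD'⟩ := hD (d - j) (by omega) (by omega)
    obtain ⟨u', hu''⟩ := hu'
    obtain ⟨v', hv''⟩ := hv'
    refine ⟨-(D' * (p' * ((v' : ℤ) ^ (d - j) - (u' : ℤ) ^ (d - j)))), ?_⟩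
    have e1 : ((j : ℤ) - d) = -((d - j : ℕ) : ℤ) := by omega
    have e2 : ((j : ℝ) - d) = -((d - j : ℕ) : ℝ) := by
      rw [Nat.cast_sub hlt.le]
      ring
    have hi0 : (0 : ℝ) < ((d - j : ℕ) : ℝ) := by
      have : 0 < d - j := by omega
      exact_mod_cast this
    rw [e1, e2, zpow_neg, zpow_neg, zpow_natCast, zpow_natCast, hp']
    set i := d - j with hi
    rw [hD']
    have e3 : (72 : ℝ) = u * u' := by exact_mod_cast hu''
    have e4 : (72 : ℝ) = v * v' := by exact_mod_cast hv''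
    have e5 : (72 : ℝ) ^ i * ((v : ℝ) ^ i)⁻¹ = (v' : ℝ) ^ i := by
      rw [e4, mul_pow]
      field_simp
    have e6 : (72 : ℝ) ^ i * ((u : ℝ) ^ i)⁻¹ = (u' : ℝ) ^ i := by
      rw [e3, mul_pow]
      field_simp
    push_cast
    rw [← e5, ← e6]
    field_simp
  · obtain ⟨D', hD'⟩ := hD (j - d) (by omega) (by omega)
    refine ⟨D' * (p * ((v : ℤ) ^ (j - d) - (u : ℤ) ^ (j - d))), ?_⟩
    have e1 : ((j : ℤ) - d) = ((j - d : ℕ) : ℤ) := by omega
    have e2 : ((j : ℝ) - d) = ((j - d : ℕ) : ℝ) := by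
      rw [Nat.cast_sub hgt.le]
    have hi0 : (0 : ℝ) < ((j - d : ℕ) : ℝ) := by
      have : 0 < j - d := by omega
      exact_mod_cast this
    rw [e1, e2, zpow_natCast, zpow_natCast]
    set i := j - d with hi
    rw [hD']
    push_cast
    field_simp

theorem poly_int (P : ℤ[X]) (d D : ℕ) (hdeg : P.natDegree ≤ 2 * d)
    (hdv : ∀ j, j < d → (72 : ℤ) ^ (d - j) ∣ P.coeff j) (hD : ∀ i, 1 ≤ i → i ≤ d → i ∣ D)
    (u v : ℕ) (hu : 0 < u) (huv : u ≤ v) (hu' : u ∣ 72) (hv' : v ∣ 72) :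
    ∃ a : ℤ, (D : ℝ) * ∫ x in (u : ℝ)..v, (aeval x P : ℝ) / x ^ (d + 1) =
      ((D * P.coeff d : ℤ) : ℝ) * Real.log (v / u) + a := by
  have hv : 0 < v := lt_of_lt_of_le hu huv
  have hu0 : (0 : ℝ) < u := by exact_mod_cast hu
  have hv0 : (0 : ℝ) < v := by exact_mod_cast hv
  have huv' : (u : ℝ) ≤ v := by exact_mod_cast huv
  have h0 : (0 : ℝ) ∉ Set.uIcc (u : ℝ) v := by
    intro h0
    rw [Set.mem_uIcc] at h0
    rcases h0 with h0 | h0 <;> linarith
  have h1 : ∫ x in (u : ℝ)..v, (aeval x P : ℝ) / x ^ (d + 1) =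
      ∫ x in (u : ℝ)..v, ∑ j ∈ Finset.range (2 * d + 1),
        (P.coeff j : ℝ) * x ^ ((j : ℤ) - d - 1) := by
    apply intervalIntegral.integral_congr
    intro x hx
    rw [Set.uIcc_of_le huv'] at hx
    have hx0 : 0 < x := lt_of_lt_of_le hu0 hx.1
    simp only
    rw [aeval_eq_sum_range' (Nat.lt_succ_of_le hdeg), Finset.sum_div]
    apply Finset.sum_congr rfl
    intro j _
    rw [zsmul_eq_mul, mul_div_assoc]
    congr 1
    rw [show ((j : ℤ) - d - 1) = (j : ℤ) - ((d + 1 : ℕ) : ℤ) by push_cast; ring,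
      zpow_sub₀ hx0.ne', zpow_natCast, zpow_natCast]
  have h2 : ∀ j : ℕ, IntervalIntegrable (fun x : ℝ => x ^ ((j : ℤ) - d - 1)) MeasureTheory.volume
      (u : ℝ) v := by
    intro j
    exact intervalIntegral.intervalIntegrable_zpow (Or.inr h0)
  rw [h1, intervalIntegral.integral_finsetSum (fun j _ => (h2 j).const_mul _)]
  have h3 : ∀ j ∈ Finset.range (2 * d + 1), j ≠ d →
      ∃ a : ℤ, (D : ℝ) * (((P.coeff j : ℤ) : ℝ) * ∫ x in (u : ℝ)..v, x ^ ((j : ℤ) - d - 1)) = a := by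
    intro j hj hjd
    exact mono_int (P.coeff j) d D j (Finset.mem_range.mp hj) hjd (hdv j) hD u v hu hv hu' hv'
  choose! f hf using h3
  refine ⟨∑ j ∈ (Finset.range (2 * d + 1)).erase d, f j, ?_⟩
  rw [Finset.mul_sum, ← Finset.add_sum_erase _ _ (Finset.mem_range.mpr (show d < 2 * d + 1 by omega))]
  congr 1
  · rw [intervalIntegral.integral_const_mul]
    have h4 : ∫ x in (u : ℝ)..v, x ^ ((d : ℤ) - d - 1) = Real.log (v / u) := by
      rw [show ((d : ℤ) - d - 1) = -1 by ring]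
      simp only [zpow_neg_one]
      exact integral_inv_of_pos hu0 hv0
    rw [h4]
    push_cast
    ring
  · push_cast
    apply Finset.sum_congr rfl
    intro j hj
    rw [Finset.mem_erase] at hj
    rw [intervalIntegral.integral_const_mul]
    exact hf j hj.2 hj.1

end Pool.Agent.Ord2.TL
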