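import Pool.Agent.Ord2.TypeLogA

/-!
# Finite type of log 3 / log 2, part B: sizes (helper12)

`G(x) = ((x-8)^2 (x-9)^3 (12-x)^4 (x-10) / x^5)^2` is at most `g1 = (9/25000)^2` on `[8,9]`,
at most `g2 = (17/25000)^2` on `[9,12]` and at least `g0 = (12/25000)^2` on `[10.76,10.78]`.
-/

set_option autoImplicit false

namespace Pool.Agent.Ord2.TL

open Polynomial

noncomputable def hh (x : ℝ) : ℝ := ((x - 8) / x) ^ 2 * ((x - 9) / x) ^ 3 * (12 - x) ^ 4 * (x - 10)

theorem pieceA (u v T x : ℝ) (hu : 8 ≤ u) (hv : v ≤ 9) (h1 : u ≤ x) (h2 : x ≤ v)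
    (hT : ((v - 8) / v) ^ 2 * ((9 - u) / u) ^ 3 * (12 - u) ^ 4 * (10 - u) ≤ T) : |hh x| ≤ T := by
  have hx0 : 0 < x := by linarith
  have hu0 : 0 < u := by linarith
  have hv0 : 0 < v := by linarith
  have e : hh x = ((x - 8) / x) ^ 2 * ((9 - x) / x) ^ 3 * (12 - x) ^ 4 * (10 - x) := by
    unfold hh
    field_simp
    ring
  have a1 : 0 ≤ (x - 8) / x := div_nonneg (by linarith) hx0.le
  have a2 : (x - 8) / x ≤ (v - 8) / v := by
    rw [div_le_div_iff₀ hx0 hv0]
    nlinarith
  have b1 : 0 ≤ (9 - x) / x := div_nonneg (by linarith) hx0.le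
  have b2 : (9 - x) / x ≤ (9 - u) / u := by
    rw [div_le_div_iff₀ hx0 hu0]
    nlinarith
  have c1 : 0 ≤ 12 - x := by linarith
  have d1 : 0 ≤ 10 - x := by linarith
  rw [e, abs_of_nonneg (by positivity)]
  refine le_trans ?_ hT
  have a3 := a1.trans a2
  have b3 := b1.trans b2
  gcongr

theorem pieceB (u v m T x : ℝ) (hu : 9 ≤ u) (hv : v ≤ 12) (h1 : u ≤ x) (h2 : x ≤ v)
    (hm1 : -m ≤ u - 10) (hm2 : v - 10 ≤ m)
    (hT : ((v - 8) / v) ^ 2 * ((v - 9) / v) ^ 3 * (12 - u) ^ 4 * m ≤ T) : |hh x| ≤ T := by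
  have hx0 : 0 < x := by linarith
  have hu0 : 0 < u := by linarith
  have hv0 : 0 < v := by linarith
  have a1 : 0 ≤ (x - 8) / x := div_nonneg (by linarith) hx0.le
  have a2 : (x - 8) / x ≤ (v - 8) / v := by
    rw [div_le_div_iff₀ hx0 hv0]
    nlinarith
  have b1 : 0 ≤ (x - 9) / x := div_nonneg (by linarith) hx0.le
  have b2 : (x - 9) / x ≤ (v - 9) / v := by
    rw [div_le_div_iff₀ hx0 hv0]
    nlinarith
  have c1 : 0 ≤ 12 - x := by linarith
  have d1 : |x - 10| ≤ m := abs_le.mpr ⟨by linarith, by linarith⟩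
  have e : |hh x| = ((x - 8) / x) ^ 2 * ((x - 9) / x) ^ 3 * (12 - x) ^ 4 * |x - 10| := by
    unfold hh
    rw [abs_mul, abs_of_nonneg (by positivity)]
  rw [e]
  refine le_trans ?_ hT
  have a3 := a1.trans a2
  have b3 := b1.trans b2
  gcongr

theorem hh_le1 (x : ℝ) (h8 : 8 ≤ x) (h9 : x ≤ 9) : |hh x| ≤ 9 / 25000 := by
  rcases le_total x (163 / 20) with h | h
  · exact pieceA 8 (163 / 20) _ x (by norm_num) (by norm_num) h8 h (by norm_num)
  rcases le_total x (329 / 40) with h' | h'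
  · exact pieceA (163 / 20) (329 / 40) _ x (by norm_num) (by norm_num) h h' (by norm_num)
  rcases le_total x (331 / 40) with h | h
  · exact pieceA (329 / 40) (331 / 40) _ x (by norm_num) (by norm_num) h' h (by norm_num)
  rcases le_total x (333 / 40) with h' | h'
  · exact pieceA (331 / 40) (333 / 40) _ x (by norm_num) (by norm_num) h h' (by norm_num)
  rcases le_total x (67 / 8) with h | h
  · exact pieceA (333 / 40) (67 / 8) _ x (by norm_num) (by norm_num) h' h (by norm_num)
  rcases le_total x (169 / 20) with h' | h'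
  · exact pieceA (67 / 8) (169 / 20) _ x (by norm_num) (by norm_num) h h' (by norm_num)
  rcases le_total x (69 / 8) with h | h
  · exact pieceA (169 / 20) (69 / 8) _ x (by norm_num) (by norm_num) h' h (by norm_num)
  · exact pieceA (69 / 8) 9 _ x (by norm_num) (by norm_num) h h9 (by norm_num)

theorem hh_le2 (x : ℝ) (h9 : 9 ≤ x) (h12 : x ≤ 12) : |hh x| ≤ 17 / 25000 := by
  rcases le_total x (77 / 8) with h | h
  · exact pieceB 9 (77 / 8) 1 _ x (by norm_num) (by norm_num) h9 h (by norm_num) (by norm_num)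
      (by norm_num)
  rcases le_total x (101 / 10) with h' | h'
  · exact pieceB (77 / 8) (101 / 10) (3 / 8) _ x (by norm_num) (by norm_num) h h' (by norm_num)
      (by norm_num) (by norm_num)
  rcases le_total x (52 / 5) with h | h
  · exact pieceB (101 / 10) (52 / 5) (2 / 5) _ x (by norm_num) (by norm_num) h' h (by norm_num)
      (by norm_num) (by norm_num)
  rcases le_total x (211 / 20) with h' | h'
  · exact pieceB (52 / 5) (211 / 20) (11 / 20) _ x (by norm_num) (by norm_num) h h' (by norm_num)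
      (by norm_num) (by norm_num)
  rcases le_total x (213 / 20) with h | h
  · exact pieceB (211 / 20) (213 / 20) (13 / 20) _ x (by norm_num) (by norm_num) h' h
      (by norm_num) (by norm_num) (by norm_num)
  rcases le_total x (429 / 40) with h' | h'
  · exact pieceB (213 / 20) (429 / 40) (29 / 40) _ x (by norm_num) (by norm_num) h h'
      (by norm_num) (by norm_num) (by norm_num)
  rcases le_total x (54 / 5) with h | h
  · exact pieceB (429 / 40) (54 / 5) (4 / 5) _ x (by norm_num) (by norm_num) h' h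
      (by norm_num) (by norm_num) (by norm_num)
  rcases le_total x (87 / 8) with h' | h'
  · exact pieceB (54 / 5) (87 / 8) (7 / 8) _ x (by norm_num) (by norm_num) h h'
      (by norm_num) (by norm_num) (by norm_num)
  rcases le_total x (439 / 40) with h | h
  · exact pieceB (87 / 8) (439 / 40) (39 / 40) _ x (by norm_num) (by norm_num) h' h
      (by norm_num) (by norm_num) (by norm_num)
  rcases le_total x (111 / 10) with h' | h'
  · exact pieceB (439 / 40) (111 / 10) (11 / 10) _ x (by norm_num) (by norm_num) h h'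
      (by norm_num) (by norm_num) (by norm_num)
  rcases le_total x (453 / 40) with h | h
  · exact pieceB (111 / 10) (453 / 40) (53 / 40) _ x (by norm_num) (by norm_num) h' h
      (by norm_num) (by norm_num) (by norm_num)
  rcases le_total x (239 / 20) with h' | h'
  · exact pieceB (453 / 40) (239 / 20) (39 / 20) _ x (by norm_num) (by norm_num) h h'
      (by norm_num) (by norm_num) (by norm_num)
  · exact pieceB (239 / 20) 12 2 _ x (by norm_num) (by norm_num) h' h12
      (by norm_num) (by norm_num) (by norm_num)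

theorem hh_ge (x : ℝ) (h1 : 269 / 25 ≤ x) (h2 : x ≤ 539 / 50) : 12 / 25000 ≤ hh x := by
  have hx0 : 0 < x := by linarith
  have a2 : (69 / 25) / (269 / 25) ≤ (x - 8) / x := by
    rw [div_le_div_iff₀ (by norm_num) hx0]
    nlinarith
  have b2 : (44 / 25) / (269 / 25) ≤ (x - 9) / x := by
    rw [div_le_div_iff₀ (by norm_num) hx0]
    nlinarith
  have c2 : 61 / 50 ≤ 12 - x := by linarith
  have d2 : 19 / 25 ≤ x - 10 := by linarith
  unfold hh
  calc (12 / 25000 : ℝ) ≤ ((69 / 25) / (269 / 25)) ^ 2 * ((44 / 25) / (269 / 25)) ^ 3 *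
        (61 / 50) ^ 4 * (19 / 25) := by norm_num
    _ ≤ _ := by gcongr

theorem aeval_Fk (k : ℕ) (x : ℝ) (hx : 0 < x) :
    (aeval x (Fk k) : ℝ) / x ^ (10 * k + 1) = (hh x ^ 2) ^ k / x := by
  unfold Fk hh
  simp only [map_mul, map_pow, map_sub, aeval_X, aeval_C]
  rw [pow_succ, pow_mul, pow_mul, pow_mul, pow_mul, pow_mul, ← mul_pow, ← mul_pow, ← mul_pow,
    ← div_div, ← div_pow]
  congr 2
  simp only [eq_intCast]
  push_cast
  field_simp
  ring

/-- The integrals. -/
noncomputable def JA (k : ℕ) : ℝ := ∫ x in ((8 : ℕ) : ℝ)..((9 : ℕ) : ℝ),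
  (aeval x (Fk k) : ℝ) / x ^ (10 * k + 1)

noncomputable def JB (k : ℕ) : ℝ := ∫ x in ((9 : ℕ) : ℝ)..((12 : ℕ) : ℝ),
  (aeval x (Fk k) : ℝ) / x ^ (10 * k + 1)

theorem JA_le (k : ℕ) : |JA k| ≤ ((9 / 25000 : ℝ) ^ 2) ^ k := by
  unfold JA
  push_cast
  have h := intervalIntegral.norm_integral_le_of_norm_le_const (a := (8 : ℝ)) (b := 9)
    (C := ((9 / 25000 : ℝ) ^ 2) ^ k)
    (f := fun x : ℝ => (aeval x (Fk k) : ℝ) / x ^ (10 * k + 1)) (by
      intro x hx
      rw [Set.uIoc_of_le (by norm_num)] at hx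
      have hx0 : 0 < x := by linarith [hx.1]
      have hx1 : 1 ≤ x := by linarith [hx.1]
      rw [aeval_Fk k x hx0, Real.norm_eq_abs, abs_div, abs_pow, abs_pow, abs_of_pos hx0]
      have h1 := hh_le1 x hx.1.le hx.2
      calc (|hh x| ^ 2) ^ k / x ≤ (|hh x| ^ 2) ^ k := div_le_self (by positivity) hx1
        _ ≤ ((9 / 25000 : ℝ) ^ 2) ^ k := by gcongr)
  rw [Real.norm_eq_abs] at h
  norm_num at h ⊢
  exact h

theorem JB_le (k : ℕ) : |JB k| ≤ ((17 / 25000 : ℝ) ^ 2) ^ k := by
  unfold JB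
  push_cast
  have h := intervalIntegral.norm_integral_le_of_norm_le_const (a := (9 : ℝ)) (b := 12)
    (C := ((17 / 25000 : ℝ) ^ 2) ^ k / 3)
    (f := fun x : ℝ => (aeval x (Fk k) : ℝ) / x ^ (10 * k + 1)) (by
      intro x hx
      rw [Set.uIoc_of_le (by norm_num)] at hx
      have hx0 : 0 < x := by linarith [hx.1]
      have hx1 : 3 ≤ x := by linarith [hx.1]
      rw [aeval_Fk k x hx0, Real.norm_eq_abs, abs_div, abs_pow, abs_pow, abs_of_pos hx0]
      have h1 := hh_le2 x hx.1.le hx.2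
      gcongr)
  rw [Real.norm_eq_abs] at h
  refine h.trans (le_of_eq ?_)
  norm_num

theorem JB_ge (k : ℕ) : ((12 / 25000 : ℝ) ^ 2) ^ k / 600 ≤ JB k := by
  unfold JB
  push_cast
  have hcont : ContinuousOn (fun x : ℝ => (aeval x (Fk k) : ℝ) / x ^ (10 * k + 1))
      (Set.Icc 9 12) := by
    apply ContinuousOn.div
    · exact (Polynomial.continuous_aeval (Fk k)).continuousOn
    · fun_prop
    · intro x hx
      have : 0 < x := by linarith [hx.1]
      positivity
  have hint : IntervalIntegrable (fun x : ℝ => (aeval x (Fk k) : ℝ) / x ^ (10 * k + 1))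
      MeasureTheory.volume 9 12 := by
    apply ContinuousOn.intervalIntegrable
    rw [Set.uIcc_of_le (by norm_num)]
    exact hcont
  have hnn : ∀ x ∈ Set.Icc (9 : ℝ) 12, 0 ≤ (aeval x (Fk k) : ℝ) / x ^ (10 * k + 1) := by
    intro x hx
    have hx0 : 0 < x := by linarith [hx.1]
    rw [aeval_Fk k x hx0]
    positivity
  have h1 : ∫ x in (269 / 25 : ℝ)..(539 / 50), (aeval x (Fk k) : ℝ) / x ^ (10 * k + 1) ≤
      ∫ x in (9 : ℝ)..12, (aeval x (Fk k) : ℝ) / x ^ (10 * k + 1) := by
    apply intervalIntegral.integral_mono_interval (by norm_num) (by norm_num) (by norm_num) _ hint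
    filter_upwards [MeasureTheory.ae_restrict_mem measurableSet_Ioc] with x hx
    exact hnn x ⟨hx.1.le, hx.2⟩
  refine le_trans ?_ h1
  have h2 : ∫ x in (269 / 25 : ℝ)..(539 / 50), (((12 / 25000 : ℝ) ^ 2) ^ k / 12) ≤
      ∫ x in (269 / 25 : ℝ)..(539 / 50), (aeval x (Fk k) : ℝ) / x ^ (10 * k + 1) := by
    apply intervalIntegral.integral_mono_on (by norm_num) (by simp)
    · apply ContinuousOn.intervalIntegrable
      rw [Set.uIcc_of_le (by norm_num)]
      exact hcont.mono (Set.Icc_subset_Icc (by norm_num) (by norm_num))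
    · intro x hx
      have hx0 : 0 < x := by linarith [hx.1]
      rw [aeval_Fk k x hx0]
      have h3 := hh_ge x hx.1 hx.2
      have h4 : x ≤ 12 := by linarith [hx.2]
      gcongr
  refine le_trans (le_of_eq ?_) h2
  rw [intervalIntegral.integral_const, smul_eq_mul]
  ring

end Pool.Agent.Ord2.TL
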