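import Pool.Agent.Ord2.Cor

/-! Module VAR (section 4). Expand the square; for fixed `(i', b')` the map `(i, b) ↦ v` is injective with `|l(v)| ≤ r`. -/

open MeasureTheory
open scoped ENNReal

namespace Pool.Agent.Ord2

/-- `S_m(r) = ∑_{|l(v)| ≤ r} |c(m D(v)) - |c(m)|^2|` -/
noncomputable def SS (μ : Measure (AddCircle (1 : ℝ))) (m : ℤ) (r : ℕ) : ℝ≥0∞ :=
  ∑' v : ℤ × ℤ, if |lv v| ≤ (r : ℝ) then ENNReal.ofReal (dev μ m v) else 0

private theorem int_cont (μ : Measure (AddCircle (1 : ℝ))) [IsProbabilityMeasure μ]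
    {f : AddCircle (1 : ℝ) → ℂ} (hf : Continuous f) : Integrable f μ :=
  hf.integrable_of_hasCompactSupport (HasCompactSupport.of_compactSpace _)

private theorem phi_cont (m : ℤ) (g : ℕ) :
    Continuous fun x : AddCircle (1 : ℝ) => (fourier m (g • x) : ℂ) :=
  (fourier m).continuous.comp (continuous_const_smul g)

private theorem pair_int (μ : Measure (AddCircle (1 : ℝ))) [IsProbabilityMeasure μ]
    (h2 : MeasurePreserving (fun x : AddCircle (1 : ℝ) => (2 : ℕ) • x) μ μ)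
    (h3 : MeasurePreserving (fun x : AddCircle (1 : ℝ) => (3 : ℕ) • x) μ μ)
    (m : ℤ) (n i b i' b' : ℕ) (hb : 2 * b ≤ n) (hb' : 2 * b' ≤ n) :
    ∫ x, (fourier m (gg n i b • x) - cf μ m) * (starRingEnd ℂ) (fourier m (gg n i' b' • x) - cf μ m) ∂μ
      = cf μ (m * Dv (vv n i b - vv n i' b')) - ((‖cf μ m‖ ^ 2 : ℝ) : ℂ) := by
  have hconj : Continuous fun z : ℂ => (starRingEnd ℂ) z := Complex.continuous_conj
  have c1 := phi_cont m (gg n i b)
  have c2 := phi_cont m (gg n i' b')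
  have e : ∀ x : AddCircle (1 : ℝ),
      (fourier m (gg n i b • x) - cf μ m) * (starRingEnd ℂ) (fourier m (gg n i' b' • x) - cf μ m) =
      (fourier m (gg n i b • x) * (starRingEnd ℂ) (fourier m (gg n i' b' • x)) -
        fourier m (gg n i b • x) * (starRingEnd ℂ) (cf μ m)) -
      (cf μ m * (starRingEnd ℂ) (fourier m (gg n i' b' • x)) - cf μ m * (starRingEnd ℂ) (cf μ m)) := by
    intro x
    rw [map_sub]
    ring
  simp only [e]
  have i1 : Integrable (fun x : AddCircle (1 : ℝ) =>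
      fourier m (gg n i b • x) * (starRingEnd ℂ) (fourier m (gg n i' b' • x))) μ :=
    int_cont μ (c1.mul (hconj.comp c2))
  have i2 : Integrable (fun x : AddCircle (1 : ℝ) =>
      fourier m (gg n i b • x) * (starRingEnd ℂ) (cf μ m)) μ :=
    int_cont μ (c1.mul continuous_const)
  have i3 : Integrable (fun x : AddCircle (1 : ℝ) =>
      cf μ m * (starRingEnd ℂ) (fourier m (gg n i' b' • x))) μ :=
    int_cont μ (continuous_const.mul (hconj.comp c2))
  have i4 : Integrable (fun _ : AddCircle (1 : ℝ) => cf μ m * (starRingEnd ℂ) (cf μ m)) μ :=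
    integrable_const _
  have s1 : Integrable (fun x : AddCircle (1 : ℝ) =>
      fourier m (gg n i b • x) * (starRingEnd ℂ) (fourier m (gg n i' b' • x)) -
        fourier m (gg n i b • x) * (starRingEnd ℂ) (cf μ m)) μ := i1.sub i2
  have s2 : Integrable (fun x : AddCircle (1 : ℝ) =>
      cf μ m * (starRingEnd ℂ) (fourier m (gg n i' b' • x)) -
        cf μ m * (starRingEnd ℂ) (cf μ m)) μ := i3.sub i4
  rw [integral_sub s1 s2, integral_sub i1 i2, integral_sub i3 i4,
    corr μ h2 h3 m n i b i' b' hb hb', integral_mul_const, integral_const_mul,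
    integral_char μ h2 h3 m n i b, integral_conj, integral_char μ h2 h3 m n i' b',
    integral_const]
  simp only [probReal_univ, one_smul]
  have e2 : cf μ m * (starRingEnd ℂ) (cf μ m) = ((‖cf μ m‖ ^ 2 : ℝ) : ℂ) := by
    rw [Complex.mul_conj, Complex.normSq_eq_norm_sq]
  rw [e2]
  ring

theorem var_le (μ : Measure (AddCircle (1 : ℝ))) [IsProbabilityMeasure μ]
    (h2 : MeasurePreserving (fun x : AddCircle (1 : ℝ) => (2 : ℕ) • x) μ μ)
    (h3 : MeasurePreserving (fun x : AddCircle (1 : ℝ) => (3 : ℕ) • x) μ μ)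
    (m : ℤ) (n r B : ℕ) (hr : 0 < r) (hB : 0 < B) (hn : 2 * B ≤ n) :
    ∫⁻ x, ENNReal.ofReal (‖av n r B (fourier m) x - cf μ m‖ ^ 2) ∂μ ≤ SS μ m r / ((r * B : ℕ) : ℝ≥0∞) := by
  classical
  set P : Finset (ℕ × ℕ) := Finset.range r ×ˢ Finset.range B with hP
  set N : ℝ := (r : ℝ) * (B : ℝ) with hN
  have hNpos : 0 < N := by
    have : (0 : ℝ) < r := by exact_mod_cast hr
    have : (0 : ℝ) < B := by exact_mod_cast hB
    positivity
  have hPcard : (P.card : ℝ) = N := by
    rw [hP, Finset.card_product, Finset.card_range, Finset.card_range]; push_cast; rfl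
  let φ : ℕ × ℕ → AddCircle (1 : ℝ) → ℂ := fun p x => fourier m (gg n p.1 p.2 • x)
  have hF : ∀ x, av n r B (fourier m) x - cf μ m = (∑ p ∈ P, (φ p x - cf μ m)) / (N : ℂ) := by
    intro x
    have hNc : (N : ℂ) ≠ 0 := by exact_mod_cast hNpos.ne'
    rw [Finset.sum_sub_distrib, Finset.sum_const, nsmul_eq_mul, sub_div]
    have : (P.card : ℂ) = (N : ℂ) := by
      rw [← hPcard]; push_cast; rfl
    rw [this, mul_div_cancel_left₀ _ hNc]
    congr 1
    unfold av
    rw [hP, Finset.sum_product, hN]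
    push_cast
    rfl
  have hsq : ∀ x, ((‖av n r B (fourier m) x - cf μ m‖ ^ 2 : ℝ) : ℂ) =
      (∑ p ∈ P, ∑ q ∈ P, (φ p x - cf μ m) * (starRingEnd ℂ) (φ q x - cf μ m)) / ((N : ℂ) ^ 2) := by
    intro x
    rw [← Complex.normSq_eq_norm_sq, ← Complex.mul_conj, hF x, map_div₀, Complex.conj_ofReal,
      map_sum, div_mul_div_comm, Finset.sum_mul_sum, sq]
  have hconj : Continuous fun z : ℂ => (starRingEnd ℂ) z := Complex.continuous_conj
  have hφ : ∀ p, Continuous (φ p) := fun p => phi_cont m _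
  have hint : ((∫ x, ‖av n r B (fourier m) x - cf μ m‖ ^ 2 ∂μ : ℝ) : ℂ) =
      (∑ p ∈ P, ∑ q ∈ P, (cf μ (m * Dv (vv n p.1 p.2 - vv n q.1 q.2)) - ((‖cf μ m‖ ^ 2 : ℝ) : ℂ))) /
        ((N : ℂ) ^ 2) := by
    rw [← integral_complex_ofReal]
    have e1 : ∫ x, ((‖av n r B (fourier m) x - cf μ m‖ ^ 2 : ℝ) : ℂ) ∂μ =
        ∫ x, (∑ p ∈ P, ∑ q ∈ P, (φ p x - cf μ m) * (starRingEnd ℂ) (φ q x - cf μ m)) /
          ((N : ℂ) ^ 2) ∂μ := integral_congr_ae (Filter.Eventually.of_forall hsq)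
    rw [e1, integral_div]
    congr 1
    have ic : ∀ p q, Integrable
        (fun x => (φ p x - cf μ m) * (starRingEnd ℂ) (φ q x - cf μ m)) μ := fun p q =>
      int_cont μ (((hφ p).sub continuous_const).mul (hconj.comp ((hφ q).sub continuous_const)))
    rw [integral_finsetSum _ (fun p _ => integrable_finsetSum _ (fun q _ => ic p q))]
    refine Finset.sum_congr rfl fun p hp => ?_
    rw [integral_finsetSum _ (fun q _ => ic p q)]
    refine Finset.sum_congr rfl fun q hq => ?_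
    have hp' := (Finset.mem_product.mp hp).2
    have hq' := (Finset.mem_product.mp hq).2
    rw [Finset.mem_range] at hp' hq'
    exact pair_int μ h2 h3 m n p.1 p.2 q.1 q.2 (by omega) (by omega)
  have hle : ∫ x, ‖av n r B (fourier m) x - cf μ m‖ ^ 2 ∂μ ≤
      (∑ q ∈ P, ∑ p ∈ P, dev μ m (vv n p.1 p.2 - vv n q.1 q.2)) / N ^ 2 := by
    have h0 : 0 ≤ ∫ x, ‖av n r B (fourier m) x - cf μ m‖ ^ 2 ∂μ :=
      integral_nonneg fun x => by positivity
    have h1 : ∫ x, ‖av n r B (fourier m) x - cf μ m‖ ^ 2 ∂μ =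
        ‖((∫ x, ‖av n r B (fourier m) x - cf μ m‖ ^ 2 ∂μ : ℝ) : ℂ)‖ := by
      rw [Complex.norm_real, Real.norm_of_nonneg h0]
    rw [h1, hint, norm_div, norm_pow, Complex.norm_real, Real.norm_of_nonneg hNpos.le]
    apply div_le_div_of_nonneg_right _ (by positivity)
    refine (norm_sum_le _ _).trans ?_
    refine (Finset.sum_le_sum fun p _ => norm_sum_le _ _).trans ?_
    rw [Finset.sum_comm]
    rfl
  have hcontav : Continuous fun x => ‖av n r B (fourier m) x - cf μ m‖ ^ 2 := by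
    have : Continuous fun x => (∑ p ∈ P, (φ p x - cf μ m)) / (N : ℂ) :=
      (continuous_finsetSum _ fun p _ => (hφ p).sub continuous_const).div_const _
    have h' : (fun x => ‖av n r B (fourier m) x - cf μ m‖ ^ 2) =
        fun x => ‖(∑ p ∈ P, (φ p x - cf μ m)) / (N : ℂ)‖ ^ 2 := by
      funext x; rw [hF x]
    rw [h']
    exact this.norm.pow 2
  rw [← ofReal_integral_eq_lintegral_ofReal
    (hcontav.integrable_of_hasCompactSupport (HasCompactSupport.of_compactSpace _))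
    (Filter.Eventually.of_forall fun x => by positivity)]
  refine (ENNReal.ofReal_le_ofReal hle).trans ?_
  have hnn : ∀ v, 0 ≤ dev μ m v := fun v => norm_nonneg _
  rw [ENNReal.ofReal_div_of_pos (by positivity), ENNReal.ofReal_sum_of_nonneg
    (fun q _ => Finset.sum_nonneg fun p _ => hnn _)]
  have hone : ∀ q ∈ P, ENNReal.ofReal (∑ p ∈ P, dev μ m (vv n p.1 p.2 - vv n q.1 q.2)) ≤ SS μ m r := by
    intro q hq
    rw [ENNReal.ofReal_sum_of_nonneg (fun p _ => hnn _)]
    have hq1 := Finset.mem_range.mp (Finset.mem_product.mp hq).1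
    have hinj : Set.InjOn (fun p : ℕ × ℕ => vv n p.1 p.2 - vv n q.1 q.2) (P : Set (ℕ × ℕ)) := by
      intro p _ p' _ hpp
      have := vv_inj n p.1 p.2 p'.1 p'.2 (sub_left_injective hpp)
      exact Prod.ext this.1 this.2
    have e1 : ∑ p ∈ P, ENNReal.ofReal (dev μ m (vv n p.1 p.2 - vv n q.1 q.2)) =
        ∑ v ∈ P.image (fun p : ℕ × ℕ => vv n p.1 p.2 - vv n q.1 q.2),
          (if |lv v| ≤ (r : ℝ) then ENNReal.ofReal (dev μ m v) else 0) := by
      rw [Finset.sum_image hinj]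
      refine Finset.sum_congr rfl fun p hp => ?_
      have hp1 := Finset.mem_range.mp (Finset.mem_product.mp hp).1
      rw [if_pos (lv_diff n r p.1 p.2 q.1 q.2 hp1 hq1)]
    rw [e1]
    exact ENNReal.sum_le_tsum _
  have hsum : ∑ q ∈ P, ENNReal.ofReal (∑ p ∈ P, dev μ m (vv n p.1 p.2 - vv n q.1 q.2)) ≤
      (P.card : ℝ≥0∞) * SS μ m r := by
    refine (Finset.sum_le_sum hone).trans ?_
    rw [Finset.sum_const, nsmul_eq_mul]
  have hcE : (P.card : ℝ≥0∞) = ((r * B : ℕ) : ℝ≥0∞) := by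
    rw [hP, Finset.card_product, Finset.card_range, Finset.card_range]
  have hNE : ENNReal.ofReal (N ^ 2) = ((r * B : ℕ) : ℝ≥0∞) ^ 2 := by
    have : N ^ 2 = (((r * B) ^ 2 : ℕ) : ℝ) := by rw [hN]; push_cast; ring
    rw [this, ENNReal.ofReal_natCast]
    push_cast
    rfl
  rw [hNE]
  refine (ENNReal.div_le_div_right hsum _).trans ?_
  rw [hcE]
  have hK0 : ((r * B : ℕ) : ℝ≥0∞) ≠ 0 := by
    have : r * B ≠ 0 := Nat.mul_ne_zero hr.ne' hB.ne'
    exact_mod_cast this
  have hKt : ((r * B : ℕ) : ℝ≥0∞) ≠ ⊤ := ENNReal.natCast_ne_top _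
  rw [sq]
  apply le_of_eq
  exact ENNReal.mul_div_mul_left _ _ hK0 hKt

end Pool.Agent.Ord2
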