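import Pool.Agent.Ord2.Arith

/-! Module WEYL. Density of trigonometric polynomials (span_fourier_closure_eq_top). First the abstract statement, then
the two applications. -/

open MeasureTheory Filter Topology

namespace Pool.Agent.Ord2

private theorem weyl_span {ι : Type} (l : Filter ι) (A : ι → C(AddCircle (1 : ℝ), ℂ) →ₗ[ℂ] ℂ)
    (L : C(AddCircle (1 : ℝ), ℂ) →ₗ[ℂ] ℂ)
    (h : ∀ m : ℤ, Tendsto (fun i => A i (fourier m)) l (𝓝 (L (fourier m))))
    (f : C(AddCircle (1 : ℝ), ℂ)) (hf : f ∈ Submodule.span ℂ (Set.range (@fourier (1 : ℝ)))) :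
    Tendsto (fun i => A i f) l (𝓝 (L f)) := by
  induction hf using Submodule.span_induction with
  | mem x hx =>
    obtain ⟨m, rfl⟩ := hx
    exact h m
  | zero => simp only [map_zero]; exact tendsto_const_nhds
  | add x y _ _ hx hy => simp only [map_add]; exact hx.add hy
  | smul a x _ hx => simp only [map_smul]; exact hx.const_smul a

theorem weyl {ι : Type} (l : Filter ι) (A : ι → C(AddCircle (1 : ℝ), ℂ) →ₗ[ℂ] ℂ)
    (L : C(AddCircle (1 : ℝ), ℂ) →ₗ[ℂ] ℂ) (hA : ∀ i f, ‖A i f‖ ≤ ‖f‖) (hL : ∀ f, ‖L f‖ ≤ ‖f‖)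
    (h : ∀ m : ℤ, Tendsto (fun i => A i (fourier m)) l (𝓝 (L (fourier m))))
    (f : C(AddCircle (1 : ℝ), ℂ)) : Tendsto (fun i => A i f) l (𝓝 (L f)) := by
  rw [Metric.tendsto_nhds]
  intro ε hε
  have hcl : f ∈ closure (Submodule.span ℂ (Set.range (@fourier (1 : ℝ))) :
      Set C(AddCircle (1 : ℝ), ℂ)) := by
    have := @span_fourier_closure_eq_top (1 : ℝ) _
    have h2 : f ∈ (Submodule.span ℂ (Set.range (@fourier (1 : ℝ)))).topologicalClosure := by
      rw [this]; exact Submodule.mem_top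
    exact h2
  obtain ⟨g, hg, hfg⟩ := Metric.mem_closure_iff.mp hcl (ε / 3) (by positivity)
  have h1 := (Metric.tendsto_nhds.mp (weyl_span l A L h g hg)) (ε / 3) (by positivity)
  filter_upwards [h1] with i hi
  rw [dist_eq_norm] at hi hfg ⊢
  have e1 : A i f - L f = A i (f - g) + (A i g - L g) - L (f - g) := by
    simp only [map_sub]; ring
  rw [e1]
  calc ‖A i (f - g) + (A i g - L g) - L (f - g)‖
      ≤ ‖A i (f - g) + (A i g - L g)‖ + ‖L (f - g)‖ := norm_sub_le _ _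
    _ ≤ ‖A i (f - g)‖ + ‖A i g - L g‖ + ‖L (f - g)‖ := by gcongr; exact norm_add_le _ _
    _ ≤ ‖f - g‖ + ‖A i g - L g‖ + ‖f - g‖ := by gcongr; exacts [hA _ _, hL _]
    _ < ε := by linarith

end Pool.Agent.Ord2
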